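import Pool.Agent.H800Z.Erg.St

set_option autoImplicit false

open MeasureTheory Filter Topology Set

namespace Pool.Agent.H844Z.Kara

theorem poly_lim {Ω : Type} [MeasurableSpace Ω] (ν : Measure Ω) (N φ : Ω → ℝ) (L : ℝ)
    (hi : ∀ τ, 0 < τ → Integrable (fun ω => Real.exp (-(τ * N ω)) * φ ω) ν)
    (hl : Tendsto (fun τ => τ * ∫ ω, Real.exp (-(τ * N ω)) * φ ω ∂ν) (𝓝[>] 0) (𝓝 L))
    (q : Polynomial ℝ) :
    (∀ τ, 0 < τ → Integrable
      (fun ω => Real.exp (-(τ * N ω)) * q.eval (Real.exp (-(τ * N ω))) * φ ω) ν) ∧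
    Tendsto (fun τ => τ * ∫ ω, Real.exp (-(τ * N ω)) * q.eval (Real.exp (-(τ * N ω))) * φ ω ∂ν)
      (𝓝[>] 0) (𝓝 (L * ∫ y in (0 : ℝ)..1, q.eval y)) := by
  induction q using Polynomial.induction_on' with
  | add p q hp hq =>
    refine ⟨fun τ hτ => ?_, ?_⟩
    · refine ((hp.1 τ hτ).add (hq.1 τ hτ)).congr (Eventually.of_forall fun ω => ?_)
      simp only [Pi.add_apply, Polynomial.eval_add]; ring
    · simp only [Polynomial.eval_add]
      rw [intervalIntegral.integral_add (p.continuous.intervalIntegrable _ _)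
        (q.continuous.intervalIntegrable _ _), mul_add]
      refine (hp.2.add hq.2).congr' ?_
      filter_upwards [self_mem_nhdsWithin] with τ hτ
      rw [← mul_add, ← integral_add (hp.1 τ hτ) (hq.1 τ hτ)]
      congr 2
      ext ω; ring
  | monomial j a =>
    have e : ∀ τ ω, Real.exp (-(τ * N ω)) *
        (Polynomial.monomial j a).eval (Real.exp (-(τ * N ω))) * φ ω =
        a * (Real.exp (-(((j + 1 : ℝ) * τ) * N ω)) * φ ω) := by
      intro τ ω
      rw [Polynomial.eval_monomial, ← Real.exp_nat_mul]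
      have : -(((j + 1 : ℝ) * τ) * N ω) = -(τ * N ω) + j * -(τ * N ω) := by ring
      rw [this, Real.exp_add]; ring
    have hj : (0 : ℝ) < j + 1 := by positivity
    simp only [e]
    refine ⟨fun τ hτ => (hi _ (mul_pos hj hτ)).const_mul a, ?_⟩
    have h1 : Tendsto (fun τ : ℝ => (j + 1 : ℝ) * τ) (𝓝[>] 0) (𝓝[>] 0) := by
      refine tendsto_nhdsWithin_iff.2 ⟨?_, ?_⟩
      · have : Tendsto (fun τ : ℝ => (j + 1 : ℝ) * τ) (𝓝 0) (𝓝 ((j + 1 : ℝ) * 0)) :=
          tendsto_const_nhds.mul tendsto_id
        rw [mul_zero] at this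
        exact this.mono_left nhdsWithin_le_nhds
      · filter_upwards [self_mem_nhdsWithin] with τ hτ using mul_pos hj hτ
    have h2 := (hl.comp h1).const_mul (a / (j + 1))
    have h3 : L * ∫ y in (0 : ℝ)..1, (Polynomial.monomial j a).eval y = a / (j + 1) * L := by
      simp only [Polynomial.eval_monomial]
      rw [intervalIntegral.integral_const_mul, integral_pow]
      simp only [one_pow, ne_eq, Nat.add_eq_zero_iff, one_ne_zero, and_false, not_false_eq_true,
        zero_pow, sub_zero]
      ring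
    rw [h3]
    refine h2.congr (fun τ => ?_)
    simp only [Function.comp_apply]
    rw [integral_const_mul]
    field_simp

/-- continuous cut-off of `1 / y` -/
noncomputable def H (s b d y : ℝ) : ℝ := max 0 (min 1 ((y - b) / d)) / max y s

theorem H_cont {s : ℝ} (hs : 0 < s) (b d : ℝ) : Continuous (H s b d) := by
  unfold H
  refine Continuous.div (by fun_prop) (by fun_prop) (fun y => ?_)
  exact (lt_of_lt_of_le hs (le_max_right _ _)).ne'

theorem H_nonneg {s : ℝ} (hs : 0 < s) (b d y : ℝ) : 0 ≤ H s b d y :=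
  div_nonneg (le_max_left _ _) (hs.le.trans (le_max_right _ _))

theorem H_le {s : ℝ} (hs : 0 < s) (b d y : ℝ) : H s b d y ≤ 1 / max y s :=
  div_le_div_of_nonneg_right (max_le zero_le_one (min_le_left _ _))
    (hs.le.trans (le_max_right _ _))

theorem H_zero {s b d y : ℝ} (hd : 0 < d) (hy : y ≤ b) : H s b d y = 0 := by
  unfold H
  rw [max_eq_left, zero_div]
  exact (min_le_right _ _).trans (div_nonpos_of_nonpos_of_nonneg (by linarith) hd.le)

theorem H_one {s b d y : ℝ} (hd : 0 < d) (hy : b + d ≤ y) (hs : s ≤ y) : H s b d y = y⁻¹ := by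
  unfold H
  rw [min_eq_left ((one_le_div hd).2 (by linarith)), max_eq_right zero_le_one, max_eq_left hs,
    one_div]

theorem H_int {s b d : ℝ} (hs : 0 < s) (hb : 0 ≤ b) (hd : 0 < d) (h1 : b + d ≤ 1)
    (h2 : s ≤ b + d) :
    -Real.log (b + d) ≤ ∫ y in (0 : ℝ)..1, H s b d y ∧
      ∫ y in (0 : ℝ)..1, H s b d y ≤ -Real.log (b + d) + d / s := by
  have hc := H_cont hs b d
  have e1 : ∫ y in (0 : ℝ)..b, H s b d y = 0 := by
    rw [intervalIntegral.integral_congr (g := fun _ => (0 : ℝ))]
    · simp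
    · intro y hy
      rw [uIcc_of_le hb] at hy
      exact H_zero hd hy.2
  have e3 : ∫ y in (b + d)..1, H s b d y = -Real.log (b + d) := by
    rw [intervalIntegral.integral_congr (g := fun y => y⁻¹)]
    · rw [integral_inv_of_pos (by linarith) one_pos, one_div, Real.log_inv]
    · intro y hy
      rw [uIcc_of_le h1] at hy
      exact H_one hd hy.1 (h2.trans hy.1)
  have e2 : 0 ≤ ∫ y in b..(b + d), H s b d y :=
    intervalIntegral.integral_nonneg (by linarith) (fun y _ => H_nonneg hs b d y)
  have e4 : ∫ y in b..(b + d), H s b d y ≤ d / s := by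
    have := intervalIntegral.integral_mono_on (μ := volume) (by linarith : b ≤ b + d)
      (hc.intervalIntegrable _ _) (continuous_const (y := 1 / s).intervalIntegrable _ _)
      (fun y _ => (H_le hs b d y).trans
        (one_div_le_one_div_of_le hs (le_max_right _ _)))
    rw [intervalIntegral.integral_const] at this
    simpa [div_eq_mul_inv] using this
  rw [← intervalIntegral.integral_add_adjacent_intervals (hc.intervalIntegrable 0 b)
    (hc.intervalIntegrable b 1), ← intervalIntegral.integral_add_adjacent_intervals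
    (hc.intervalIntegrable b (b + d)) (hc.intervalIntegrable (b + d) 1), e1, e3]
  constructor <;> linarith

theorem exists_up {ε : ℝ} (hε : 0 < ε) : ∃ q : Polynomial ℝ,
    (∀ y, 0 < y → y ≤ 1 → 0 ≤ y * q.eval y ∧ (Real.exp (-1) < y → 1 ≤ y * q.eval y)) ∧
      ∫ y in (0 : ℝ)..1, q.eval y ≤ 1 + ε := by
  set a := Real.exp (-1) with ha
  have a0 : 0 < a := Real.exp_pos _
  have a1 : a ≤ 1 := Real.exp_le_one_iff.2 (by norm_num)
  set d := min a (a * ε / 3) with hd
  have d0 : 0 < d := lt_min a0 (by positivity)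
  have hc := H_cont a0 (a - d) d
  obtain ⟨p, hp⟩ := exists_polynomial_near_of_continuousOn 0 1 _ hc.continuousOn (ε / 3)
    (by positivity)
  have hI := (H_int a0 (b := a - d) (by linarith [min_le_left a (a * ε / 3)]) d0 (by linarith)
    (by linarith)).2
  rw [sub_add_cancel, ha, Real.log_exp, neg_neg, ← ha] at hI
  have hda : d / a ≤ ε / 3 := by
    rw [div_le_iff₀ a0]
    have := min_le_right a (a * ε / 3)
    linarith
  refine ⟨p + Polynomial.C (ε / 3), fun y y0 y1 => ?_, ?_⟩
  · have h1 := (abs_lt.1 (hp y ⟨y0.le, y1⟩)).1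
    have h2 : H a (a - d) d y ≤ (p + Polynomial.C (ε / 3)).eval y := by
      simp only [Polynomial.eval_add, Polynomial.eval_C]; linarith
    refine ⟨mul_nonneg y0.le ((H_nonneg a0 _ _ _).trans h2), fun hy => ?_⟩
    rw [H_one d0 (by linarith) hy.le] at h2
    calc (1 : ℝ) = y * y⁻¹ := (mul_inv_cancel₀ y0.ne').symm
      _ ≤ _ := mul_le_mul_of_nonneg_left h2 y0.le
  · have := intervalIntegral.integral_mono_on (μ := volume) zero_le_one
      ((p + Polynomial.C (ε / 3)).continuous.intervalIntegrable 0 1)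
      ((hc.add (continuous_const (y := 2 * ε / 3))).intervalIntegrable 0 1) (fun y hy => by
        have h1 := (abs_lt.1 (hp y hy)).2
        simp only [Polynomial.eval_add, Polynomial.eval_C, Pi.add_apply]; linarith)
    simp only [Pi.add_apply] at this
    rw [intervalIntegral.integral_add (hc.intervalIntegrable _ _)
      (continuous_const.intervalIntegrable _ _), intervalIntegral.integral_const] at this
    simp only [sub_zero, smul_eq_mul, one_mul] at this
    linarith

theorem exists_low {ε : ℝ} (hε : 0 < ε) (hε1 : ε < 1) : ∃ q : Polynomial ℝ,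
    (∀ y, 0 < y → y ≤ 1 → y * q.eval y ≤ 1 ∧ (y ≤ Real.exp (-1) → y * q.eval y ≤ 0)) ∧
      1 - ε ≤ ∫ y in (0 : ℝ)..1, q.eval y := by
  set a := Real.exp (-1) with ha
  have a0 : 0 < a := Real.exp_pos _
  set d := Real.exp (-1 + ε / 3) - a with hd
  have d0 : 0 < d := sub_pos.2 (Real.exp_lt_exp.2 (by linarith))
  have e0 : a + d = Real.exp (-1 + ε / 3) := by rw [hd]; ring
  have hc := H_cont a0 a d
  obtain ⟨p, hp⟩ := exists_polynomial_near_of_continuousOn 0 1 _ hc.continuousOn (ε / 3)
    (by positivity)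
  have hI := (H_int a0 a0.le d0 (by rw [e0]; exact Real.exp_le_one_iff.2 (by linarith))
    (by linarith)).1
  rw [e0, Real.log_exp] at hI
  refine ⟨p - Polynomial.C (ε / 3), fun y y0 y1 => ?_, ?_⟩
  · have h1 := (abs_lt.1 (hp y ⟨y0.le, y1⟩)).2
    have h2 : (p - Polynomial.C (ε / 3)).eval y ≤ H a a d y := by
      simp only [Polynomial.eval_sub, Polynomial.eval_C]; linarith
    refine ⟨?_, fun hy => ?_⟩
    · have h3 := h2.trans ((H_le a0 a d y).trans (one_div_le_one_div_of_le y0 (le_max_left _ _)))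
      calc _ ≤ y * (1 / y) := mul_le_mul_of_nonneg_left h3 y0.le
        _ = 1 := mul_one_div_cancel y0.ne'
    · rw [H_zero d0 hy] at h2
      exact mul_nonpos_of_nonneg_of_nonpos y0.le h2
  · have := intervalIntegral.integral_mono_on (μ := volume) zero_le_one
      ((hc.sub (continuous_const (y := 2 * ε / 3))).intervalIntegrable 0 1)
      ((p - Polynomial.C (ε / 3)).continuous.intervalIntegrable 0 1) (fun y hy => by
        have h1 := (abs_lt.1 (hp y hy)).1
        simp only [Polynomial.eval_sub, Polynomial.eval_C, Pi.sub_apply]; linarith)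
    simp only [Pi.sub_apply] at this
    rw [intervalIntegral.integral_sub (hc.intervalIntegrable _ _)
      (continuous_const.intervalIntegrable _ _), intervalIntegral.integral_const] at this
    simp only [sub_zero, smul_eq_mul, one_mul] at this
    linarith

theorem thm_kara : Pool.Agent.H800Z.Erg.S_kara := by
  intro Ω _ ν N φ L hN N0 φ0 hi hl
  have L0 : 0 ≤ L := ge_of_tendsto hl (by
    filter_upwards [self_mem_nhdsWithin] with τ hτ
    exact mul_nonneg (le_of_lt hτ)
      (integral_nonneg fun ω => mul_nonneg (Real.exp_pos _).le (φ0 ω)))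
  have hm : ∀ R, MeasurableSet {ω | N ω < R} := fun R => measurableSet_lt hN measurable_const
  have key : ∀ R, 0 < R → ∀ ω, 0 < Real.exp (-(R⁻¹ * N ω)) ∧ Real.exp (-(R⁻¹ * N ω)) ≤ 1 ∧
      (N ω < R ↔ Real.exp (-1) < Real.exp (-(R⁻¹ * N ω))) := by
    intro R hR ω
    refine ⟨Real.exp_pos _, Real.exp_le_one_iff.2 ?_, ?_⟩
    · exact neg_nonpos.2 (mul_nonneg (inv_pos.2 hR).le (N0 ω))
    · rw [Real.exp_lt_exp, neg_lt_neg_iff, inv_mul_lt_iff₀ hR, mul_one]
  have hint : ∀ R, 0 < R → Integrable (indicator {ω | N ω < R} φ) ν := by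
    intro R hR
    have h1 := (hi R⁻¹ (inv_pos.2 hR)).bdd_mul (c := Real.exp 1)
      (f := indicator {ω | N ω < R} (fun ω => Real.exp (R⁻¹ * N ω)))
      (((Real.measurable_exp.comp (hN.const_mul _)).indicator (hm R)).aestronglyMeasurable)
      (Eventually.of_forall fun ω => by
        by_cases h : ω ∈ {ω | N ω < R}
        · rw [indicator_of_mem h, Real.norm_of_nonneg (Real.exp_pos _).le]
          refine Real.exp_le_exp.2 ?_
          rw [inv_mul_le_iff₀ hR, mul_one]
          exact le_of_lt h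
        · rw [indicator_of_notMem h, norm_zero]
          exact (Real.exp_pos _).le)
    refine h1.congr (Eventually.of_forall fun ω => ?_)
    by_cases h : ω ∈ {ω | N ω < R}
    · simp only [indicator_of_mem h]
      rw [← mul_assoc, ← Real.exp_add, add_neg_cancel, Real.exp_zero, one_mul]
    · simp only [indicator_of_notMem h, zero_mul]
  refine tendsto_order.2 ⟨fun c hc => ?_, fun c hc => ?_⟩
  · have hp : 0 < (L - c) / (L + 1) := div_pos (by linarith) (by linarith)
    obtain ⟨q, hq, hI⟩ := exists_low (ε := min (1 / 2) ((L - c) / (L + 1)))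
      (lt_min (by norm_num) hp) (lt_of_le_of_lt (min_le_left _ _) (by norm_num))
    obtain ⟨h1, h2⟩ := poly_lim ν N φ L hi hl q
    have h3 : c < L * ∫ y in (0 : ℝ)..1, q.eval y := by
      have e1 : L * (1 - (L - c) / (L + 1)) ≤ L * ∫ y in (0 : ℝ)..1, q.eval y :=
        mul_le_mul_of_nonneg_left (by linarith [min_le_right (1 / 2) ((L - c) / (L + 1))]) L0
      have e2 : (L + 1) * ((L - c) / (L + 1)) = L - c := by field_simp
      nlinarith
    filter_upwards [(h2.comp tendsto_inv_atTop_nhdsGT_zero).eventually (lt_mem_nhds h3),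
      eventually_gt_atTop 0] with R hR R0
    refine lt_of_lt_of_le hR (mul_le_mul_of_nonneg_left ?_ (inv_pos.2 R0).le)
    rw [← integral_indicator (hm R)]
    refine integral_mono (h1 _ (inv_pos.2 R0)) (hint R R0) (fun ω => ?_)
    obtain ⟨k1, k2, k3⟩ := key R R0 ω
    by_cases h : ω ∈ {ω | N ω < R}
    · simp only [indicator_of_mem h]
      exact mul_le_of_le_one_left (φ0 ω) (hq _ k1 k2).1
    · simp only [indicator_of_notMem h]
      exact mul_nonpos_of_nonpos_of_nonneg
        ((hq _ k1 k2).2 (not_lt.1 (fun h' => h (k3.2 h')))) (φ0 ω)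
  · have hp : 0 < (c - L) / (L + 1) := div_pos (by linarith) (by linarith)
    obtain ⟨q, hq, hI⟩ := exists_up hp
    obtain ⟨h1, h2⟩ := poly_lim ν N φ L hi hl q
    have h3 : L * ∫ y in (0 : ℝ)..1, q.eval y < c := by
      have e1 := mul_le_mul_of_nonneg_left hI L0
      have e2 : (L + 1) * ((c - L) / (L + 1)) = c - L := by field_simp
      nlinarith
    filter_upwards [(h2.comp tendsto_inv_atTop_nhdsGT_zero).eventually (gt_mem_nhds h3),
      eventually_gt_atTop 0] with R hR R0
    refine lt_of_le_of_lt (mul_le_mul_of_nonneg_left ?_ (inv_pos.2 R0).le) hR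
    rw [← integral_indicator (hm R)]
    refine integral_mono (hint R R0) (h1 _ (inv_pos.2 R0)) (fun ω => ?_)
    obtain ⟨k1, k2, k3⟩ := key R R0 ω
    by_cases h : ω ∈ {ω | N ω < R}
    · simp only [indicator_of_mem h]
      exact le_mul_of_one_le_left (φ0 ω) ((hq _ k1 k2).2 (k3.1 h))
    · simp only [indicator_of_notMem h]
      exact mul_nonneg (hq _ k1 k2).1 (φ0 ω)

end Pool.Agent.H844Z.Kara
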