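import Mathlib
import Pool.Agent.Helper212.NullMod

set_option autoImplicit false
open MeasureTheory Set Filter Topology

namespace Pool.Agent.H844Z

/-- Lebesgue measure on the unit interval, as a measure on the real line. -/
noncomputable abbrev mu : Measure ℝ := volume.restrict (Set.Icc (0:ℝ) 1)

instance : IsProbabilityMeasure mu := ⟨by simp [mu]⟩

noncomputable def cl (x : ℝ) : ℝ := max 0 (min x 1)

lemma cl_nonneg (x : ℝ) : 0 ≤ cl x := le_max_left _ _
lemma cl_le_one (x : ℝ) : cl x ≤ 1 := max_le zero_le_one (min_le_right _ _)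
lemma cl_mem (x : ℝ) : cl x ∈ Icc (0:ℝ) 1 := ⟨cl_nonneg x, cl_le_one x⟩
lemma cl_of_mem {x : ℝ} (h : x ∈ Icc (0:ℝ) 1) : cl x = x := by
  unfold cl; rw [min_eq_left h.2, max_eq_right h.1]
lemma continuous_cl : Continuous cl := by unfold cl; fun_prop
@[fun_prop] lemma measurable_cl : Measurable cl := continuous_cl.measurable
lemma abs_cl_sub_le (x y : ℝ) : |cl x - cl y| ≤ |x - y| := by
  unfold cl
  refine (abs_max_sub_max_le_max _ _ _ _).trans ?_
  refine max_le (by simp) ?_
  refine (abs_min_sub_min_le_max _ _ _ _).trans ?_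
  simp

noncomputable def rho (x y : ℝ) : ℝ := |cl x - cl y|

lemma rho_nonneg (x y : ℝ) : 0 ≤ rho x y := abs_nonneg _
lemma rho_le_one (x y : ℝ) : rho x y ≤ 1 := by
  unfold rho
  have := cl_nonneg x; have := cl_nonneg y; have := cl_le_one x; have := cl_le_one y
  rw [abs_le]; constructor <;> linarith
lemma rho_self (x : ℝ) : rho x x = 0 := by simp [rho]
lemma rho_comm (x y : ℝ) : rho x y = rho y x := abs_sub_comm _ _
lemma rho_triangle (x y z : ℝ) : rho x z ≤ rho x y + rho y z := abs_sub_le _ _ _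
lemma rho_le_abs (x y : ℝ) : rho x y ≤ |x - y| := abs_cl_sub_le x y
lemma rho_of_mem {x y : ℝ} (hx : x ∈ Icc (0:ℝ) 1) (hy : y ∈ Icc (0:ℝ) 1) : rho x y = |x - y| := by
  unfold rho; rw [cl_of_mem hx, cl_of_mem hy]

lemma ae_mem_Icc : ∀ᵐ x ∂mu, x ∈ Icc (0:ℝ) 1 := ae_restrict_mem measurableSet_Icc

section General

variable {Z : Type*} [MeasurableSpace Z] {ζ : Measure Z}

@[fun_prop] lemma measurable_rho {p q : Z → ℝ} (hp : Measurable p) (hq : Measurable q) :
    Measurable fun z => rho (p z) (q z) := by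
  unfold rho; fun_prop

lemma integrable_of_bdd [IsFiniteMeasure ζ] {f : Z → ℝ} (hf : Measurable f) (C : ℝ)
    (h : ∀ z, |f z| ≤ C) : Integrable f ζ :=
  Integrable.of_bound hf.aestronglyMeasurable C (Eventually.of_forall h)

lemma integrable_rho [IsFiniteMeasure ζ] {p q : Z → ℝ} (hp : Measurable p) (hq : Measurable q) :
    Integrable (fun z => rho (p z) (q z)) ζ :=
  integrable_of_bdd (measurable_rho hp hq) 1 fun z => by
    rw [abs_of_nonneg (rho_nonneg _ _)]; exact rho_le_one _ _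

/-- The mean distance of two real valued maps. -/
noncomputable def D (ζ : Measure Z) (p q : Z → ℝ) : ℝ := ∫ z, rho (p z) (q z) ∂ζ

lemma D_nonneg (p q : Z → ℝ) : 0 ≤ D ζ p q := integral_nonneg fun _ => rho_nonneg _ _
lemma D_self (p : Z → ℝ) : D ζ p p = 0 := by simp [D, rho_self]
lemma D_comm (p q : Z → ℝ) : D ζ p q = D ζ q p := by simp only [D, rho_comm]
lemma D_triangle [IsFiniteMeasure ζ] {p q r : Z → ℝ} (hp : Measurable p) (hq : Measurable q)
    (hr : Measurable r) : D ζ p r ≤ D ζ p q + D ζ q r := by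
  unfold D
  rw [← integral_add (integrable_rho hp hq) (integrable_rho hq hr)]
  exact integral_mono (integrable_rho hp hr) ((integrable_rho hp hq).add (integrable_rho hq hr))
    fun z => rho_triangle _ _ _
lemma D_le_one [IsProbabilityMeasure ζ] {p q : Z → ℝ} (hp : Measurable p) (hq : Measurable q) :
    D ζ p q ≤ 1 := by
  unfold D
  calc ∫ z, rho (p z) (q z) ∂ζ ≤ ∫ _z, (1:ℝ) ∂ζ :=
        integral_mono (integrable_rho hp hq) (integrable_const _) fun z => rho_le_one _ _
    _ = 1 := by simp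

lemma D_comp {Z' : Type*} [MeasurableSpace Z'] {ζ' : Measure Z'} {e : Z' → Z}
    (he : MeasurePreserving e ζ' ζ) {p q : Z → ℝ} (hp : Measurable p) (hq : Measurable q) :
    D ζ' (fun z => p (e z)) (fun z => q (e z)) = D ζ p q := by
  unfold D
  rw [← he.map_eq, integral_map he.measurable.aemeasurable
    (measurable_rho hp hq).aestronglyMeasurable]

lemma D_congr {p q p' q' : Z → ℝ} (hp : p =ᵐ[ζ] p') (hq : q =ᵐ[ζ] q') : D ζ p q = D ζ p' q' := by
  unfold D
  refine integral_congr_ae ?_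
  filter_upwards [hp, hq] with z h1 h2
  rw [h1, h2]

lemma integral_comp_mp {Z' : Type*} [MeasurableSpace Z'] {ζ' : Measure Z'} {e : Z' → Z}
    (he : MeasurePreserving e ζ' ζ) {f : Z → ℝ} (hf : AEStronglyMeasurable f ζ) :
    ∫ z, f (e z) ∂ζ' = ∫ z, f z ∂ζ := by
  rw [← he.map_eq, integral_map he.measurable.aemeasurable (by rwa [he.map_eq])]

lemma ae_mem_of_mp {p : Z → ℝ} (hp : MeasurePreserving p ζ mu) :
    ∀ᵐ z ∂ζ, p z ∈ Icc (0:ℝ) 1 := hp.quasiMeasurePreserving.ae ae_mem_Icc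

lemma ae_eq_of_D_eq_zero [IsFiniteMeasure ζ] {p q : Z → ℝ} (hp : MeasurePreserving p ζ mu)
    (hq : MeasurePreserving q ζ mu) (h : D ζ p q = 0) : p =ᵐ[ζ] q := by
  unfold D at h
  rw [integral_eq_zero_iff_of_nonneg (fun z => rho_nonneg _ _)
    (integrable_rho hp.measurable hq.measurable)] at h
  filter_upwards [h, ae_mem_of_mp hp, ae_mem_of_mp hq] with z h1 h2 h3
  simp only [Pi.zero_apply] at h1
  rw [rho_of_mem h2 h3, abs_eq_zero, sub_eq_zero] at h1
  exact h1

end General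

/-- Composition with an integrable function is uniformly continuous on measure preserving maps. -/
lemma comp_estimate {f : ℝ → ℝ} (hf : Integrable f mu) {ε : ℝ} (hε : 0 < ε) :
    ∃ C : ℝ, 0 < C ∧ ∀ (Z : Type) [MeasurableSpace Z] (ζ : Measure Z) (p q : Z → ℝ),
      MeasurePreserving p ζ mu → MeasurePreserving q ζ mu →
      ∫ z, |f (p z) - f (q z)| ∂ζ ≤ ε + C * D ζ p q := by
  obtain ⟨g, hg, hgi⟩ := hf.exists_boundedContinuous_integral_sub_le (ε := ε / 3) (by positivity)
  have huc : UniformContinuousOn g (Icc (0:ℝ) 1) :=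
    isCompact_Icc.uniformContinuousOn_of_continuous g.continuous.continuousOn
  obtain ⟨δ, hδ, hδ'⟩ := Metric.uniformContinuousOn_iff.1 huc (ε / 3) (by positivity)
  refine ⟨(2 * ‖g‖ + 1) / δ, by positivity, ?_⟩
  intro Z _ ζ p q hp hq
  have hζ : IsProbabilityMeasure ζ := by
    refine ⟨?_⟩
    have := hp.measure_preimage (s := univ) MeasurableSet.univ.nullMeasurableSet
    simpa using this
  have key : ∀ a ∈ Icc (0:ℝ) 1, ∀ b ∈ Icc (0:ℝ) 1,
      |g a - g b| ≤ ε / 3 + (2 * ‖g‖ + 1) / δ * rho a b := by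
    intro a ha b hb
    rw [rho_of_mem ha hb]
    by_cases h : |a - b| < δ
    · have := hδ' a ha b hb (by rwa [Real.dist_eq])
      rw [Real.dist_eq] at this
      have h2 : 0 ≤ (2 * ‖g‖ + 1) / δ * |a - b| := by positivity
      linarith
    · push Not at h
      have h1 : |g a| ≤ ‖g‖ := g.norm_coe_le_norm a
      have h2 : |g b| ≤ ‖g‖ := g.norm_coe_le_norm b
      have h3 : |g a - g b| ≤ |g a| + |g b| := abs_sub _ _
      have h4 : (2 * ‖g‖ + 1) / δ * δ ≤ (2 * ‖g‖ + 1) / δ * |a - b| := by gcongr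
      rw [div_mul_cancel₀ _ hδ.ne'] at h4
      linarith
  have hfg : Integrable (fun x => |f x - g x|) mu := (hf.sub hgi).abs
  have i1 : Integrable (fun z => |f (p z) - g (p z)|) ζ := hp.integrable_comp_of_integrable hfg
  have i2 : Integrable (fun z => |f (q z) - g (q z)|) ζ := hq.integrable_comp_of_integrable hfg
  have e1 : ∫ z, |f (p z) - g (p z)| ∂ζ ≤ ε / 3 := by
    rw [integral_comp_mp hp (f := fun x => |f x - g x|) hfg.aestronglyMeasurable]
    simpa using hg
  have e2 : ∫ z, |f (q z) - g (q z)| ∂ζ ≤ ε / 3 := by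
    rw [integral_comp_mp hq (f := fun x => |f x - g x|) hfg.aestronglyMeasurable]
    simpa using hg
  have i3 : Integrable (fun z => ε / 3 + (2 * ‖g‖ + 1) / δ * rho (p z) (q z)) ζ :=
    (integrable_const _).add ((integrable_rho hp.measurable hq.measurable).const_mul _)
  have i0 : Integrable (fun z => |f (p z) - f (q z)|) ζ :=
    ((hp.integrable_comp_of_integrable hf).sub (hq.integrable_comp_of_integrable hf)).abs
  calc ∫ z, |f (p z) - f (q z)| ∂ζ
      ≤ ∫ z, (|f (p z) - g (p z)| + |f (q z) - g (q z)| +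
          (ε / 3 + (2 * ‖g‖ + 1) / δ * rho (p z) (q z))) ∂ζ := by
        refine integral_mono_ae i0 ((i1.add i2).add i3) ?_
        filter_upwards [ae_mem_of_mp hp, ae_mem_of_mp hq] with z h1 h2
        have := key _ h1 _ h2
        have t1 : |f (p z) - f (q z)| ≤ |f (p z) - g (p z)| + |g (p z) - f (q z)| :=
          abs_sub_le _ _ _
        have t2 : |g (p z) - f (q z)| ≤ |g (p z) - g (q z)| + |g (q z) - f (q z)| :=
          abs_sub_le _ _ _
        rw [abs_sub_comm (g (q z))] at t2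
        linarith
    _ = ∫ z, |f (p z) - g (p z)| ∂ζ + ∫ z, |f (q z) - g (q z)| ∂ζ +
          (ε / 3 + (2 * ‖g‖ + 1) / δ * D ζ p q) := by
        have i12 : Integrable (fun z => |f (p z) - g (p z)| + |f (q z) - g (q z)|) ζ := i1.add i2
        rw [integral_add i12 i3, integral_add i1 i2,
          integral_add (integrable_const _) ((integrable_rho hp.measurable hq.measurable).const_mul _),
          integral_const_mul]
        simp [D]
    _ ≤ ε + (2 * ‖g‖ + 1) / δ * D ζ p q := by linarith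

lemma D_comp_estimate {f : ℝ → ℝ} (hf : Measurable f) {ε : ℝ} (hε : 0 < ε) :
    ∃ C : ℝ, 0 < C ∧ ∀ (Z : Type) [MeasurableSpace Z] (ζ : Measure Z) (p q : Z → ℝ),
      MeasurePreserving p ζ mu → MeasurePreserving q ζ mu →
      D ζ (fun z => f (p z)) (fun z => f (q z)) ≤ ε + C * D ζ p q := by
  have hi : Integrable (fun x => cl (f x)) mu :=
    integrable_of_bdd (measurable_cl.comp hf) 1 fun x => by
      rw [abs_of_nonneg (cl_nonneg _)]; exact cl_le_one _
  obtain ⟨C, hC, h⟩ := comp_estimate hi hε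
  exact ⟨C, hC, fun Z _ ζ p q hp hq => h Z ζ p q hp hq⟩

lemma D_comp_small {f : ℝ → ℝ} (hf : Measurable f) {ε : ℝ} (hε : 0 < ε) :
    ∃ δ : ℝ, 0 < δ ∧ ∀ (Z : Type) [MeasurableSpace Z] (ζ : Measure Z) (p q : Z → ℝ),
      MeasurePreserving p ζ mu → MeasurePreserving q ζ mu → D ζ p q ≤ δ →
      D ζ (fun z => f (p z)) (fun z => f (q z)) < ε := by
  obtain ⟨C, hC, h⟩ := D_comp_estimate hf (ε := ε / 3) (by positivity)
  refine ⟨ε / 3 / C, by positivity, fun Z _ ζ p q hp hq hd => ?_⟩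
  have h1 := h Z ζ p q hp hq
  have h2 : C * D ζ p q ≤ C * (ε / 3 / C) := by gcongr
  rw [mul_div_cancel₀ _ hC.ne'] at h2
  linarith

/-- The group of measure preserving permutations with measure preserving inverse. -/
def MP {Z : Type*} [MeasurableSpace Z] (ζ : Measure Z) : Subgroup (Equiv.Perm Z) where
  carrier := {e | MeasurePreserving e ζ ζ ∧ MeasurePreserving (e⁻¹ : Equiv.Perm Z) ζ ζ}
  mul_mem' := by
    rintro a b ⟨ha, ha'⟩ ⟨hb, hb'⟩
    refine ⟨ha.comp hb, ?_⟩
    rw [mul_inv_rev]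
    exact hb'.comp ha'
  one_mem' := ⟨MeasurePreserving.id ζ, by rw [inv_one]; exact MeasurePreserving.id ζ⟩
  inv_mem' := by
    rintro a ⟨ha, ha'⟩
    exact ⟨ha', by rw [inv_inv]; exact ha⟩

section MPfacts
variable {Z : Type*} [MeasurableSpace Z] {ζ : Measure Z}

lemma MP.mp (T : MP ζ) : MeasurePreserving (T.1 : Z → Z) ζ ζ := T.2.1
lemma MP.meas (T : MP ζ) : Measurable (T.1 : Z → Z) := T.2.1.measurable
lemma MP.mul_apply (S T : MP ζ) (x : Z) : (S * T).1 x = S.1 (T.1 x) := rfl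
lemma MP.one_apply (x : Z) : (1 : MP ζ).1 x = x := rfl
lemma MP.inv_apply_self (T : MP ζ) (x : Z) : (T⁻¹).1 (T.1 x) = x := T.1.symm_apply_apply x
lemma MP.apply_inv_self (T : MP ζ) (x : Z) : T.1 ((T⁻¹).1 x) = x := T.1.apply_symm_apply x

end MPfacts

/-- The automorphism group of the unit interval. -/
abbrev G : Type := ↥(MP mu)

noncomputable def d1 (S T : G) : ℝ := D mu S.1 T.1

lemma d1_nonneg (S T : G) : 0 ≤ d1 S T := D_nonneg _ _
lemma d1_self (S : G) : d1 S S = 0 := D_self _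
lemma d1_comm (S T : G) : d1 S T = d1 T S := D_comm _ _
lemma d1_triangle (S T U : G) : d1 S U ≤ d1 S T + d1 T U :=
  D_triangle (MP.meas S) (MP.meas T) (MP.meas U)
lemma d1_le_one (S T : G) : d1 S T ≤ 1 := D_le_one (MP.meas S) (MP.meas T)
lemma d1_mul_right (S T U : G) : d1 (S * U) (T * U) = d1 S T :=
  D_comp (MP.mp U) (MP.meas S) (MP.meas T)

lemma d1_mul_left_small (S : G) {ε : ℝ} (hε : 0 < ε) :
    ∃ δ : ℝ, 0 < δ ∧ ∀ T U : G, d1 T U ≤ δ → d1 (S * T) (S * U) < ε := by
  obtain ⟨δ, hδ, h⟩ := D_comp_small (MP.meas S) hε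
  exact ⟨δ, hδ, fun T U hTU => h ℝ mu T.1 U.1 (MP.mp T) (MP.mp U) hTU⟩

noncomputable instance : PseudoMetricSpace G where
  dist S T := d1 S T + d1 S⁻¹ T⁻¹
  dist_self S := by simp [d1_self]
  dist_comm S T := by rw [d1_comm S T, d1_comm S⁻¹ T⁻¹]
  dist_triangle S T U := by
    have := d1_triangle S T U
    have := d1_triangle S⁻¹ T⁻¹ U⁻¹
    linarith

lemma dist_def (S T : G) : dist S T = d1 S T + d1 S⁻¹ T⁻¹ := rfl

lemma d1_le_dist (S T : G) : d1 S T ≤ dist S T := by
  rw [dist_def]; linarith [d1_nonneg S⁻¹ T⁻¹]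

lemma dist_inv_inv' (S T : G) : dist S⁻¹ T⁻¹ = dist S T := by
  rw [dist_def, dist_def, inv_inv, inv_inv, add_comm]

lemma dist_small_of_d1 (T : G) {ε : ℝ} (hε : 0 < ε) :
    ∃ δ : ℝ, 0 < δ ∧ ∀ S : G, d1 S T ≤ δ → dist S T < ε := by
  obtain ⟨δ, hδ, h⟩ := d1_mul_left_small T⁻¹ (ε := ε / 2) (by positivity)
  refine ⟨min δ (ε / 4), by positivity, fun S hS => ?_⟩
  have h1 := h S T (hS.trans (min_le_left _ _))
  have h2 : d1 S⁻¹ T⁻¹ = d1 (T⁻¹ * S) (T⁻¹ * T) := by
    rw [← d1_mul_right S⁻¹ T⁻¹ S, d1_comm]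
    simp
  have h3 := hS.trans (min_le_right _ _)
  rw [dist_def]
  linarith

lemma tendsto_iff_d1 {ι : Type*} {l : Filter ι} {u : ι → G} {T : G} :
    Tendsto u l (𝓝 T) ↔ Tendsto (fun i => d1 (u i) T) l (𝓝 0) := by
  constructor
  · intro h
    rw [tendsto_iff_dist_tendsto_zero] at h
    exact squeeze_zero (fun i => d1_nonneg _ _) (fun i => d1_le_dist _ _) h
  · intro h
    rw [Metric.tendsto_nhds]
    intro ε hε
    obtain ⟨δ, hδ, h'⟩ := dist_small_of_d1 T hε
    filter_upwards [h.eventually (ge_mem_nhds hδ)] with i hi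
    exact h' _ hi

lemma continuous_d1 : Continuous fun p : G × G => d1 p.1 p.2 := by
  rw [continuous_iff_continuousAt]
  rintro ⟨S, T⟩
  rw [ContinuousAt, Metric.tendsto_nhds]
  intro ε hε
  have h1 : ∀ᶠ p : G × G in 𝓝 (S, T), dist p (S, T) < ε / 2 :=
    Metric.ball_mem_nhds _ (by positivity)
  filter_upwards [h1] with p hp
  rw [Prod.dist_eq, max_lt_iff] at hp
  have a1 := d1_le_dist p.1 S
  have a2 := d1_le_dist p.2 T
  have t1 := d1_triangle p.1 S p.2
  have t2 := d1_triangle S T p.2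
  have t3 := d1_triangle S p.1 T
  have t4 := d1_triangle p.1 p.2 T
  rw [d1_comm T p.2] at t2
  rw [d1_comm S p.1] at t3
  rw [Real.dist_eq, abs_lt]
  simp only at hp ⊢
  constructor <;> linarith [hp.1, hp.2]

@[fun_prop] lemma Continuous.d1' {X : Type*} [TopologicalSpace X] {f g : X → G}
    (hf : Continuous f) (hg : Continuous g) : Continuous fun x => d1 (f x) (g x) :=
  continuous_d1.comp (hf.prodMk hg)

instance : IsTopologicalGroup G where
  continuous_mul := by
    rw [continuous_iff_continuousAt]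
    rintro ⟨S, T⟩
    rw [ContinuousAt, tendsto_iff_d1, Metric.tendsto_nhds]
    intro ε hε
    obtain ⟨δ, hδ, h⟩ := d1_mul_left_small S (ε := ε / 2) (by positivity)
    have h1 : ∀ᶠ p : G × G in 𝓝 (S, T), dist p (S, T) < min δ (ε / 2) :=
      Metric.ball_mem_nhds _ (by positivity)
    filter_upwards [h1] with p hp
    rw [Prod.dist_eq, max_lt_iff, lt_min_iff, lt_min_iff] at hp
    have a1 := d1_le_dist p.1 S
    have a2 := d1_le_dist p.2 T
    have t1 := d1_triangle (p.1 * p.2) (S * p.2) (S * T)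
    rw [d1_mul_right] at t1
    have := h p.2 T (by linarith [hp.2.1])
    rw [Real.dist_eq, sub_zero, abs_of_nonneg (d1_nonneg _ _)]
    simp only at hp ⊢
    linarith [hp.1.2]
  continuous_inv := by
    have : Isometry (fun S : G => S⁻¹) := Isometry.of_dist_eq dist_inv_inv'
    exact this.continuous

end Pool.Agent.H844Z
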