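import Pool.Agent.H844Z.Top

set_option autoImplicit false
open MeasureTheory Set Filter Topology ProbabilityTheory

namespace Pool.Agent.H844Z

/-- The map `f` is uniformly continuous, with modulus `δ`, through a monotone gauge. -/
def Gauge (δ : ℝ → ℝ) (f : ℝ → ℝ) : Prop :=
  ∃ q : ℝ → ℝ, Monotone q ∧ (∀ y, q y ∈ Icc (0:ℝ) 1) ∧ ∃ E : Set ℝ, (∀ᵐ y ∂mu, y ∈ E) ∧
    ∀ ε > 0, ∀ y ∈ E, ∀ y' ∈ E, |q y - q y'| < δ ε → rho (f y) (f y') ≤ ε

lemma integral_osc {q : ℝ → ℝ} (hq : Monotone q) (hq1 : ∀ y, q y ∈ Icc (0:ℝ) 1) {h : ℝ}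
    (hh : 0 ≤ h) : ∫ y, (q (y + h) - q (y - h)) ∂mu ≤ 2 * h := by
  have m1 : Monotone fun y => q (y + h) := fun a b hab => hq (by linarith)
  have m2 : Monotone fun y => q (y - h) := fun a b hab => hq (by linarith)
  have e1 : ∫ y, (q (y + h) - q (y - h)) ∂mu = ∫ y in (0:ℝ)..1, (q (y + h) - q (y - h)) := by
    rw [intervalIntegral.integral_of_le zero_le_one, integral_Icc_eq_integral_Ioc]
  rw [e1, intervalIntegral.integral_sub m1.intervalIntegrable m2.intervalIntegrable,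
    intervalIntegral.integral_comp_add_right, intervalIntegral.integral_comp_sub_right,
    intervalIntegral.integral_interval_sub_interval_comm' hq.intervalIntegrable
      hq.intervalIntegrable hq.intervalIntegrable]
  have a1 : ∫ y in (1 - h)..(1 + h), q y ≤ ∫ _y in (1 - h)..(1 + h), (1:ℝ) :=
    intervalIntegral.integral_mono_on (by linarith) hq.intervalIntegrable (by simp)
      fun x _ => (hq1 x).2
  have a2 : 0 ≤ ∫ y in (0 - h)..(0 + h), q y :=
    intervalIntegral.integral_nonneg (by linarith) fun x _ => (hq1 x).1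
  simp only [intervalIntegral.integral_const, smul_eq_mul, mul_one] at a1
  linarith

lemma gauge_approx {δ : ℝ → ℝ} {ε : ℝ} (hε : 0 < ε) (hδ : 0 < δ ε) {m : ℕ} (hm : 0 < m)
    {f : ℝ → ℝ} (hf : Gauge δ f) :
    ∃ c : Fin (m + 1) → Fin (m + 1), ∃ v : ℕ → ℝ, (∀ i : Fin (m + 1), cell m (v i) = c i) ∧
      ∃ w : ℝ → ℝ, Integrable w mu ∧ ∫ y, w y ∂mu ≤ 2 / m / δ ε ∧
        ∀ᵐ y ∂mu, rho (f y) (v (cell m y)) ≤ ε + w y := by
  classical
  obtain ⟨q, hq, hq1, E, hE, hfE⟩ := hf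
  let pt : ℕ → ℝ := fun i => if h : ∃ y ∈ E, y ∈ Icc (0:ℝ) 1 ∧ cell m y = i then h.choose else 0
  refine ⟨fun i => ⟨cell m (f (pt i)), Nat.lt_succ_of_le (cell_le _ _)⟩, fun i => f (pt i),
    fun i => rfl, fun y => (q (y + 1 / m) - q (y - 1 / m)) / δ ε, ?_, ?_, ?_⟩
  · refine Integrable.div_const (integrable_of_bdd ?_ 1 fun y => ?_) _
    · exact (hq.measurable.comp (measurable_add_const _)).sub
        (hq.measurable.comp (measurable_sub_const _))
    · have := hq1 (y + 1 / m); have := hq1 (y - 1 / m)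
      rw [abs_le]; constructor <;> linarith [(hq1 (y + 1 / m)).1, (hq1 (y + 1 / m)).2,
        (hq1 (y - 1 / m)).1, (hq1 (y - 1 / m)).2]
  · rw [integral_div]
    have := integral_osc hq hq1 (h := 1 / m) (by positivity)
    have e : (2:ℝ) / m = 2 * (1 / m) := by ring
    rw [e]
    gcongr
  · filter_upwards [hE, ae_mem_Icc] with y hy hy1
    have hex : ∃ y' ∈ E, y' ∈ Icc (0:ℝ) 1 ∧ cell m y' = cell m y := ⟨y, hy, hy1, rfl⟩
    have hp : pt (cell m y) = hex.choose := dif_pos hex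
    obtain ⟨s1, s2, s3⟩ := hex.choose_spec
    rw [← hp] at s1 s2 s3
    have h1 := rho_le_of_cell_eq hm s3
    rw [rho_of_mem s2 hy1, abs_le] at h1
    have hmono : 0 ≤ q (y + 1 / m) - q (y - 1 / m) := by
      have : (0:ℝ) ≤ 1 / m := by positivity
      exact sub_nonneg.2 (hq (by linarith))
    by_cases hw : q (y + 1 / m) - q (y - 1 / m) < δ ε
    · have b1 : q (pt (cell m y)) ≤ q (y + 1 / m) := hq (by linarith [h1.2])
      have b2 : q (y - 1 / m) ≤ q (pt (cell m y)) := hq (by linarith [h1.1])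
      have : (0:ℝ) ≤ 1 / m := by positivity
      have b3 : q y ≤ q (y + 1 / m) := hq (by linarith)
      have b4 : q (y - 1 / m) ≤ q y := hq (by linarith)
      have := hfE ε hε y hy _ s1 (by rw [abs_lt]; constructor <;> linarith)
      have h0 : 0 ≤ (q (y + 1 / m) - q (y - 1 / m)) / δ ε := div_nonneg hmono hδ.le
      linarith
    · push Not at hw
      have : 1 ≤ (q (y + 1 / m) - q (y - 1 / m)) / δ ε := by rwa [le_div_iff₀ hδ, one_mul]
      have := rho_le_one (f y) (f (pt (cell m y)))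
      linarith

lemma gauge_discretize {δ : ℝ → ℝ} (hδ : ∀ ε > 0, 0 < δ ε) {ε : ℝ} (hε : 0 < ε) :
    ∃ m : ℕ, ∃ F : (ℝ → ℝ) → (Fin (m + 1) → Fin (m + 1)), ∀ f g : ℝ → ℝ, Measurable f →
      Measurable g → Gauge δ f → Gauge δ g → F f = F g → D mu f g < ε := by
  classical
  have hδ' := hδ (ε / 4) (by positivity)
  obtain ⟨m, hm⟩ := exists_nat_gt ((1 + 4 / δ (ε / 4)) / (ε / 4))
  have hm0 : (0:ℝ) < m := lt_trans (by positivity) hm
  have hm1 : 0 < m := by exact_mod_cast hm0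
  refine ⟨m, fun f => if h : Gauge δ f then
    (gauge_approx (ε := ε / 4) (by positivity) hδ' hm1 h).choose else fun i => i, ?_⟩
  intro f g mf mg hf hg hfg
  simp only [dif_pos hf, dif_pos hg] at hfg
  obtain ⟨v, hv, w, hw1, hw2, hw3⟩ :=
    (gauge_approx (ε := ε / 4) (by positivity) hδ' hm1 hf).choose_spec
  obtain ⟨v', hv', w', hw1', hw2', hw3'⟩ :=
    (gauge_approx (ε := ε / 4) (by positivity) hδ' hm1 hg).choose_spec
  rw [hfg] at hv
  have hb : D mu f g ≤ ∫ y, (ε / 2 + 1 / m + (w y + w' y)) ∂mu := by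
    refine integral_mono_ae (integrable_rho mf mg) ((integrable_const _).add (hw1.add hw1')) ?_
    filter_upwards [hw3, hw3'] with y h1 h2
    have h3 : cell m (v (cell m y)) = cell m (v' (cell m y)) := by
      have a := hv ⟨cell m y, Nat.lt_succ_of_le (cell_le _ _)⟩
      have b := hv' ⟨cell m y, Nat.lt_succ_of_le (cell_le _ _)⟩
      exact a.trans b.symm
    have h4 := rho_le_of_cell_eq hm1 h3
    have t1 := rho_triangle (f y) (v (cell m y)) (g y)
    have t2 := rho_triangle (v (cell m y)) (v' (cell m y)) (g y)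
    rw [rho_comm (v' (cell m y))] at t2
    linarith
  have hww : Integrable (fun y => w y + w' y) mu := hw1.add hw1'
  rw [integral_add (integrable_const _) hww, integral_add hw1 hw1'] at hb
  simp only [integral_const, probReal_univ, smul_eq_mul, one_mul] at hb
  have h5 : 1 / (m:ℝ) + 2 * (2 / m / δ (ε / 4)) < ε / 4 := by
    have : 1 / (m:ℝ) + 2 * (2 / m / δ (ε / 4)) = (1 + 4 / δ (ε / 4)) / m := by
      field_simp; ring
    rw [this, div_lt_iff₀ hm0]
    rw [div_lt_iff₀ (by positivity)] at hm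
    linarith
  linarith

lemma totallyBounded_gauge {δ : ℝ → ℝ} (hδ : ∀ ε > 0, 0 < δ ε) :
    TotallyBounded {S : G | Gauge δ S.1 ∧ Gauge δ (S⁻¹).1} := by
  refine Metric.totallyBounded_of_finite_discretization fun ε hε => ?_
  obtain ⟨m, F, hF⟩ := gauge_discretize hδ (ε := ε / 2) (by positivity)
  refine ⟨(Fin (m + 1) → Fin (m + 1)) × (Fin (m + 1) → Fin (m + 1)), inferInstance,
    fun S => (F S.1.1, F (S.1⁻¹).1), fun S T h => ?_⟩
  rw [Prod.mk.injEq] at h
  have h1 := hF _ _ (MP.meas S.1) (MP.meas T.1) S.2.1 T.2.1 h.1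
  have h2 := hF _ _ (MP.meas S.1⁻¹) (MP.meas T.1⁻¹) S.2.2 T.2.2 h.2
  rw [dist_def]
  unfold d1
  linarith

lemma modulus_of_injective {Ω : Type*} [TopologicalSpace Ω] [CompactSpace Ω] {h u : Ω → ℝ}
    (hh : Continuous h) (hi : Function.Injective h) (hu : Continuous u) {ε : ℝ} (hε : 0 < ε) :
    ∃ δ > 0, ∀ a b, |h a - h b| < δ → |u a - u b| < ε := by
  let C : Set (Ω × Ω) := {p | ε ≤ |u p.1 - u p.2|}
  have hC : IsCompact C := (isClosed_le continuous_const (by fun_prop)).isCompact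
  rcases C.eq_empty_or_nonempty with h0 | hne
  · refine ⟨1, one_pos, fun a b _ => ?_⟩
    by_contra hc
    push Not at hc
    have : (a, b) ∈ C := hc
    rw [h0] at this
    exact this
  · obtain ⟨p, hp, hmin⟩ := hC.exists_isMinOn hne
      (f := fun p : Ω × Ω => |h p.1 - h p.2|) (by fun_prop)
    refine ⟨|h p.1 - h p.2|, ?_, fun a b hab => ?_⟩
    · rw [gt_iff_lt, abs_pos, sub_ne_zero]
      intro he
      have h1 : ε ≤ |u p.1 - u p.2| := hp
      rw [hi he, sub_self, abs_zero] at h1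
      linarith
    · by_contra hc
      push Not at hc
      have := hmin (show (a, b) ∈ C from hc)
      exact absurd hab (not_lt.2 this)

lemma small_balls (β : Measure ℝ) [IsFiniteMeasure β] [NullSingletonClass β] {ε : ℝ}
    (hε : 0 < ε) : ∃ δ > 0, ∀ t ∈ Icc (0:ℝ) 1, β.real (Metric.ball t δ) ≤ ε := by
  have h1 : ∀ t : ℝ, ∃ U : Set ℝ, t ∈ U ∧ IsOpen U ∧ β U < ENNReal.ofReal ε := by
    intro t
    obtain ⟨U, hU, hUo, hUm⟩ := Set.exists_isOpen_lt_of_lt ({t} : Set ℝ) (μ := β)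
      (ENNReal.ofReal ε) (by rw [measure_singleton]; simpa using hε)
    exact ⟨U, hU rfl, hUo, hUm⟩
  choose U hU1 hU2 hU3 using h1
  obtain ⟨δ, hδ, h⟩ := lebesgue_number_lemma_of_metric (s := Icc (0:ℝ) 1) isCompact_Icc hU2
    (fun t _ => mem_iUnion.2 ⟨t, hU1 t⟩)
  refine ⟨δ, hδ, fun t ht => ?_⟩
  obtain ⟨i, hi⟩ := h t ht
  exact ENNReal.toReal_le_of_le_ofReal hε.le ((measure_mono hi).trans (hU3 i).le)

/-- Every automorphism is conjugate to one with a fixed gauge modulus. -/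
theorem exists_gauge : ∃ δ : ℝ → ℝ, (∀ ε > 0, 0 < δ ε) ∧ ∀ T : G, ∃ R : G,
    Gauge δ (R * T * R⁻¹).1 ∧ Gauge δ (R * T⁻¹ * R⁻¹).1 := by
  classical
  have hR : ¬ Countable ℝ := by rw [not_countable_iff]; infer_instance
  let b : ℝ ≃ᵐ (ℕ → Bool) := PolishSpace.measurableEquivNatBoolOfNotCountable hR
  obtain ⟨f₀, hf₀r, hf₀c, hf₀i⟩ := (isClosed_Icc (a := (0:ℝ)) (b := 1)
    ).exists_nat_bool_injection_of_not_countable (by
      intro hc
      have := hc.measure_zero volume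
      simp at this)
  obtain ⟨en⟩ : Nonempty (ℕ ≃ ℤ × ℕ) := ⟨(Denumerable.eqv (ℤ × ℕ)).symm⟩
  let h : (ℤ × ℕ → Bool) → ℝ := fun ω => f₀ (fun k => ω (en k))
  have hc : Continuous h := hf₀c.comp (by fun_prop)
  have hi : Function.Injective h := by
    intro a c hac
    have := hf₀i hac
    funext p
    have := congrFun this (en.symm p)
    simpa using this
  let sh : ℤ → (ℤ × ℕ → Bool) → (ℤ × ℕ → Bool) := fun k ω p => ω (p.1 + k, p.2)
  have hsh : ∀ k, Continuous (sh k) := fun k => by fun_prop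
  let p0 : (ℤ × ℕ → Bool) → ℝ := fun ω => f₀ (fun i => ω (0, i))
  have hp0 : Continuous p0 := hf₀c.comp (by fun_prop)
  let c : ℝ → ℝ := fun x => f₀ (b x)
  have hcm : Measurable c := hf₀c.measurable.comp b.measurable
  have hci : Function.Injective c := hf₀i.comp b.injective
  have : NullSingletonClass (mu.map c) := by
    refine ⟨fun x => ?_⟩
    rw [Measure.map_apply hcm (measurableSet_singleton x)]
    exact (Set.subsingleton_singleton.preimage hci).measure_zero mu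
  have main : ∀ ε : ℝ, ∃ δ : ℝ, 0 < ε → 0 < δ ∧ ∃ δ1 δ0 : ℝ,
      (∀ t ∈ Icc (0:ℝ) 1, (mu.map c).real (Metric.ball t δ0) ≤ ε) ∧
      (∀ a a', |h a - h a'| < δ1 → |p0 a - p0 a'| < δ0) ∧
      (∀ a a', |h a - h a'| < δ → |h (sh 1 a) - h (sh 1 a')| < δ1) ∧
      (∀ a a', |h a - h a'| < δ → |h (sh (-1) a) - h (sh (-1) a')| < δ1) := by
    intro ε
    by_cases hε : 0 < ε
    · obtain ⟨δ0, h0, h0'⟩ := small_balls (mu.map c) hε
      obtain ⟨δ1, h1, h1'⟩ := modulus_of_injective hc hi hp0 h0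
      obtain ⟨δ2, h2, h2'⟩ := modulus_of_injective hc hi (hc.comp (hsh 1)) h1
      obtain ⟨δ3, h3, h3'⟩ := modulus_of_injective hc hi (hc.comp (hsh (-1))) h1
      exact ⟨min δ2 δ3, fun _ => ⟨lt_min h2 h3, δ1, δ0, h0', h1',
        fun a a' haa => h2' a a' (haa.trans_le (min_le_left _ _)),
        fun a a' haa => h3' a a' (haa.trans_le (min_le_right _ _))⟩⟩
    · exact ⟨1, fun h => absurd h hε⟩
  choose δ hδ using main
  refine ⟨δ, fun ε hε => (hδ ε hε).1, fun T => ?_⟩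
  let code : ℝ → (ℤ × ℕ → Bool) := fun x p => b ((T ^ p.1).1 x) p.2
  have hcode : Measurable code := by
    refine measurable_pi_lambda _ fun p => ?_
    exact (measurable_pi_apply p.2).comp (b.measurable.comp (MP.meas (T ^ p.1)))
  have hshc : ∀ (k : ℤ) x, code ((T ^ k).1 x) = sh k (code x) := by
    intro k x
    funext p
    show b ((T ^ p.1).1 ((T ^ k).1 x)) p.2 = b ((T ^ (p.1 + k)).1 x) p.2
    rw [zpow_add]; rfl
  have hp0c : ∀ x, p0 (code x) = c x := by
    intro x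
    show f₀ (fun i => b ((T ^ (0:ℤ)).1 x) i) = f₀ (b x)
    rw [zpow_zero]; rfl
  let j : ℝ → ℝ := fun x => h (code x)
  have hj : Measurable j := hc.measurable.comp hcode
  have hji : Function.Injective j := by
    intro x y hxy
    apply hci
    rw [← hp0c, ← hp0c, hi hxy]
  have hj1 : ∀ x, j x ∈ Icc (0:ℝ) 1 := fun x => hf₀r ⟨_, rfl⟩
  obtain ⟨e, he, he1, he2⟩ := exists_iso_cdf std_mu hj hji
  set ν := mu.map j with hν
  have : IsProbabilityMeasure ν := Measure.isProbabilityMeasure_map hj.aemeasurable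
  have hF : ∀ ε > 0, ∀ δ1 δ0 : ℝ, (∀ t ∈ Icc (0:ℝ) 1, (mu.map c).real (Metric.ball t δ0) ≤ ε) →
      (∀ a a', |h a - h a'| < δ1 → |p0 a - p0 a'| < δ0) →
      ∀ t t', t ≤ t' → t' - t < δ1 → cdf ν t' - cdf ν t ≤ ε := by
    intro ε hε δ1 δ0 h0 h1 t t' htt hlt
    have e1 : cdf ν t' - cdf ν t = ν.real (Ioc t t') := by
      have := (cdf ν).measure_Ioc t t'
      rw [measure_cdf] at this
      rw [measureReal_def, this, ENNReal.toReal_ofReal (sub_nonneg.2 (monotone_cdf ν htt))]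
    rw [e1, hν, map_measureReal_apply hj measurableSet_Ioc]
    rcases (j ⁻¹' Ioc t t').eq_empty_or_nonempty with h2 | ⟨x0, hx0⟩
    · rw [h2]; simpa using hε.le
    · refine le_trans ?_ (h0 (c x0) (hf₀r ⟨_, rfl⟩))
      rw [map_measureReal_apply hcm measurableSet_ball]
      refine measureReal_mono fun x hx => ?_
      rw [mem_preimage, Metric.mem_ball, Real.dist_eq, ← hp0c, ← hp0c]
      refine h1 _ _ ?_
      have a1 : j x ∈ Ioc t t' := hx
      have a2 : j x0 ∈ Ioc t t' := hx0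
      show |j x - j x0| < δ1
      rw [abs_lt]
      constructor <;> linarith [a1.1, a1.2, a2.1, a2.2]
  let q : ℝ → ℝ := fun y => if y ≤ 0 then 0 else if 1 ≤ y then 1 else cl (qt ν y)
  have hq1 : ∀ y, q y ∈ Icc (0:ℝ) 1 := by
    intro y
    simp only [q]
    split_ifs
    · exact ⟨le_rfl, zero_le_one⟩
    · exact ⟨zero_le_one, le_rfl⟩
    · exact cl_mem _
  have hq : Monotone q := by
    intro y y' hyy
    by_cases a1 : y ≤ 0
    · have : q y = 0 := if_pos a1
      rw [this]; exact (hq1 y').1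
    by_cases a2 : 1 ≤ y'
    · have : q y' = 1 := by
        simp only [q]; rw [if_neg (by linarith), if_pos a2]
      rw [this]; exact (hq1 y).2
    push Not at a1 a2
    have b1 : q y = cl (qt ν y) := by
      simp only [q]; rw [if_neg (by linarith), if_neg (by linarith)]
    have b2 : q y' = cl (qt ν y') := by
      simp only [q]; rw [if_neg (by linarith), if_neg (by linarith)]
    rw [b1, b2]
    have := qt_mono ν (y := y) (y' := y') ⟨a1, by linarith⟩ ⟨by linarith, a2⟩ hyy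
    exact max_le_max le_rfl (min_le_min this le_rfl)
  have key : ∀ k : ℤ, (k = 1 ∨ k = -1) →
      Gauge δ (ofEquiv e he * T ^ k * (ofEquiv e he)⁻¹).1 := by
    intro k hk
    refine ⟨q, hq, hq1, {y | y ∈ Ioo (0:ℝ) 1 ∧ j (e.symm y) = qt ν y ∧
      e ((T ^ k).1 (e.symm y)) = cdf ν (j ((T ^ k).1 (e.symm y)))}, ?_, ?_⟩
    · filter_upwards [ae_mem_Ioo, he2,
        ((MP.mp (T ^ k)).comp he.symm).quasiMeasurePreserving.ae he1] with y h1 h2 h3
      exact ⟨h1, h2, h3⟩
    · rintro ε hε y ⟨y1, y2, y3⟩ y' ⟨y1', y2', y3'⟩ hlt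
      obtain ⟨-, δ1, δ0, h0, h1, h2, h3⟩ := hδ ε hε
      have b1 : q y = j (e.symm y) := by
        simp only [q]; rw [if_neg (by linarith [y1.1]), if_neg (by linarith [y1.2]), ← y2,
          cl_of_mem (hj1 _)]
      have b2 : q y' = j (e.symm y') := by
        simp only [q]; rw [if_neg (by linarith [y1'.1]), if_neg (by linarith [y1'.2]), ← y2',
          cl_of_mem (hj1 _)]
      rw [b1, b2] at hlt
      have h4 : |j ((T ^ k).1 (e.symm y)) - j ((T ^ k).1 (e.symm y'))| < δ1 := by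
        show |h (code _) - h (code _)| < δ1
        rw [hshc, hshc]
        rcases hk with rfl | rfl
        · exact h2 _ _ hlt
        · exact h3 _ _ hlt
      show rho (e ((T ^ k).1 (e.symm y))) (e ((T ^ k).1 (e.symm y'))) ≤ ε
      refine (rho_le_abs _ _).trans ?_
      rw [y3, y3']
      rw [abs_lt] at h4
      rcases le_total (j ((T ^ k).1 (e.symm y))) (j ((T ^ k).1 (e.symm y'))) with h5 | h5
      · rw [abs_sub_comm, abs_of_nonneg (sub_nonneg.2 (monotone_cdf ν h5))]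
        exact hF ε hε δ1 δ0 h0 h1 _ _ h5 (by linarith [h4.1])
      · rw [abs_of_nonneg (sub_nonneg.2 (monotone_cdf ν h5))]
        exact hF ε hε δ1 δ0 h0 h1 _ _ h5 (by linarith [h4.2])
  refine ⟨ofEquiv e he, ?_, ?_⟩
  · simpa using key 1 (Or.inl rfl)
  · simpa using key (-1) (Or.inr rfl)

/-- There is a compact set of automorphisms meeting every conjugacy class. -/
theorem exists_compact_transversal :
    ∃ K : Set G, IsCompact K ∧ ∀ T : G, ∃ R : G, R * T * R⁻¹ ∈ K := by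
  obtain ⟨δ, hδ, h⟩ := exists_gauge
  refine ⟨closure {S : G | Gauge δ S.1 ∧ Gauge δ (S⁻¹).1},
    (totallyBounded_gauge hδ).closure.isCompact_of_isClosed isClosed_closure, fun T => ?_⟩
  obtain ⟨R, h1, h2⟩ := h T
  refine ⟨R, subset_closure ⟨h1, ?_⟩⟩
  have : (R * T * R⁻¹)⁻¹ = R * T⁻¹ * R⁻¹ := by group
  rw [this]
  exact h2

end Pool.Agent.H844Z
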