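import Pool.Agent.H844Z.Game

set_option autoImplicit false
open MeasureTheory Set Filter Topology
open scoped Classical

namespace Pool.Agent.H844Z

lemma exists_initial : ∃ T S : G, St T S 1 1 ∧ 0 < d1 S 1 := by
  have hmp : MeasurePreserving (fun x : ℝ => 1 - x) mu mu := by
    have h := (Measure.measurePreserving_sub_left (volume : Measure ℝ) 1).restrict_preimage
      (s := Icc (0:ℝ) 1) measurableSet_Icc
    have e : (fun x : ℝ => 1 - x) ⁻¹' Icc (0:ℝ) 1 = Icc 0 1 := by
      ext x; simp only [mem_preimage, mem_Icc]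
      constructor <;> rintro ⟨h1, h2⟩ <;> constructor <;> linarith
    rwa [e] at h
  have hinv : Function.Involutive (fun x : ℝ => 1 - x) := fun x => by ring
  let T : G := ⟨hinv.toPerm, hmp, hmp⟩
  have h1 : ∀ x, (T ^ (1:ℤ)).1 x = 1 - x := fun x => by rw [zpow_one]; rfl
  have h2 : ∀ x, (T ^ (-1:ℤ)).1 x = 1 - x := fun x => by rw [zpow_neg_one]; rfl
  refine ⟨T, T, ⟨fun x => if x < 1 / 2 then 1 else if 1 / 2 < x then -1 else 0, {1, -1, 0},
    ⟨?_, fun x => ?_, fun x => ?_, fun x => ?_⟩, fun k _ => Eventually.of_forall fun y => ?_⟩, ?_⟩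
  · exact Measurable.ite measurableSet_Iio measurable_const
      (Measurable.ite measurableSet_Ioi measurable_const measurable_const)
  · split_ifs <;> simp
  · by_cases a1 : x < 1 / 2
    · rw [if_pos a1, h1, if_neg (by linarith), if_pos (by linarith)]
    · by_cases a2 : 1 / 2 < x
      · rw [if_neg a1, if_pos a2, h2, if_pos (by linarith)]; rfl
      · rw [if_neg a1, if_neg a2, zpow_zero_apply, if_neg a1, if_neg a2]; rfl
  · by_cases a1 : x < 1 / 2
    · rw [if_pos a1, h1]; rfl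
    · by_cases a2 : 1 / 2 < x
      · rw [if_neg a1, if_pos a2, h2]; rfl
      · rw [if_neg a1, if_neg a2, zpow_zero_apply]
        show 1 - x = x
        linarith
  · simpa using rho_le_one _ _
  · refine lt_of_le_of_ne (d1_nonneg _ _) fun h => ?_
    have h3 := ae_eq_of_D_eq_zero (MP.mp T) (MP.mp (1 : G)) h.symm
    have h4 : ∀ᵐ x ∂mu, x ∉ ({1 / 2} : Set ℝ) := by
      rw [← measure_eq_zero_iff_ae_notMem]; exact measure_singleton _
    obtain ⟨x, hx1, hx2⟩ := (h3.and h4).exists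
    have : 1 - x = x := hx1
    exact hx2 (by rw [mem_singleton_iff]; linarith)

/-- The data chosen at one stage. -/
structure Dat where
  T : G
  S : G
  L : ℕ
  N : ℕ
  r : ℝ

theorem exists_homoclinic (O : ℕ → Set G) (hO : ∀ i, IsOpen (O i)) (hOd : ∀ i, Dense (O i)) :
    ∃ T S : G, (∀ i, T ∈ O i) ∧ 0 < d1 S 1 ∧
      Tendsto (fun n : ℕ => acc T S n / n) atTop (𝓝 0) := by
  let Ok : ℕ → Dat → Prop := fun i a =>
    0 < a.L ∧ St a.T a.S a.L (1 / (i + 1)) ∧ 0 < a.r ∧ a.L * (i + 1) ≤ a.N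
  let Nx : ℕ → Dat → Dat → Prop := fun i a b =>
    dist b.T a.T < a.r / 2 ∧ dist b.S a.S < a.r / 2 ∧ b.r ≤ a.r / 2 ∧ a.N < b.N ∧
      ∀ T S : G, dist T b.T ≤ b.r → dist S b.S ≤ b.r → T ∈ O i ∧
        ∀ n ≤ b.N, acc T S n ≤ 2 / (i + 1) * n + a.L + 1
  have hstep : ∀ i a, Ok i a → ∃ b, Ok (i + 1) b ∧ Nx i a b := by
    rintro i a ⟨h1, h2, h3, h4⟩
    obtain ⟨T', S', L', b1, b2, b3, b4, b5, b6⟩ := step h1 (by positivity) h2 (hO i) (hOd i)
      (δ := a.r / 2) (η' := 1 / ((i + 1 : ℕ) + 1)) (by positivity) (by positivity)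
    let N' := max (a.N + 1) (L' * (i + 1 + 1))
    have e1 : ∀ᶠ p : G × G in 𝓝 (T', S'), p.1 ∈ O i :=
      continuous_fst.continuousAt.eventually_mem ((hO i).mem_nhds b2)
    have e2 : ∀ᶠ p : G × G in 𝓝 (T', S'), ∀ n ∈ Finset.range (N' + 1),
        acc p.1 p.2 n < acc T' S' n + 1 :=
      (Finset.eventually_all _).2 fun n _ =>
        ((continuous_acc n).tendsto (T', S')).eventually (gt_mem_nhds (lt_add_one _))
    obtain ⟨r, hr, hr'⟩ := Metric.nhds_basis_closedBall.eventually_iff.1 (e1.and e2)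
    refine ⟨⟨T', S', L', N', min r (a.r / 2)⟩, ⟨b1, b5, by positivity, le_max_right _ _⟩,
      b3, b4, min_le_right _ _, lt_of_lt_of_le (Nat.lt_succ_self _) (le_max_left _ _), ?_⟩
    intro T S hT hS
    have hm : (T, S) ∈ Metric.closedBall (T', S') r := by
      rw [Metric.mem_closedBall, Prod.dist_eq]
      exact max_le (hT.trans (min_le_left _ _)) (hS.trans (min_le_left _ _))
    refine ⟨(hr' hm).1, fun n hn => ?_⟩
    have c1 := (hr' hm).2 n (Finset.mem_range.2 (Nat.lt_succ_of_le hn))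
    have c2 := b6 n
    have c3 : (1:ℝ) / ((i + 1 : ℕ) + 1) ≤ 1 / (i + 1) := by
      push_cast
      exact one_div_le_one_div_of_le (by positivity) (by linarith)
    have c4 : (1 / ((i:ℝ) + 1) + 1 / ((i + 1 : ℕ) + 1)) * n ≤ 2 / (i + 1) * n := by
      refine mul_le_mul_of_nonneg_right ?_ (Nat.cast_nonneg n)
      have : (2:ℝ) / (i + 1) = 1 / (i + 1) + 1 / (i + 1) := by ring
      linarith
    simp only at c1
    linarith
  choose! f hf using hstep
  obtain ⟨T0, S0, h0, h0'⟩ := exists_initial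
  obtain ⟨u, hu0, hu⟩ : ∃ u : ℕ → Dat, u 0 = ⟨T0, S0, 1, 1, d1 S0 1 / 2⟩ ∧
      ∀ i, u (i + 1) = f i (u i) :=
    ⟨fun n => Nat.rec ⟨T0, S0, 1, 1, d1 S0 1 / 2⟩ (fun i a => f i a) n, rfl, fun _ => rfl⟩
  have hOk : ∀ i, Ok i (u i) := by
    intro i
    induction i with
    | zero => rw [hu0]; exact ⟨one_pos, by simpa using h0, half_pos h0', le_rfl⟩
    | succ i ih => rw [hu]; exact (hf i _ ih).1
  have hNx : ∀ i, Nx i (u i) (u (i + 1)) := fun i => by rw [hu]; exact (hf i _ (hOk i)).2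
  have hr0 : ∀ i, 0 < (u i).r := fun i => (hOk i).2.2.1
  have hdist : ∀ i j, i ≤ j → dist (u j).T (u i).T ≤ (u i).r - (u j).r ∧
      dist (u j).S (u i).S ≤ (u i).r - (u j).r := by
    intro i j hij
    induction j, hij using Nat.le_induction with
    | base => simp
    | succ j _ ih =>
      obtain ⟨a1, a2, a3, -⟩ := hNx j
      constructor
      · linarith [dist_triangle (u (j + 1)).T (u j).T (u i).T, ih.1]
      · linarith [dist_triangle (u (j + 1)).S (u j).S (u i).S, ih.2]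
  have hr : Tendsto (fun i => (u i).r) atTop (𝓝 0) := by
    have a1 : ∀ i, (u i).r ≤ (u 0).r * (1 / 2) ^ i := by
      intro i
      induction i with
      | zero => simp
      | succ i ih =>
        have := (hNx i).2.2.1
        rw [pow_succ]; linarith
    refine squeeze_zero (fun i => (hr0 i).le) a1 ?_
    simpa using (tendsto_pow_atTop_nhds_zero_of_lt_one (r := (1 / 2 : ℝ)) (by norm_num)
      (by norm_num)).const_mul (u 0).r
  obtain ⟨T, hT⟩ := cauchySeq_tendsto_of_complete (cauchySeq_of_le_tendsto_0'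
    (s := fun i => (u i).T) _ (fun i j hij => by
      rw [dist_comm]; linarith [(hdist i j hij).1, hr0 j]) hr)
  obtain ⟨S, hS⟩ := cauchySeq_tendsto_of_complete (cauchySeq_of_le_tendsto_0'
    (s := fun i => (u i).S) _ (fun i j hij => by
      rw [dist_comm]; linarith [(hdist i j hij).2, hr0 j]) hr)
  have hTd : ∀ i, dist T (u i).T ≤ (u i).r := fun i =>
    le_of_tendsto (hT.dist tendsto_const_nhds) (by
      filter_upwards [eventually_ge_atTop i] with j hj
      linarith [(hdist i j hj).1, hr0 j])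
  have hSd : ∀ i, dist S (u i).S ≤ (u i).r := fun i =>
    le_of_tendsto (hS.dist tendsto_const_nhds) (by
      filter_upwards [eventually_ge_atTop i] with j hj
      linarith [(hdist i j hj).2, hr0 j])
  have hfin := fun i => (hNx i).2.2.2.2 T S (hTd (i + 1)) (hSd (i + 1))
  have hmono : StrictMono fun i => (u i).N := strictMono_nat_of_lt_succ fun i => (hNx i).2.2.2.1
  refine ⟨T, S, fun i => (hfin i).1, ?_, ?_⟩
  · have a1 := (d1_le_dist _ _).trans (hSd 0)
    rw [hu0] at a1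
    have a2 := d1_triangle S0 S 1
    rw [d1_comm S0 S] at a2
    have a3 : d1 S S0 ≤ d1 S0 1 / 2 := a1
    linarith
  · rw [Metric.tendsto_atTop]
    intro ε hε
    obtain ⟨i0, hi0⟩ := exists_nat_gt (4 / ε)
    refine ⟨(u i0).N + i0 + 1, fun n hn => ?_⟩
    have hn0 : (0:ℝ) < n := by exact_mod_cast (by omega : 0 < n)
    have hex : ∃ j, n ≤ (u j).N := ⟨n, hmono.id_le n⟩
    have hj := Nat.find_spec hex
    have hj0 : i0 < Nat.find hex := by
      by_contra hc
      push Not at hc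
      have : (u (Nat.find hex)).N ≤ (u i0).N := hmono.monotone hc
      omega
    obtain ⟨i, hi⟩ : ∃ i, Nat.find hex = i + 1 := ⟨Nat.find hex - 1, by omega⟩
    have hi' : (u i).N < n := not_le.1 (Nat.find_min hex (by omega))
    rw [hi] at hj
    have a1 := (hfin i).2 n hj
    have a2 : ((u i).L : ℝ) * (i + 1) ≤ n := by
      exact_mod_cast (hOk i).2.2.2.trans hi'.le
    have a3 : (i0 : ℝ) + 1 ≤ i + 1 := by exact_mod_cast (by omega : i0 + 1 ≤ i + 1)
    have a4 : (i0 : ℝ) + 1 ≤ n := by exact_mod_cast (by omega : i0 + 1 ≤ n)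
    have hi1 : (0:ℝ) < i + 1 := by positivity
    have a5 : ((u i).L : ℝ) ≤ 1 / (i + 1) * n := by
      rw [one_div, ← div_eq_inv_mul, le_div_iff₀ hi1]; exact a2
    have a0 : 0 ≤ acc T S n := Finset.sum_nonneg fun _ _ => d1_nonneg _ _
    rw [Real.dist_eq, sub_zero, abs_of_nonneg (by positivity), div_lt_iff₀ hn0]
    rw [div_lt_iff₀ hε] at hi0
    have a6 : 1 / ((i:ℝ) + 1) ≤ ε / 4 := by
      rw [div_le_div_iff₀ hi1 (by norm_num)]; nlinarith
    have a7 : (2:ℝ) / (i + 1) = 2 * (1 / (i + 1)) := by ring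
    have a8 := mul_le_mul_of_nonneg_right a6 hn0.le
    rw [a7] at a1
    nlinarith

lemma density_of_cesaro {a : ℕ → ℝ} (ha : ∀ n, 0 ≤ a n)
    (h : Tendsto (fun n : ℕ => (∑ m ∈ Finset.range n, a m) / n) atTop (𝓝 0)) {τ : ℝ} (hτ : 0 < τ)
    {P : ℕ → Prop} [DecidablePred P] (hP : ∀ n, a n < τ → P n) :
    Tendsto (fun N : ℕ => ((((Finset.Icc 1 N).filter P).card : ℝ) / (N : ℝ))) atTop (𝓝 1) := by
  have h1 : Tendsto (fun N : ℕ => (∑ m ∈ Finset.range (N + 1), a m) / ((N + 1 : ℕ) : ℝ))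
      atTop (𝓝 0) := h.comp (tendsto_add_atTop_nat 1)
  have h2 : Tendsto (fun N : ℕ => 1 - 2 / τ *
      ((∑ m ∈ Finset.range (N + 1), a m) / ((N + 1 : ℕ) : ℝ))) atTop (𝓝 1) := by
    simpa using (h1.const_mul (2 / τ)).const_sub 1
  refine tendsto_of_tendsto_of_tendsto_of_le_of_le' h2 tendsto_const_nhds ?_ ?_
  · filter_upwards [eventually_ge_atTop 1] with N hN
    have hN0 : (1:ℝ) ≤ N := by exact_mod_cast hN
    have c1 : (((Finset.Icc 1 N).filter P).card : ℝ) +
        ((Finset.Icc 1 N).filter fun n => ¬ P n).card = N := by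
      have := Finset.card_filter_add_card_filter_not (s := Finset.Icc 1 N) P
      rw [Nat.card_Icc] at this
      exact_mod_cast this
    have c2 : (((Finset.Icc 1 N).filter fun n => ¬ P n).card : ℝ) * τ ≤
        ∑ m ∈ Finset.range (N + 1), a m := by
      calc (((Finset.Icc 1 N).filter fun n => ¬ P n).card : ℝ) * τ
          = ∑ _m ∈ (Finset.Icc 1 N).filter fun n => ¬ P n, τ := by simp
        _ ≤ ∑ m ∈ (Finset.Icc 1 N).filter fun n => ¬ P n, a m :=
          Finset.sum_le_sum fun m hm =>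
            not_lt.1 fun hlt => (Finset.mem_filter.1 hm).2 (hP m hlt)
        _ ≤ ∑ m ∈ Finset.range (N + 1), a m := by
          refine Finset.sum_le_sum_of_subset_of_nonneg (fun m hm => ?_) fun m _ _ => ha m
          have := (Finset.mem_Icc.1 (Finset.mem_filter.1 hm).1).2
          exact Finset.mem_range.2 (Nat.lt_succ_of_le this)
    set B := ∑ m ∈ Finset.range (N + 1), a m
    set b := (((Finset.Icc 1 N).filter fun n => ¬ P n).card : ℝ)
    have hb : 0 ≤ b := Nat.cast_nonneg _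
    have c3 : b / N ≤ 2 / τ * (B / ((N + 1 : ℕ) : ℝ)) := by
      push_cast
      rw [div_mul_div_comm, div_le_div_iff₀ (by linarith) (by positivity)]
      have := mul_nonneg hb hτ.le
      nlinarith
    have c4 : (((Finset.Icc 1 N).filter P).card : ℝ) / N = 1 - b / N := by
      field_simp; linarith
    linarith
  · filter_upwards [eventually_ge_atTop 1] with N hN
    have hN0 : (1:ℝ) ≤ N := by exact_mod_cast hN
    rw [div_le_one (by linarith)]
    have := Finset.card_filter_le (Finset.Icc 1 N) P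
    rw [Nat.card_Icc] at this
    exact_mod_cast this

/-- Every residual set contains an automorphism with a non-trivial weakly homoclinic element. -/
theorem exists_in_residual {V : Set G} (hV : V ∈ residual G) :
    ∃ T ∈ V, ∃ S : G, ¬ (∀ᵐ x ∂mu, S.1 x = x) ∧ ∀ A : Set ℝ, MeasurableSet A → ∀ ε : ℝ, 0 < ε →
      Tendsto (fun N : ℕ => ((((Finset.Icc 1 N).filter fun n : ℕ =>
        sd A (T⁻¹ ^ n * S * T ^ n) 1 < ε).card : ℝ) / (N : ℝ))) atTop (𝓝 1) := by
  obtain ⟨C, hC1, hC2, hC3, hC4⟩ := mem_residual_iff.1 hV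
  obtain ⟨O, hO⟩ := (hC3.insert univ).exists_eq_range (insert_nonempty _ _)
  have hOm : ∀ i, O i ∈ insert univ C := fun i => hO ▸ mem_range_self i
  have hO1 : ∀ i, IsOpen (O i) := fun i => by
    rcases hOm i with h | h
    · rw [h]; exact isOpen_univ
    · exact hC1 _ h
  have hO2 : ∀ i, Dense (O i) := fun i => by
    rcases hOm i with h | h
    · rw [h]; exact dense_univ
    · exact hC2 _ h
  obtain ⟨U, S, h1, h2, h3⟩ := exists_homoclinic (fun i => (O i)⁻¹) (fun i => (hO1 i).inv)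
    (fun i => (hO2 i).preimage (Homeomorph.inv G).isOpenMap)
  refine ⟨U⁻¹, hC4 fun t ht => ?_, S, fun h => ?_, fun A hA ε hε => ?_⟩
  · have : t ∈ range O := hO ▸ mem_insert_of_mem _ ht
    obtain ⟨i, rfl⟩ := this
    exact h1 i
  · have : d1 S 1 = d1 1 1 := D_congr h EventuallyEq.rfl
    rw [this, d1_self] at h2
    exact lt_irrefl _ h2
  · obtain ⟨C, hC, hC'⟩ := sd_le hA (ε := ε / 2) (by positivity)
    refine density_of_cesaro (a := fun m => d1 (U ^ (m:ℤ) * S) (U ^ (m:ℤ)))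
      (fun _ => d1_nonneg _ _) h3 (τ := ε / 2 / C) (by positivity) fun n hn => ?_
    have a1 := hC' (U⁻¹⁻¹ ^ n * S * U⁻¹ ^ n) 1
    have a2 : d1 (U⁻¹⁻¹ ^ n * S * U⁻¹ ^ n) 1 = d1 (U ^ (n:ℤ) * S) (U ^ (n:ℤ)) := by
      rw [← d1_mul_right _ _ (U ^ n)]
      simp
    rw [lt_div_iff₀ hC] at hn
    rw [a2] at a1
    linarith

end Pool.Agent.H844Z
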