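import Mathlib

set_option autoImplicit false
open Finset
open scoped Classical

namespace Pool.Agent.H844Z

lemma sum_range_blocks (a : ℕ → ℝ) (L k : ℕ) :
    ∑ m ∈ range (k * L), a m = ∑ i ∈ range k, ∑ m ∈ range L, a (i * L + m) := by
  induction k with
  | zero => simp
  | succ k ih => rw [Nat.succ_mul, sum_range_add, ih, sum_range_succ]

lemma sum_range_split (a : ℕ → ℝ) (L n : ℕ) :
    ∑ m ∈ range n, a m = ∑ i ∈ range (n / L), ∑ m ∈ range L, a (i * L + m) +
      ∑ m ∈ range (n % L), a (n / L * L + m) := by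
  conv_lhs => rw [← Nat.div_add_mod' n L]
  rw [sum_range_add, sum_range_blocks]

/-- The combinatorial device on one cyclic coordinate. -/
structure Gadget (h q W : ℕ) (γ β α : ℝ) [NeZero q] where
  psi : ZMod q → ℤ
  act : ZMod q → Prop
  t : ZMod q → ℤ → ℤ
  act_shift : ∀ s k, act s → act (s + t s k)
  psi_shift : ∀ s k, act s → (h : ℤ) ∣ psi (s + t s k) - psi s - k
  t_shift : ∀ s k, act s → t (s + t s k) (-k) = - t s k
  garbage : ∀ s k n, act s → ∑ m ∈ range n,
    (if (h : ℤ) ∣ psi (s + t s k + m) - psi (s + m) - k ∨ psi (s + t s k + m) = psi (s + m)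
      then 0 else 1 : ℝ) ≤ γ * n
  support : ∀ s n, W ≤ n → ∑ m ∈ range n, (if psi (s + m) = 0 then 0 else 1 : ℝ) ≤ γ * n
  change : ((univ.filter fun s => psi (s + 1) ≠ psi s).card : ℝ) ≤ β * q
  active : α * q ≤ ((univ.filter act).card : ℝ)

section Concrete

variable (h M l : ℕ)

/-- The step function on natural numbers. -/
def chi (v : ℕ) : ℤ := if v % (M * l) < l then ((v / (M * l) : ℕ) : ℤ) else 0

variable {h M l}

lemma chi_eq {u w : ℕ} (hw : w < M * l) :
    chi M l (u * (M * l) + w) = if w < l then (u : ℤ) else 0 := by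
  unfold chi
  have hP : 0 < M * l := lt_of_le_of_lt (Nat.zero_le _) hw
  rw [Nat.mul_add_mod', Nat.mod_eq_of_lt hw, mul_comm u, Nat.mul_add_div hP, Nat.div_eq_of_lt hw,
    add_zero]

lemma val_eq {u w : ℕ} (hu : u < h) (hw : w < M * l) :
    ((u * (M * l) + w : ℕ) : ZMod (h * (M * l) + 1)).val = u * (M * l) + w := by
  refine ZMod.val_cast_of_lt ?_
  have : (u + 1) * (M * l) ≤ h * (M * l) := Nat.mul_le_mul_right _ hu
  nlinarith

lemma window_count (hh : 0 < h) (s : ZMod (h * (M * l) + 1)) (n : ℕ) (hn : n ≤ M * l) :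
    ∑ m ∈ range n, (if chi M l (s + m).val = 0 then 0 else 1 : ℝ) ≤ 2 * l := by
  have hq : M * l ≤ h * (M * l) := Nat.le_mul_of_pos_left _ hh
  have e : ∑ m ∈ range n, (if chi M l (s + m).val = 0 then 0 else 1 : ℝ) =
      (((range n).filter fun m : ℕ => ¬ chi M l (s + m).val = 0).card : ℝ) := by
    rw [card_filter]; push_cast
    refine sum_congr rfl fun m _ => ?_
    split_ifs <;> simp_all
  rw [e]
  have hval : ∀ m < n, (s + (m : ZMod (h * (M * l) + 1))).val =
      if s.val + m < h * (M * l) + 1 then s.val + m else s.val + m - (h * (M * l) + 1) := by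
    intro m hm
    have hm' : m < h * (M * l) + 1 := by omega
    rw [ZMod.val_add, ZMod.val_cast_of_lt hm']
    have := ZMod.val_lt s
    split_ifs with h1
    · exact Nat.mod_eq_of_lt h1
    · rw [Nat.mod_eq_sub_mod (by omega), Nat.mod_eq_of_lt (by omega)]
  have : ((range n).filter fun m : ℕ => ¬ chi M l (s + m).val = 0).card ≤
      ((univ : Finset Bool) ×ˢ range l).card := by
    refine card_le_card_of_injOn
      (fun m => (decide (s.val + m < h * (M * l) + 1), (s + m).val % (M * l))) ?_ ?_
    · intro m hm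
      simp only [coe_filter, mem_range, Set.mem_ofPred_eq] at hm
      simp only [coe_product, coe_univ, coe_range, Set.mem_prod, Set.mem_univ, Set.mem_Iio,
        true_and]
      by_contra hc
      exact hm.2 (if_neg hc)
    · intro a ha b hb hab
      simp only [coe_filter, mem_range, Set.mem_ofPred_eq] at ha hb
      simp only [Prod.mk.injEq, decide_eq_decide] at hab
      obtain ⟨h1, h2⟩ := hab
      rw [hval a ha.1, hval b hb.1] at h2
      have key : a ≡ b [MOD M * l] := by
        by_cases h3 : s.val + a < h * (M * l) + 1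
        · rw [if_pos h3, if_pos (h1.1 h3)] at h2
          exact Nat.ModEq.add_left_cancel' s.val h2
        · have h4 : ¬ s.val + b < h * (M * l) + 1 := fun h => h3 (h1.2 h)
          rw [if_neg h3, if_neg h4] at h2
          have h5 := Nat.ModEq.add_right (h * (M * l) + 1) h2
          rw [Nat.sub_add_cancel (by omega), Nat.sub_add_cancel (by omega)] at h5
          exact Nat.ModEq.add_left_cancel' s.val h5
      exact Nat.ModEq.eq_of_lt_of_lt key (by omega) (by omega)
  rw [card_product, card_univ, Fintype.card_bool, card_range] at this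
  exact_mod_cast this

lemma total_count (hh : 0 < h) (hM : 0 < M) (hl : 0 < l) (s : ZMod (h * (M * l) + 1)) (n : ℕ) :
    ∑ m ∈ range n, (if chi M l (s + m).val = 0 then 0 else 1 : ℝ) ≤ 2 * n / M + 2 * l := by
  have hP : 0 < M * l := Nat.mul_pos hM hl
  rw [sum_range_split _ (M * l) n]
  have a1 : ∀ i k, k ≤ M * l → ∑ m ∈ range k,
      (if chi M l (s + ((i * (M * l) + m : ℕ) : ZMod (h * (M * l) + 1))).val = 0
        then 0 else 1 : ℝ) ≤ 2 * l := by
    intro i k hk
    have := window_count hh (s + ((i * (M * l) : ℕ) : ZMod (h * (M * l) + 1))) k hk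
    simpa only [Nat.cast_add, add_assoc] using this
  have a2 := a1 (n / (M * l)) (n % (M * l)) (Nat.mod_lt _ hP).le
  have a3 : ∑ i ∈ range (n / (M * l)), ∑ m ∈ range (M * l),
      (if chi M l (s + ((i * (M * l) + m : ℕ) : ZMod (h * (M * l) + 1))).val = 0
        then 0 else 1 : ℝ) ≤ ∑ _i ∈ range (n / (M * l)), (2 * l : ℝ) :=
    sum_le_sum fun i _ => a1 i _ le_rfl
  rw [sum_const, card_range, nsmul_eq_mul] at a3
  have a4 : ((n / (M * l) : ℕ) : ℝ) ≤ n / (M * l) := by
    have := @Nat.cast_div_le ℝ _ _ _ n (M * l)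
    simpa using this
  have hM' : (0:ℝ) < M := by exact_mod_cast hM
  have hl' : (0:ℝ) < l := by exact_mod_cast hl
  have a5 : ((n / (M * l) : ℕ) : ℝ) * (2 * l) ≤ 2 * n / M := by
    calc ((n / (M * l) : ℕ) : ℝ) * (2 * l) ≤ n / (M * l) * (2 * l) := by gcongr
      _ = 2 * n / M := by field_simp
  linarith

lemma exists_gadget (hh : 0 < h) (hM : 2 ≤ M) (hl : 0 < l) :
    Nonempty (Gadget h (h * (M * l) + 1) (M * l) (12 / M) (3 / l) (1 / (2 * M))) := by
  have hM0 : 0 < M := by omega
  have hP : 0 < M * l := Nat.mul_pos hM0 hl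
  have hlP : 2 * l ≤ M * l := Nat.mul_le_mul_right _ hM
  have hM' : (2:ℝ) ≤ M := by exact_mod_cast hM
  have hl' : (0:ℝ) < l := by exact_mod_cast hl
  have hh' : (1:ℝ) ≤ h := by exact_mod_cast hh
  have hhz : (0:ℤ) < h := by exact_mod_cast hh
  let nx : ℕ → ℤ → ℕ := fun u k => (((u : ℤ) + k) % h).toNat
  have hnx : ∀ u k, (nx u k : ℤ) = ((u : ℤ) + k) % h := fun u k =>
    Int.toNat_of_nonneg (Int.emod_nonneg _ hhz.ne')
  have hnxlt : ∀ u k, nx u k < h := fun u k => by
    have := Int.emod_lt_of_pos ((u : ℤ) + k) hhz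
    rw [← hnx] at this
    exact_mod_cast this
  let act : ZMod (h * (M * l) + 1) → Prop := fun s =>
    ∃ u w : ℕ, u < h ∧ w < l ∧ s = ((u * (M * l) + w : ℕ) : ZMod (h * (M * l) + 1))
  let t : ZMod (h * (M * l) + 1) → ℤ → ℤ := fun s k =>
    ((nx (s.val / (M * l)) k : ℤ) - (s.val / (M * l) : ℕ)) * (M * l : ℕ)
  have ht : ∀ u w k, u < h → w < l →
      t ((u * (M * l) + w : ℕ) : ZMod (h * (M * l) + 1)) k = ((nx u k : ℤ) - u) * (M * l : ℕ) := by
    intro u w k hu hw
    simp only [t]
    rw [val_eq hu (by omega), mul_comm u, Nat.mul_add_div hP, Nat.div_eq_of_lt (by omega), add_zero]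
  have hsh : ∀ u w k, u < h → w < l →
      ((u * (M * l) + w : ℕ) : ZMod (h * (M * l) + 1)) +
        (t ((u * (M * l) + w : ℕ) : ZMod (h * (M * l) + 1)) k : ℤ) =
        ((nx u k * (M * l) + w : ℕ) : ZMod (h * (M * l) + 1)) := by
    intro u w k hu hw
    rw [ht u w k hu hw]
    push_cast
    ring
  have hdvd : ∀ u k, (h : ℤ) ∣ (nx u k : ℤ) - u - k := by
    intro u k
    rw [hnx, sub_sub]
    exact Int.ModEq.dvd (Int.mod_modEq _ _).symm
  refine ⟨⟨fun s => chi M l s.val, act, t, ?_, ?_, ?_, ?_, ?_, ?_, ?_⟩⟩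
  · rintro _ k ⟨u, w, hu, hw, rfl⟩
    exact ⟨nx u k, w, hnxlt u k, hw, hsh u w k hu hw⟩
  · rintro _ k ⟨u, w, hu, hw, rfl⟩
    rw [hsh u w k hu hw, val_eq hu (by omega), val_eq (hnxlt u k) (by omega),
      chi_eq (by omega), chi_eq (by omega), if_pos hw, if_pos hw]
    exact hdvd u k
  · rintro _ k ⟨u, w, hu, hw, rfl⟩
    rw [hsh u w k hu hw, ht u w k hu hw, ht _ w _ (hnxlt u k) hw]
    have : (nx (nx u k) (-k) : ℤ) = u := by
      rw [hnx, hnx, Int.emod_add_emod, add_neg_cancel_right]
      exact Int.emod_eq_of_lt (by positivity) (by exact_mod_cast hu)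
    rw [this]; ring
  · rintro _ k n ⟨u, w, hu, hw, rfl⟩
    rw [hsh u w k hu hw]
    by_cases hn : n + l ≤ M * l
    · rw [sum_eq_zero]
      · positivity
      intro m hm
      rw [mem_range] at hm
      rw [if_pos]
      rw [← Nat.cast_add, ← Nat.cast_add, add_assoc, add_assoc, val_eq hu (by omega),
        val_eq (hnxlt u k) (by omega), chi_eq (by omega), chi_eq (by omega)]
      by_cases h1 : w + m < l
      · rw [if_pos h1, if_pos h1]; exact Or.inl (hdvd u k)
      · rw [if_neg h1, if_neg h1]; exact Or.inr rfl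
    · have c1 := total_count hh hM0 hl ((u * (M * l) + w : ℕ) : ZMod (h * (M * l) + 1)) n
      have c2 := total_count hh hM0 hl ((nx u k * (M * l) + w : ℕ) : ZMod (h * (M * l) + 1)) n
      have c3 : (M:ℝ) * l < n + l := by
        push Not at hn; exact_mod_cast hn
      have c4 : (l : ℝ) ≤ 2 * n / M := by
        rw [le_div_iff₀ (by linarith)]; nlinarith
      refine le_trans (sum_le_sum fun m _ => ?_) ((sum_add_distrib.trans_le
        (add_le_add c1 c2)).trans ?_)
      · split_ifs with a1 a2 a3 a4 a5 a6 <;> try norm_num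
        exact a1 (Or.inr (by rw [a5, a6]))
      · have : (12:ℝ) / M * n = 6 * (2 * n / M) := by ring
        linarith
  · intro s n hn
    have c1 := total_count hh hM0 hl s n
    have c3 : (M:ℝ) * l ≤ n := by exact_mod_cast hn
    have c4 : (l : ℝ) ≤ n / M := by
      rw [le_div_iff₀ (by linarith)]; nlinarith
    have c5 : (0:ℝ) ≤ n / M := by positivity
    have : (12:ℝ) / M * n = 12 * (n / M) := by ring
    have e2 : (2:ℝ) * n / M = 2 * (n / M) := by ring
    linarith
  · have : (univ.filter fun s : ZMod (h * (M * l) + 1) =>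
        chi M l (s + 1).val ≠ chi M l s.val).card ≤
        (insert (h * (M * l) + 1) ((range (h * M + 1)).image fun i => i * l)).card := by
      refine card_le_card_of_injOn (fun s => s.val + 1) ?_ ?_
      · intro s hs
        simp only [coe_filter, mem_univ, true_and, Set.mem_ofPred_eq] at hs
        simp only [coe_insert, coe_image, coe_range, Set.mem_insert_iff, Set.mem_image,
          Set.mem_Iio]
        by_contra hc
        push Not at hc
        obtain ⟨c1, c2⟩ := hc
        have hs1 := ZMod.val_lt s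
        have hv : (s + 1).val = s.val + 1 := by
          have h1 : ((1 : ℕ) : ZMod (h * (M * l) + 1)).val = 1 :=
            ZMod.val_cast_of_lt (by have := Nat.mul_pos hh hP; omega)
          rw [Nat.cast_one] at h1
          rw [ZMod.val_add, h1, Nat.mod_eq_of_lt (by omega)]
        have hnd : ¬ l ∣ s.val + 1 := by
          rintro ⟨i, hi⟩
          refine c2 i ?_ (by rw [hi, mul_comm])
          by_contra hc
          push Not at hc
          have : l * (h * M + 1) ≤ l * i := Nat.mul_le_mul_left _ hc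
          have e : l * (h * M + 1) = h * (M * l) + l := by ring
          omega
        apply hs
        rw [hv]
        obtain ⟨u, w, hw, hsv⟩ : ∃ u w, w < M * l ∧ s.val = u * (M * l) + w :=
          ⟨s.val / (M * l), s.val % (M * l), Nat.mod_lt _ hP, (Nat.div_add_mod' _ _).symm⟩
        rw [hsv] at hnd ⊢
        have hw1 : w + 1 ≠ M * l := by
          intro he
          exact hnd ⟨(u + 1) * M, by rw [add_assoc, he]; ring⟩
        have hw2 : w + 1 ≠ l := by
          intro he
          exact hnd ⟨u * M + 1, by rw [add_assoc, he]; ring⟩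
        rw [add_assoc, chi_eq (by omega), chi_eq hw]
        by_cases h3 : w < l
        · rw [if_pos h3, if_pos (by omega)]
        · rw [if_neg h3, if_neg (by omega)]
      · intro a _ b _ hab
        exact ZMod.val_injective _ (by simpa using hab)
    have h2 : (insert (h * (M * l) + 1) ((range (h * M + 1)).image fun i => i * l)).card ≤
        h * M + 2 := by
      refine (card_insert_le _ _).trans ?_
      have := card_image_le (s := range (h * M + 1)) (f := fun i => i * l)
      rw [card_range] at this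
      omega
    have h3 : ((univ.filter fun s : ZMod (h * (M * l) + 1) =>
        chi M l (s + 1).val ≠ chi M l s.val).card : ℝ) ≤ h * M + 2 := by
      exact_mod_cast this.trans h2
    refine h3.trans ?_
    push_cast
    rw [div_mul_eq_mul_div, le_div_iff₀ hl']
    have : (1:ℝ) ≤ h * M := by nlinarith
    nlinarith
  · have : (range h ×ˢ range l).card ≤ (univ.filter act).card := by
      refine card_le_card_of_injOn
        (fun p => ((p.1 * (M * l) + p.2 : ℕ) : ZMod (h * (M * l) + 1))) ?_ ?_
      · intro p hp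
        simp only [coe_product, coe_range, Set.mem_prod, Set.mem_Iio] at hp
        simp only [coe_filter, mem_univ, true_and, Set.mem_ofPred_eq]
        exact ⟨p.1, p.2, hp.1, hp.2, rfl⟩
      · intro p hp p' hp' hpp
        simp only [coe_product, coe_range, Set.mem_prod, Set.mem_Iio] at hp hp'
        have h1 := congrArg ZMod.val hpp
        simp only at h1
        rw [val_eq hp.1 (by omega), val_eq hp'.1 (by omega)] at h1
        have h2 := congrArg (· % (M * l)) h1
        simp only [Nat.mul_add_mod'] at h2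
        rw [Nat.mod_eq_of_lt (by omega), Nat.mod_eq_of_lt (by omega)] at h2
        rw [h2, add_left_inj] at h1
        exact Prod.ext (Nat.eq_of_mul_eq_mul_right hP h1) h2
    rw [card_product, card_range, card_range] at this
    have h3 : (h:ℝ) * l ≤ (univ.filter act).card := by exact_mod_cast this
    refine le_trans ?_ h3
    push_cast
    rw [div_mul_eq_mul_div, div_le_iff₀ (by linarith)]
    have hl1 : (1:ℝ) ≤ l := by exact_mod_cast hl
    have : (1:ℝ) ≤ h * (M * l) := by
      have : (1:ℝ) ≤ M * l := by nlinarith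
      nlinarith
    nlinarith

end Concrete

lemma exists_crt {d h : ℕ} (q : Fin d → ℕ) (hq : Pairwise fun i j => Nat.Coprime (q i) (q j))
    (hh : ∀ i, Nat.Coprime h (q i)) (j : Fin d) :
    ∃ c : ℤ, (h : ℤ) ∣ c ∧ (c : ZMod (q j)) = 1 ∧ ∀ i, i ≠ j → (c : ZMod (q i)) = 0 := by
  have hc : Nat.Coprime (h * ∏ i ∈ univ.erase j, q i) (q j) :=
    Nat.Coprime.mul_left (hh j) (Nat.Coprime.prod_left fun i hi => hq (ne_of_mem_erase hi))
  obtain ⟨c, hc1, hc2⟩ := Nat.chineseRemainder hc 0 1
  have hd : h * ∏ i ∈ univ.erase j, q i ∣ c := (Nat.modEq_zero_iff_dvd).1 hc1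
  refine ⟨c, by exact_mod_cast (Dvd.intro _ rfl).trans hd, ?_, fun i hi => ?_⟩
  · have := (ZMod.natCast_eq_natCast_iff c 1 (q j)).2 hc2
    simpa using this
  · have : q i ∣ c := ((dvd_prod_of_mem q (mem_erase.2 ⟨hi, mem_univ i⟩)).trans
      (Dvd.intro_left _ rfl)).trans hd
    simpa using (ZMod.natCast_eq_zero_iff c (q i)).2 this

lemma coprime_moduli {d A : ℕ} (hA : d.factorial ∣ A) :
    Pairwise fun i j : Fin d => Nat.Coprime (((i : ℕ) + 1) * A + 1) (((j : ℕ) + 1) * A + 1) := by
  have key : ∀ i j : Fin d, i < j →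
      Nat.Coprime (((i : ℕ) + 1) * A + 1) (((j : ℕ) + 1) * A + 1) := by
    intro i j hij
    refine Nat.coprime_of_dvd fun p hp h1 h2 => ?_
    have hij' : (i : ℕ) < j := hij
    have h3 : p ∣ ((j : ℕ) - i) * A := by
      have := Nat.dvd_sub h2 h1
      have e : ((j : ℕ) + 1) * A + 1 - (((i : ℕ) + 1) * A + 1) = ((j : ℕ) - i) * A := by
        rw [Nat.add_sub_add_right, ← Nat.sub_mul, Nat.add_sub_add_right]
      rwa [e] at this
    have h4 : p ∣ A := by
      rcases (Nat.Prime.dvd_mul hp).1 h3 with h5 | h5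
      · exact (h5.trans (Nat.dvd_factorial (by omega) (by have := j.2; omega))).trans hA
      · exact h5
    have h5 : p ∣ 1 := (Nat.dvd_add_right (Dvd.dvd.mul_left h4 _)).1 h1
    exact hp.one_lt.ne' (Nat.dvd_one.1 h5)
  intro i j hij
  rcases lt_or_gt_of_ne hij with h | h
  · exact key i j h
  · exact (key j i h).symm

end Pool.Agent.H844Z
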