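import Pool.Agent.H844Z.Model

set_option autoImplicit false
open MeasureTheory Set Filter Topology
open scoped Classical

namespace Pool.Agent.H844Z

/-- A state of the construction. -/
def St (T S : G) (L : ℕ) (η : ℝ) : Prop :=
  ∃ κ K, Pw T S κ K ∧ Blk T K L η (fun _ => 0)

/-- The accumulated distance of the orbits of `x` and `S x`. -/
noncomputable def acc (T S : G) (n : ℕ) : ℝ :=
  ∑ m ∈ Finset.range n, d1 (T ^ (m:ℤ) * S) (T ^ (m:ℤ))

lemma continuous_acc (n : ℕ) : Continuous fun p : G × G => acc p.1 p.2 n := by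
  unfold acc
  refine continuous_finsetSum _ fun m _ => Continuous.d1' ?_ ?_
  · exact (continuous_fst.zpow _).mul continuous_snd
  · exact continuous_fst.zpow _

lemma D_le_of_ae {Z : Type*} [MeasurableSpace Z] {ζ : Measure Z} [IsProbabilityMeasure ζ]
    {p q : Z → ℝ} (hp : Measurable p) (hq : Measurable q) {ε : ℝ}
    (h : ∀ᵐ z ∂ζ, rho (p z) (q z) ≤ ε) : D ζ p q ≤ ε := by
  unfold D
  calc ∫ z, rho (p z) (q z) ∂ζ ≤ ∫ _z, ε ∂ζ :=
        integral_mono_ae (integrable_rho hp hq) (integrable_const _) h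
    _ = ε := by simp

theorem undo {T S : G} {κ : ℝ → ℤ} {K : Finset ℤ} (hp : Pw T S κ K) {L : ℕ} (hL : 0 < L)
    {η : ℝ} (hη : 0 ≤ η) {err : ℝ → ℝ} (herr : Integrable err mu) (herr0 : ∀ y, 0 ≤ err y)
    (hb : Blk T K L η err) (hfin : IsOfFinOrder T) {θ : ℝ} (hθ : 0 < θ) :
    ∃ (T' S' : G) (L' : ℕ), 0 < L' ∧ d1 T' T ≤ θ ∧ d1 S' S ≤ θ ∧ St T' S' L' θ ∧
      ∀ n : ℕ, acc T' S' n ≤ (η + ∫ y, err y ∂mu + θ) * n + L := by
  obtain ⟨h, hh, hT⟩ := isOfFinOrder_iff_pow_eq_one.1 hfin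
  obtain ⟨δ1, hδ1, h1⟩ := D_comp_small (MP.meas T) (ε := θ / 4) (by positivity)
  obtain ⟨δ2, hδ2, h2⟩ := D_comp_small (MP.meas S) (ε := θ / 4) (by positivity)
  set ε := min (θ / 8) (min δ1 δ2) with hεd
  have hε : 0 < ε := by positivity
  have hε0 : ε ≤ θ / 8 := min_le_left _ _
  have hε1 : ε ≤ δ1 := (min_le_right _ _).trans (min_le_left _ _)
  have hε2 : ε ≤ δ2 := (min_le_right _ _).trans (min_le_right _ _)
  obtain ⟨M, hM⟩ := exists_nat_gt (max 2 (48 / θ))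
  have hM2 : (2:ℝ) < M := (le_max_left _ _).trans_lt hM
  have hM2' : 2 ≤ M := by exact_mod_cast hM2.le
  have hγ : (12:ℝ) / M ≤ θ / 4 := by
    have := (le_max_right _ _).trans_lt hM
    rw [div_lt_iff₀ hθ] at this
    rw [div_le_iff₀ (by linarith)]
    linarith
  have hα0 : (0:ℝ) < 1 / (2 * M) := by positivity
  have hα1 : (1:ℝ) / (2 * M) ≤ 1 := by
    rw [div_le_one (by linarith)]; linarith
  obtain ⟨d0, hd0⟩ := exists_pow_lt_of_lt_one (x := θ / 4) (y := 1 - 1 / (2 * (M:ℝ)))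
    (by positivity) (by linarith)
  set d := d0 + 1 with hd
  have hdα : (1 - 1 / (2 * (M:ℝ))) ^ d ≤ θ / 4 :=
    (pow_le_pow_of_le_one (by linarith) (by linarith) (Nat.le_succ d0)).trans hd0.le
  obtain ⟨N, hN⟩ := exists_nat_gt (12 * d * (L + 1) / θ)
  have hN0 : (0:ℝ) < N := lt_of_le_of_lt (by positivity) hN
  have hN0' : 0 < N := by exact_mod_cast hN0
  let l : Fin d → ℕ := fun j => ((j : ℕ) + 1) * (d.factorial * N)
  have hlN : ∀ j, N ≤ l j := fun j =>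
    (Nat.le_mul_of_pos_left N (Nat.factorial_pos d)).trans
      (Nat.le_mul_of_pos_left _ (Nat.succ_pos _))
  let q : Fin d → ℕ := fun j => h * (M * l j) + 1
  have : ∀ j, NeZero (q j) := fun j => ⟨Nat.succ_ne_zero _⟩
  have hq : Pairwise fun i j => Nat.Coprime (q i) (q j) := by
    have e : ∀ j : Fin d, q j = ((j : ℕ) + 1) * (h * M * (d.factorial * N)) + 1 := fun j => by
      simp only [q, l]; ring
    simp only [e]
    exact coprime_moduli ((Dvd.intro N rfl).mul_left _)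
  have hhq : ∀ j, Nat.Coprime h (q j) := fun j => by
    simp only [q]
    rw [Nat.coprime_mul_left_add_right]
    exact Nat.coprime_one_right h
  choose c hc1 hc2 hc3 using exists_crt q hq hhq
  let g : ∀ j, Gadget h (q j) (M * l j) (12 / M) (3 / l j) (1 / (2 * M)) := fun j =>
    (exists_gadget hh hM2' (lt_of_lt_of_le hN0' (hlN j))).some
  let L' : ℕ := (∑ j, M * l j) + 1
  have hL' : ∀ j, M * l j ≤ L' := fun j =>
    (Finset.single_le_sum (f := fun j => M * l j) (fun _ _ => Nat.zero_le _)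
      (Finset.mem_univ j)).trans (Nat.le_succ _)
  have hβ : (L + 1) * ∑ j, (3:ℝ) / l j ≤ θ / 4 := by
    have a1 : ∑ j, (3:ℝ) / l j ≤ d * (3 / N) := by
      refine (Finset.sum_le_sum (g := fun _ => (3:ℝ) / N) fun j _ => ?_).trans (by simp)
      have : (N:ℝ) ≤ l j := by exact_mod_cast hlN j
      gcongr
    rw [div_lt_iff₀ hθ] at hN
    calc (L + 1) * ∑ j, (3:ℝ) / l j ≤ (L + 1) * (d * (3 / N)) := by gcongr
      _ = 12 * d * (L + 1) / (4 * N) := by field_simp; ring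
      _ ≤ θ / 4 := by
        rw [div_le_div_iff₀ (by positivity) (by norm_num)]
        nlinarith
  have hβ0 : 0 ≤ ∑ j, (3:ℝ) / l j := Finset.sum_nonneg fun _ _ => by positivity
  have hLL : (0:ℝ) ≤ L := Nat.cast_nonneg L
  obtain ⟨R, S0, κ', K', p, hpm, hpw, m1, m2, m3, m4⟩ := model q hp hL hη herr herr0 hb hT
    (Nat.succ_pos d0) (by positivity) g c hc1 hc2 hc3 hL'
  let ζ := (nuY q).prod mu
  obtain ⟨e, he, hep⟩ := exists_iso_close (std_prod (nuY q)) hpm hε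
  have hall : ∀ U : MP ζ, ∀ᵐ z ∂ζ, rho (e (U.1 z)) (p (U.1 z)) ≤ ε := fun U =>
    (MP.mp U).quasiMeasurePreserving.ae hep
  have hD : ∀ U : MP ζ, D ζ (fun z => e (U.1 z)) (fun z => p (U.1 z)) ≤ ε := fun U =>
    D_le_of_ae (e.measurable.comp (MP.meas U)) (hpm.measurable.comp (MP.meas U)) (hall U)
  have hD0 : D ζ p e ≤ ε := by
    rw [D_comm]; exact D_le_of_ae e.measurable hpm.measurable hep
  have hclose : ∀ (U : MP ζ) (V : G), d1 (conjHom e he U) V ≤ ε +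
      D ζ (fun z => p (U.1 z)) (fun z => V.1 (p z)) +
      D ζ (fun z => V.1 (p z)) (fun z => V.1 (e z)) := by
    intro U V
    unfold d1
    rw [← D_comp he (MP.meas _) (MP.meas V)]
    simp only [conjHom_apply]
    have t1 := D_triangle (ζ := ζ) (p := fun z => e (U.1 z)) (q := fun z => p (U.1 z))
      (r := fun z => V.1 (e z)) (e.measurable.comp (MP.meas U)) (hpm.measurable.comp (MP.meas U))
      ((MP.meas V).comp e.measurable)
    have t2 := D_triangle (ζ := ζ) (p := fun z => p (U.1 z)) (q := fun z => V.1 (p z))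
      (r := fun z => V.1 (e z)) (hpm.measurable.comp (MP.meas U))
      ((MP.meas V).comp hpm.measurable) ((MP.meas V).comp e.measurable)
    linarith [hD U]
  have hpow : ∀ (r : ℤ) z, ((conjHom e he R) ^ r).1 (e z) = e ((R ^ r).1 z) := by
    intro r z
    rw [← map_zpow, conjHom_apply]
  refine ⟨conjHom e he R, conjHom e he S0, L', Nat.succ_pos _, ?_, ?_, ?_, ?_⟩
  · have a1 := hclose R T
    have a2 := h1 _ ζ p e hpm he (hD0.trans hε1)
    have b0 : ∑ j, (3:ℝ) / l j ≤ θ / 4 := by nlinarith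
    linarith
  · have a1 := hclose S0 S
    have a2 := h2 _ ζ p e hpm he (hD0.trans hε2)
    linarith
  · refine ⟨fun x => κ' (e.symm x), K', ⟨hpw.meas.comp e.symm.measurable, fun x => hpw.mem _,
      fun x => ?_, fun x => ?_⟩, fun r hr => ?_⟩
    · obtain ⟨z, rfl⟩ := e.surjective x
      rw [e.symm_apply_apply, hpow, e.symm_apply_apply, hpw.anti]
    · obtain ⟨z, rfl⟩ := e.surjective x
      rw [e.symm_apply_apply, hpow, conjHom_apply, hpw.eq]
    · have a1 : ∀ᵐ z ∂ζ, ∀ n : ℤ, rho (e ((R ^ n).1 z)) (p ((R ^ n).1 z)) ≤ ε :=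
        ae_all_iff.2 fun n => hall (R ^ n)
      filter_upwards [he.symm.quasiMeasurePreserving.ae a1] with y hy
      obtain ⟨z, rfl⟩ := e.surjective y
      rw [e.symm_apply_apply] at hy
      have a2 := m3 r hr z
      have a3 : ∑ m ∈ Finset.range L', rho (((conjHom e he R) ^ ((m:ℤ) + r)).1 (e z))
          (((conjHom e he R) ^ (m:ℤ)).1 (e z)) ≤ ∑ m ∈ Finset.range L', (2 * ε +
            rho (p ((R ^ ((m:ℤ) + r)).1 z)) (p ((R ^ (m:ℤ)).1 z))) := by
        refine Finset.sum_le_sum fun m _ => ?_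
        rw [hpow, hpow]
        have t1 := rho_triangle (e ((R ^ ((m:ℤ) + r)).1 z)) (p ((R ^ ((m:ℤ) + r)).1 z))
          (e ((R ^ (m:ℤ)).1 z))
        have t2 := rho_triangle (p ((R ^ ((m:ℤ) + r)).1 z)) (p ((R ^ (m:ℤ)).1 z))
          (e ((R ^ (m:ℤ)).1 z))
        rw [rho_comm (p ((R ^ (m:ℤ)).1 z))] at t2
        linarith [hy ((m:ℤ) + r), hy m]
      rw [Finset.sum_add_distrib, Finset.sum_const, Finset.card_range, nsmul_eq_mul] at a3
      have hL'0 : (0:ℝ) ≤ L' := Nat.cast_nonneg _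
      have b1 := mul_le_mul_of_nonneg_right hγ hL'0
      have b2 := mul_le_mul_of_nonneg_right hε0 hL'0
      have b3 := mul_nonneg hθ.le hL'0
      nlinarith
  · intro n
    have a2 := m4 n
    have a3 : acc (conjHom e he R) (conjHom e he S0) n ≤ ∑ m ∈ Finset.range n, (2 * ε +
        D ζ (fun z => p ((R ^ (m:ℤ)).1 (S0.1 z))) (fun z => p ((R ^ (m:ℤ)).1 z))) := by
      refine Finset.sum_le_sum fun m _ => ?_
      rw [← map_zpow, ← map_mul]
      unfold d1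
      rw [← D_comp he (MP.meas _) (MP.meas _)]
      simp only [conjHom_apply]
      have t1 := D_triangle (ζ := ζ) (p := fun z => e ((R ^ (m:ℤ) * S0).1 z))
        (q := fun z => p ((R ^ (m:ℤ) * S0).1 z))
        (r := fun z => e ((R ^ (m:ℤ)).1 z)) (e.measurable.comp (MP.meas _))
        (hpm.measurable.comp (MP.meas _)) (e.measurable.comp (MP.meas _))
      have t2 := D_triangle (ζ := ζ) (p := fun z => p ((R ^ (m:ℤ) * S0).1 z))
        (q := fun z => p ((R ^ (m:ℤ)).1 z))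
        (r := fun z => e ((R ^ (m:ℤ)).1 z)) (hpm.measurable.comp (MP.meas _))
        (hpm.measurable.comp (MP.meas _)) (e.measurable.comp (MP.meas _))
      have t3 := hD (R ^ (m:ℤ))
      rw [D_comm] at t3
      have t4 := hD (R ^ (m:ℤ) * S0)
      have t5 : D ζ (fun z => p ((R ^ (m:ℤ) * S0).1 z)) (fun z => p ((R ^ (m:ℤ)).1 z)) =
        D ζ (fun z => p ((R ^ (m:ℤ)).1 (S0.1 z))) (fun z => p ((R ^ (m:ℤ)).1 z)) := rfl
      linarith
    rw [Finset.sum_add_distrib, Finset.sum_const, Finset.card_range, nsmul_eq_mul] at a3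
    have hn0 : (0:ℝ) ≤ n := Nat.cast_nonneg _
    have b0 : (L:ℝ) * ∑ j, (3:ℝ) / l j ≤ θ / 4 := by nlinarith
    have b1 := mul_le_mul_of_nonneg_right hγ hn0
    have b2 := mul_le_mul_of_nonneg_right hε0 hn0
    have b3 := mul_nonneg hθ.le hn0
    have b4 := mul_le_mul_of_nonneg_right b0 hn0
    nlinarith

theorem perturb {T S : G} {L : ℕ} {η : ℝ} (hη : 0 ≤ η) (hs : St T S L η) {θ : ℝ} (hθ : 0 < θ) :
    ∀ᶠ T' in 𝓝 T, ∃ (S' : G) (κ : ℝ → ℤ) (K : Finset ℤ) (err : ℝ → ℝ), Pw T' S' κ K ∧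
      d1 S' S ≤ θ ∧ Integrable err mu ∧ (∀ y, 0 ≤ err y) ∧ ∫ y, err y ∂mu ≤ θ ∧
      Blk T' K L η err := by
  obtain ⟨κ, K, hp, hb⟩ := hs
  have hκm : Measurable fun x => (κ x : ℝ) :=
    (measurable_of_countable (fun k : ℤ => (k : ℝ))).comp hp.meas
  have hκi : Integrable (fun x => (κ x : ℝ)) mu :=
    integrable_of_bdd hκm (∑ k ∈ K, |(k : ℝ)|) fun x =>
      Finset.single_le_sum (f := fun k : ℤ => |(k : ℝ)|) (fun _ _ => abs_nonneg _) (hp.mem x)
  have hd : ∀ k : ℤ, Tendsto (fun T' : G => d1 (T' ^ k) (T ^ k)) (𝓝 T) (𝓝 0) := fun k =>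
    tendsto_iff_d1.1 ((continuous_zpow k).tendsto T)
  have hI : ∀ k : ℤ, Tendsto (fun T' : G =>
      ∫ x, |(κ ((T' ^ k).1 x) : ℝ) - κ ((T ^ k).1 x)| ∂mu) (𝓝 T) (𝓝 0) := by
    intro k
    rw [Metric.tendsto_nhds]
    intro ε hε
    obtain ⟨C, hC, h⟩ := comp_estimate hκi (ε := ε / 3) (by positivity)
    filter_upwards [(hd k).eventually (gt_mem_nhds (show (0:ℝ) < ε / 3 / C by positivity))]
      with T' hT'
    rw [Real.dist_eq, sub_zero, abs_of_nonneg (integral_nonneg fun _ => abs_nonneg _)]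
    have h1 := h ℝ mu (T' ^ k).1 (T ^ k).1 (MP.mp _) (MP.mp _)
    have h2 : C * d1 (T' ^ k) (T ^ k) ≤ C * (ε / 3 / C) := by gcongr
    rw [mul_div_cancel₀ _ hC.ne'] at h2
    unfold d1 at h2
    linarith
  have t1 : Tendsto (fun T' : G => ∑ k ∈ K, (d1 (T' ^ k) (T ^ k) +
      ∫ x, |(κ ((T' ^ k).1 x) : ℝ) - κ ((T ^ k).1 x)| ∂mu)) (𝓝 T) (𝓝 0) := by
    simpa using tendsto_finsetSum K fun k _ => (hd k).add (hI k)
  have t2 : Tendsto (fun T' : G => ∑ k ∈ K, ∑ m ∈ Finset.range L,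
      (d1 (T' ^ ((m:ℤ) + k)) (T ^ ((m:ℤ) + k)) + d1 (T' ^ (m:ℤ)) (T ^ (m:ℤ)))) (𝓝 T) (𝓝 0) := by
    simpa using tendsto_finsetSum K fun k _ =>
      tendsto_finsetSum (Finset.range L) fun m _ => (hd ((m:ℤ) + k)).add (hd m)
  filter_upwards [t1.eventually (ge_mem_nhds hθ), t2.eventually (ge_mem_nhds hθ)] with T' a1 a2
  let κ' : ℝ → ℤ := fun x => if κ ((T' ^ κ x).1 x) = -κ x then κ x else 0
  have hκ' : Measurable κ' := by
    refine Measurable.ite ?_ hp.meas measurable_const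
    exact measurableSet_eq_fun (hp.meas.comp (measurable_zpow_apply T' hp.meas measurable_id))
      hp.meas.neg
  have hanti : ∀ x, κ' ((T' ^ κ' x).1 x) = -κ' x := by
    intro x
    by_cases hx : κ ((T' ^ κ x).1 x) = -κ x
    · have e1 : κ' x = κ x := if_pos hx
      rw [e1]
      have e2 : κ ((T' ^ κ ((T' ^ κ x).1 x)).1 ((T' ^ κ x).1 x)) = -κ ((T' ^ κ x).1 x) := by
        rw [hx, ← zpow_add_apply, neg_add_cancel, zpow_zero_apply, neg_neg]
      exact (if_pos e2).trans hx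
    · have e1 : κ' x = 0 := if_neg hx
      rw [e1, zpow_zero_apply, e1, neg_zero]
  obtain ⟨S', hS'⟩ := exists_involution T' hκ' hanti
  let err : ℝ → ℝ := fun y => ∑ k ∈ K, ∑ m ∈ Finset.range L,
    (rho ((T' ^ ((m:ℤ) + k)).1 y) ((T ^ ((m:ℤ) + k)).1 y) +
      rho ((T' ^ (m:ℤ)).1 y) ((T ^ (m:ℤ)).1 y))
  have i1 : ∀ (k : ℤ) (m : ℕ), Integrable (fun y =>
      rho ((T' ^ ((m:ℤ) + k)).1 y) ((T ^ ((m:ℤ) + k)).1 y) +
      rho ((T' ^ (m:ℤ)).1 y) ((T ^ (m:ℤ)).1 y)) mu := fun k m =>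
    (integrable_rho (MP.meas _) (MP.meas _)).add (integrable_rho (MP.meas _) (MP.meas _))
  have herr0 : ∀ y, 0 ≤ err y := fun y => Finset.sum_nonneg fun _ _ =>
    Finset.sum_nonneg fun _ _ => add_nonneg (rho_nonneg _ _) (rho_nonneg _ _)
  refine ⟨S', κ', insert 0 K, err, ⟨hκ', fun x => ?_, hanti, hS'⟩, ?_,
    integrable_finsetSum _ fun k _ => integrable_finsetSum _ fun m _ => i1 k m, herr0, ?_, ?_⟩
  · simp only [κ']
    split_ifs
    · exact Finset.mem_insert_of_mem (hp.mem x)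
    · exact Finset.mem_insert_self _ _
  · refine le_trans ?_ a1
    have i2 : ∀ k : ℤ, Integrable (fun x => |(κ ((T' ^ k).1 x) : ℝ) - κ ((T ^ k).1 x)|) mu :=
      fun k => (((MP.mp (T' ^ k)).integrable_comp_of_integrable hκi).sub
        ((MP.mp (T ^ k)).integrable_comp_of_integrable hκi)).abs
    have i3 : ∀ k : ℤ, Integrable (fun x => rho ((T' ^ k).1 x) ((T ^ k).1 x) +
        |(κ ((T' ^ k).1 x) : ℝ) - κ ((T ^ k).1 x)|) mu := fun k =>
      (integrable_rho (MP.meas _) (MP.meas _)).add (i2 k)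
    have e : ∑ k ∈ K, (d1 (T' ^ k) (T ^ k) +
        ∫ x, |(κ ((T' ^ k).1 x) : ℝ) - κ ((T ^ k).1 x)| ∂mu) =
        ∫ x, ∑ k ∈ K, (rho ((T' ^ k).1 x) ((T ^ k).1 x) +
          |(κ ((T' ^ k).1 x) : ℝ) - κ ((T ^ k).1 x)|) ∂mu := by
      rw [integral_finsetSum _ fun k _ => i3 k]
      refine Finset.sum_congr rfl fun k _ => ?_
      rw [integral_add (integrable_rho (MP.meas _) (MP.meas _)) (i2 k)]
      rfl
    rw [e]
    refine integral_mono (integrable_rho (MP.meas _) (MP.meas _))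
      (integrable_finsetSum _ fun k _ => i3 k) fun x => ?_
    refine le_trans ?_ (Finset.single_le_sum (f := fun k : ℤ => rho ((T' ^ k).1 x) ((T ^ k).1 x) +
      |(κ ((T' ^ k).1 x) : ℝ) - κ ((T ^ k).1 x)|)
      (fun _ _ => add_nonneg (rho_nonneg _ _) (abs_nonneg _)) (hp.mem x))
    by_cases hx : κ ((T' ^ κ x).1 x) = -κ x
    · have e1 : κ' x = κ x := if_pos hx
      simp only
      rw [hS', e1, hp.eq]
      linarith [abs_nonneg ((κ ((T' ^ κ x).1 x) : ℝ) - κ ((T ^ κ x).1 x))]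
    · have h1 : (1:ℤ) ≤ |κ ((T' ^ κ x).1 x) - κ ((T ^ κ x).1 x)| := by
        rw [hp.anti]
        exact Int.one_le_abs (sub_ne_zero.2 hx)
      have h2 : (1:ℝ) ≤ |(κ ((T' ^ κ x).1 x) : ℝ) - κ ((T ^ κ x).1 x)| := by exact_mod_cast h1
      simp only
      linarith [rho_le_one (S'.1 x) (S.1 x), rho_nonneg ((T' ^ κ x).1 x) ((T ^ κ x).1 x)]
  · refine le_trans (le_of_eq ?_) a2
    simp only [err]
    rw [integral_finsetSum _ fun k _ => integrable_finsetSum _ fun m _ => i1 k m]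
    refine Finset.sum_congr rfl fun k _ => ?_
    rw [integral_finsetSum _ fun m _ => i1 k m]
    refine Finset.sum_congr rfl fun m _ => ?_
    rw [integral_add (integrable_rho (MP.meas _) (MP.meas _))
      (integrable_rho (MP.meas _) (MP.meas _))]
    rfl
  · intro k hk
    rcases Finset.mem_insert.1 hk with rfl | hk
    · refine Eventually.of_forall fun y => ?_
      simp only [add_zero, rho_self, Finset.sum_const_zero]
      exact add_nonneg (mul_nonneg hη (Nat.cast_nonneg _)) (herr0 y)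
    · filter_upwards [hb k hk] with y hy
      have b1 : ∑ m ∈ Finset.range L,
          (rho ((T' ^ ((m:ℤ) + k)).1 y) ((T ^ ((m:ℤ) + k)).1 y) +
            rho ((T' ^ (m:ℤ)).1 y) ((T ^ (m:ℤ)).1 y)) ≤ err y :=
        Finset.single_le_sum (f := fun k : ℤ => ∑ m ∈ Finset.range L,
          (rho ((T' ^ ((m:ℤ) + k)).1 y) ((T ^ ((m:ℤ) + k)).1 y) +
            rho ((T' ^ (m:ℤ)).1 y) ((T ^ (m:ℤ)).1 y)))
          (fun _ _ => Finset.sum_nonneg fun _ _ => add_nonneg (rho_nonneg _ _) (rho_nonneg _ _)) hk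
      refine le_trans (Finset.sum_le_sum fun m _ => ?_)
        ((Finset.sum_add_distrib.trans_le (add_le_add hy b1)).trans (le_of_eq (by ring)))
      have t1 := rho_triangle ((T' ^ ((m:ℤ) + k)).1 y) ((T ^ ((m:ℤ) + k)).1 y) ((T' ^ (m:ℤ)).1 y)
      have t2 := rho_triangle ((T ^ ((m:ℤ) + k)).1 y) ((T ^ (m:ℤ)).1 y) ((T' ^ (m:ℤ)).1 y)
      rw [rho_comm ((T ^ (m:ℤ)).1 y)] at t2
      linarith

lemma dense_finOrder : Dense {T : G | IsOfFinOrder T} := by
  rw [Metric.dense_iff]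
  intro T ε hε
  obtain ⟨δ, hδ, h⟩ := dist_small_of_d1 T hε
  obtain ⟨T', h1, h2⟩ := exists_periodic_close T hδ
  exact ⟨T', h T' h2, h1⟩

theorem step {T S : G} {L : ℕ} (hL : 0 < L) {η : ℝ} (hη : 0 ≤ η) (hs : St T S L η) {O : Set G}
    (hO : IsOpen O) (hOd : Dense O) {δ η' : ℝ} (hδ : 0 < δ) (hη' : 0 < η') :
    ∃ (T' S' : G) (L' : ℕ), 0 < L' ∧ T' ∈ O ∧ dist T' T < δ ∧ dist S' S < δ ∧ St T' S' L' η' ∧
      ∀ n : ℕ, acc T' S' n ≤ (η + η') * n + L := by
  obtain ⟨δS, hδS, hS⟩ := dist_small_of_d1 S hδ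
  have h1 := perturb hη hs (θ := min (δS / 2) (η' / 2)) (by positivity)
  obtain ⟨V, hV1, hV2, hV3⟩ := mem_nhds_iff.1 (h1.and (Metric.ball_mem_nhds T hδ))
  obtain ⟨T2, ⟨hT2V, hT2O⟩, hT2⟩ := dense_finOrder.inter_open_nonempty (V ∩ O) (hV2.inter hO)
    (hOd.inter_open_nonempty V hV2 ⟨T, hV3⟩)
  obtain ⟨⟨S2, κ, K, err, hp, a1, a2, a3, a4, a5⟩, -⟩ := hV1 hT2V
  obtain ⟨r, hr, hr'⟩ := Metric.isOpen_iff.1 (hV2.inter hO) T2 ⟨hT2V, hT2O⟩
  obtain ⟨δT, hδT, hT⟩ := dist_small_of_d1 T2 hr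
  obtain ⟨T', S', L', b1, b2, b3, ⟨κ', K', b4, b5⟩, b6⟩ := undo hp hL hη a2 a3 a5 hT2
    (θ := min δT (min (δS / 2) (η' / 2))) (by positivity)
  have c1 : min δT (min (δS / 2) (η' / 2)) ≤ δS / 2 := (min_le_right _ _).trans (min_le_left _ _)
  have c2 : min δT (min (δS / 2) (η' / 2)) ≤ η' / 2 := (min_le_right _ _).trans (min_le_right _ _)
  have hT' : T' ∈ V ∩ O := hr' (hT T' (b2.trans (min_le_left _ _)))
  refine ⟨T', S', L', b1, hT'.2, (hV1 hT'.1).2, hS S' ?_, ⟨κ', K', b4, fun k hk => ?_⟩,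
    fun n => (b6 n).trans ?_⟩
  · linarith [d1_triangle S' S2 S, a1.trans (min_le_left _ _)]
  · filter_upwards [b5 k hk] with y hy
    refine hy.trans ?_
    have : min δT (min (δS / 2) (η' / 2)) ≤ η' := by linarith
    gcongr
  · have := a4.trans (min_le_right _ _)
    have h0 : (0:ℝ) ≤ n := Nat.cast_nonneg n
    have h3 : η + ∫ y, err y ∂mu + min δT (min (δS / 2) (η' / 2)) ≤ η + η' := by linarith
    linarith [mul_le_mul_of_nonneg_right h3 h0]

end Pool.Agent.H844Z
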