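import Pool.Agent.H844Z.Base
import Pool.Agent.Helper212.Iso

set_option autoImplicit false
open MeasureTheory Set Filter Topology ProbabilityTheory

namespace Pool.Agent.H844Z

open Pool.Agent.Helper212.Sq

lemma mu_Ioi : mu (Ioi (1:ℝ)) = 0 := by
  rw [Measure.restrict_apply measurableSet_Ioi]
  have : Ioi (1:ℝ) ∩ Icc 0 1 = ∅ := by
    ext x; simp only [mem_inter_iff, mem_Ioi, mem_Icc, mem_empty_iff_false, iff_false]
    rintro ⟨h1, -, h2⟩; linarith
  rw [this, measure_empty]

lemma not_countable_Ioi : ¬ (Ioi (1:ℝ)).Countable := by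
  intro h
  have := h.measure_zero volume
  simp at this

lemma ae_mem_Ioo : ∀ᵐ y ∂mu, y ∈ Ioo (0:ℝ) 1 := by
  have : mu = volume.restrict (Ioo (0:ℝ) 1) := (Measure.restrict_congr_set Ioo_ae_eq_Icc).symm
  rw [this]
  exact ae_restrict_mem measurableSet_Ioo

/-- An element of the group from a measurable equivalence. -/
def ofEquiv {Z : Type*} [MeasurableSpace Z] {ζ : Measure Z} (e : Z ≃ᵐ Z)
    (he : MeasurePreserving e ζ ζ) : MP ζ := ⟨e.toEquiv, he, he.symm⟩

/-- The measurable equivalence of a group element. -/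
def toEquiv {Z : Type*} [MeasurableSpace Z] {ζ : Measure Z} (T : MP ζ) : Z ≃ᵐ Z where
  toEquiv := T.1
  measurable_toFun := T.2.1.measurable
  measurable_invFun := T.2.2.measurable

lemma exists_G_of_ae {f g : ℝ → ℝ} (hf : MeasurePreserving f mu mu) (hg : MeasurePreserving g mu mu)
    (h1 : ∀ᵐ x ∂mu, f (g x) = x) (h2 : ∀ᵐ x ∂mu, g (f x) = x) :
    ∃ T : G, (T.1 : ℝ → ℝ) =ᵐ[mu] f ∧ ((T⁻¹).1 : ℝ → ℝ) =ᵐ[mu] g := by
  obtain ⟨e, he1, he2⟩ := null_modification mu mu f g hf hg h1 h2 (Ioi 1) measurableSet_Ioi mu_Ioi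
    not_countable_Ioi (Ioi 1) measurableSet_Ioi mu_Ioi not_countable_Ioi
  have he : MeasurePreserving e mu mu :=
    hf.congr e.measurable (by filter_upwards [he1] with x hx using hx.symm)
  exact ⟨ofEquiv e he, he1, he2⟩

/-- A limit in the mean of measure preserving maps is measure preserving. -/
lemma mp_of_tendsto {u : ℕ → ℝ → ℝ} (hu : ∀ n, MeasurePreserving (u n) mu mu) {f : ℝ → ℝ}
    (hf : Measurable f) (hf1 : ∀ x, f x ∈ Icc (0:ℝ) 1)
    (h : Tendsto (fun n => D mu (u n) f) atTop (𝓝 0)) : MeasurePreserving f mu mu := by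
  refine ⟨hf, ?_⟩
  have : IsProbabilityMeasure (mu.map f) := Measure.isProbabilityMeasure_map hf.aemeasurable
  refine ext_of_forall_integral_eq_of_IsFiniteMeasure fun g => ?_
  rw [integral_map hf.aemeasurable g.continuous.aestronglyMeasurable]
  have huc : UniformContinuousOn g (Icc (0:ℝ) 1) :=
    isCompact_Icc.uniformContinuousOn_of_continuous g.continuous.continuousOn
  have hgi : ∀ v : ℝ → ℝ, Measurable v → Integrable (fun x => g (v x)) mu := fun v hv =>
    integrable_of_bdd (g.continuous.measurable.comp hv) ‖g‖ fun x => g.norm_coe_le_norm _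
  refine eq_of_forall_dist_le fun ε hε => ?_
  obtain ⟨δ, hδ, hδ'⟩ := Metric.uniformContinuousOn_iff.1 huc (ε / 2) (by positivity)
  have key : ∀ a ∈ Icc (0:ℝ) 1, ∀ b ∈ Icc (0:ℝ) 1,
      |g a - g b| ≤ ε / 2 + (2 * ‖g‖ + 1) / δ * rho a b := by
    intro a ha b hb
    rw [rho_of_mem ha hb]
    by_cases h : |a - b| < δ
    · have := hδ' a ha b hb (by rwa [Real.dist_eq])
      rw [Real.dist_eq] at this
      have h2 : 0 ≤ (2 * ‖g‖ + 1) / δ * |a - b| := by positivity
      linarith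
    · push Not at h
      have h1 : |g a| ≤ ‖g‖ := g.norm_coe_le_norm a
      have h2 : |g b| ≤ ‖g‖ := g.norm_coe_le_norm b
      have h3 : |g a - g b| ≤ |g a| + |g b| := abs_sub _ _
      have h4 : (2 * ‖g‖ + 1) / δ * δ ≤ (2 * ‖g‖ + 1) / δ * |a - b| := by gcongr
      rw [div_mul_cancel₀ _ hδ.ne'] at h4
      linarith
  have hC : 0 < (2 * ‖g‖ + 1) / δ := by positivity
  obtain ⟨n, hn⟩ := (h.eventually (gt_mem_nhds (show (0:ℝ) < ε / 2 / ((2 * ‖g‖ + 1) / δ) by
    positivity))).exists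
  have e1 : ∫ x, g x ∂mu = ∫ x, g (u n x) ∂mu :=
    (integral_comp_mp (hu n) g.continuous.aestronglyMeasurable).symm
  rw [e1, Real.dist_eq, ← integral_sub (hgi f hf) (hgi _ (hu n).measurable)]
  refine (abs_integral_le_integral_abs).trans ?_
  calc ∫ x, |g (f x) - g (u n x)| ∂mu
      ≤ ∫ x, (ε / 2 + (2 * ‖g‖ + 1) / δ * rho (u n x) (f x)) ∂mu := by
        refine integral_mono_ae ((hgi f hf).sub (hgi _ (hu n).measurable)).abs
          ((integrable_const _).add ((integrable_rho (hu n).measurable hf).const_mul _)) ?_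
        filter_upwards [ae_mem_of_mp (hu n)] with x hx
        rw [abs_sub_comm]
        exact key _ hx _ (hf1 x)
    _ = ε / 2 + (2 * ‖g‖ + 1) / δ * D mu (u n) f := by
        rw [integral_add (integrable_const _) ((integrable_rho (hu n).measurable hf).const_mul _),
          integral_const_mul]
        simp [D]
    _ ≤ ε := by
        have : (2 * ‖g‖ + 1) / δ * D mu (u n) f ≤
            (2 * ‖g‖ + 1) / δ * (ε / 2 / ((2 * ‖g‖ + 1) / δ)) := by gcongr
        rw [mul_div_cancel₀ _ hC.ne'] at this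
        linarith

lemma exists_limit {u : ℕ → ℝ → ℝ} (hu : ∀ n, Measurable (u n))
    (h : ∀ ε > 0, ∃ N, ∀ m ≥ N, ∀ n ≥ N, D mu (u m) (u n) < ε) :
    ∃ f : ℝ → ℝ, Measurable f ∧ (∀ x, f x ∈ Icc (0:ℝ) 1) ∧
      Tendsto (fun n => D mu (u n) f) atTop (𝓝 0) := by
  have hi : ∀ n, Integrable (fun x => cl (u n x)) mu := fun n =>
    integrable_of_bdd (measurable_cl.comp (hu n)) 1 fun x => by
      rw [abs_of_nonneg (cl_nonneg _)]; exact cl_le_one _
  let F : ℕ → Lp ℝ 1 mu := fun n => (hi n).toL1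
  have hF : ∀ m n, dist (F m) (F n) = D mu (u m) (u n) := by
    intro m n
    rw [dist_eq_norm, ← Integrable.toL1_sub, L1.norm_of_fun_eq_integral_norm]
    rfl
  have hc : CauchySeq F := by
    rw [Metric.cauchySeq_iff]
    intro ε hε
    obtain ⟨N, hN⟩ := h ε hε
    exact ⟨N, fun m hm n hn => by rw [hF]; exact hN m hm n hn⟩
  obtain ⟨L, hL⟩ := cauchySeq_tendsto_of_complete hc
  let f0 : ℝ → ℝ := (Lp.aestronglyMeasurable L).mk L
  have hf0 : Measurable f0 := (Lp.aestronglyMeasurable L).measurable_mk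
  have hf0' : (L : ℝ → ℝ) =ᵐ[mu] f0 := (Lp.aestronglyMeasurable L).ae_eq_mk
  refine ⟨fun x => cl (f0 x), measurable_cl.comp hf0, fun x => cl_mem _, ?_⟩
  rw [tendsto_iff_dist_tendsto_zero] at hL
  refine squeeze_zero (fun n => D_nonneg _ _) (fun n => ?_) hL
  rw [dist_eq_norm, L1.norm_eq_integral_norm]
  unfold D
  refine integral_mono_ae (integrable_rho (hu n) (measurable_cl.comp hf0))
    (L1.integrable_coeFn _).norm ?_
  filter_upwards [Lp.coeFn_sub (F n) L, (hi n).coeFn_toL1, hf0'] with x h1 h2 h3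
  rw [h1, Pi.sub_apply, h3]
  have h2' : (F n : ℝ → ℝ) x = cl (u n x) := h2
  rw [h2', Real.norm_eq_abs]
  have : rho (u n x) (cl (f0 x)) = rho (cl (u n x)) (f0 x) := by
    unfold rho; rw [cl_of_mem (cl_mem (f0 x)), cl_of_mem (cl_mem (u n x))]
  rw [this]
  exact rho_le_abs _ _

lemma ae_inverse_of_tendsto {u v : ℕ → ℝ → ℝ} (hu : ∀ n, MeasurePreserving (u n) mu mu)
    (hv : ∀ n, MeasurePreserving (v n) mu mu) (huv : ∀ n x, u n (v n x) = x) {f g : ℝ → ℝ}
    (hf : MeasurePreserving f mu mu) (hg : MeasurePreserving g mu mu)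
    (h1 : Tendsto (fun n => D mu (u n) f) atTop (𝓝 0))
    (h2 : Tendsto (fun n => D mu (v n) g) atTop (𝓝 0)) : ∀ᵐ x ∂mu, f (g x) = x := by
  refine ae_eq_of_D_eq_zero (p := fun x => f (g x)) (q := fun x => x) (hf.comp hg)
    (MeasurePreserving.id mu) ?_
  refine le_antisymm (le_of_forall_pos_le_add fun ε hε => ?_) (D_nonneg _ _)
  obtain ⟨δ, hδ, h⟩ := D_comp_small hf.measurable (ε := ε / 2) (by positivity)
  obtain ⟨n, hn1, hn2⟩ := ((h1.eventually (gt_mem_nhds (show (0:ℝ) < ε / 2 by positivity))).and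
    (h2.eventually (ge_mem_nhds hδ))).exists
  have a1 := h ℝ mu g (v n) hg (hv n) (by rwa [D_comm])
  have a2 : D mu (fun x => f (v n x)) (fun x => u n (v n x)) = D mu f (u n) :=
    D_comp (hv n) hf.measurable (hu n).measurable
  have a3 : (fun x => u n (v n x)) = fun x => x := funext (huv n)
  rw [a3, D_comm f] at a2
  have t := D_triangle (ζ := mu) (p := fun x => f (g x)) (q := fun x => f (v n x))
    (r := fun x => x) (hf.comp hg).measurable (hf.comp (hv n)).measurable measurable_id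
  linarith

instance : CompleteSpace G := by
  refine Metric.complete_of_cauchySeq_tendsto fun u hu => ?_
  rw [Metric.cauchySeq_iff] at hu
  obtain ⟨f, hf, hf1, hfl⟩ := exists_limit (u := fun n => (u n).1) (fun n => MP.meas (u n))
    (fun ε hε => by
      obtain ⟨N, hN⟩ := hu ε hε
      exact ⟨N, fun m hm n hn => (d1_le_dist _ _).trans_lt (hN m hm n hn)⟩)
  obtain ⟨g, hg, hg1, hgl⟩ := exists_limit (u := fun n => ((u n)⁻¹).1) (fun n => MP.meas (u n)⁻¹)
    (fun ε hε => by
      obtain ⟨N, hN⟩ := hu ε hε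
      refine ⟨N, fun m hm n hn => (d1_le_dist _ _).trans_lt ?_⟩
      rw [dist_inv_inv']; exact hN m hm n hn)
  have mf := mp_of_tendsto (fun n => MP.mp (u n)) hf hf1 hfl
  have mg := mp_of_tendsto (fun n => MP.mp (u n)⁻¹) hg hg1 hgl
  have i1 := ae_inverse_of_tendsto (fun n => MP.mp (u n)) (fun n => MP.mp (u n)⁻¹)
    (fun n x => MP.apply_inv_self _ _) mf mg hfl hgl
  have i2 := ae_inverse_of_tendsto (fun n => MP.mp (u n)⁻¹) (fun n => MP.mp (u n))
    (fun n x => MP.inv_apply_self _ _) mg mf hgl hfl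
  obtain ⟨T, hT, -⟩ := exists_G_of_ae mf mg i1 i2
  refine ⟨T, tendsto_iff_d1.2 ?_⟩
  refine hfl.congr fun n => ?_
  exact D_congr EventuallyEq.rfl hT.symm

section Cdf

variable (ν : Measure ℝ) [IsProbabilityMeasure ν]

/-- The quantile function on the real line. -/
noncomputable def qt (y : ℝ) : ℝ := quant ν (projIcc 0 1 zero_le_one y)

lemma measurable_qt : Measurable (qt ν) :=
  (measurable_quant ν).comp continuous_projIcc.measurable

lemma qt_le_iff {y : ℝ} (hy : y ∈ Ioo (0:ℝ) 1) (x : ℝ) : qt ν y ≤ x ↔ y ≤ cdf ν x := by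
  have h : ((projIcc 0 1 zero_le_one y : unitInterval) : ℝ) = y := by
    rw [projIcc_of_mem _ (Ioo_subset_Icc_self hy)]
  unfold qt
  rw [quant_le_iff ν (by rw [h]; exact hy.1) (by rw [h]; exact hy.2), h]

lemma qt_mono {y y' : ℝ} (hy : y ∈ Ioo (0:ℝ) 1) (hy' : y' ∈ Ioo (0:ℝ) 1) (h : y ≤ y') :
    qt ν y ≤ qt ν y' :=
  (qt_le_iff ν hy _).2 (h.trans ((qt_le_iff ν hy' _).1 le_rfl))

lemma mp_projIcc : MeasurePreserving (projIcc (0:ℝ) 1 zero_le_one) mu volume := by
  refine ⟨continuous_projIcc.measurable, ?_⟩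
  have h := unitInterval.measurePreserving_coe
  have h' : mu = Measure.map ((↑) : unitInterval → ℝ) volume := h.map_eq.symm
  rw [h', Measure.map_map continuous_projIcc.measurable measurable_subtype_coe]
  have : (projIcc (0:ℝ) 1 zero_le_one) ∘ ((↑) : unitInterval → ℝ) = id := by
    funext x; exact projIcc_val zero_le_one x
  rw [this, Measure.map_id]

lemma mp_qt : MeasurePreserving (qt ν) mu ν :=
  (⟨measurable_quant ν, map_quant ν⟩ : MeasurePreserving (quant ν) volume ν).comp mp_projIcc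

lemma cdf_qt [NullSingletonClass ν] {y : ℝ} (hy : y ∈ Ioo (0:ℝ) 1) : cdf ν (qt ν y) = y := by
  have h : ((projIcc 0 1 zero_le_one y : unitInterval) : ℝ) = y := by
    rw [projIcc_of_mem _ (Ioo_subset_Icc_self hy)]
  unfold qt
  rw [cdf_quant ν (by rw [h]; exact hy.1) (by rw [h]; exact hy.2), h]

lemma mp_cdf [NullSingletonClass ν] : MeasurePreserving (cdf ν) ν mu := by
  have mF : Measurable (cdf ν) := (monotone_cdf ν).measurable
  refine ⟨mF, ?_⟩
  conv_lhs => rw [← (mp_qt ν).map_eq]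
  rw [(mp_qt ν).map_eq]
  have h1 : Measure.map (cdf ν) (Measure.map (qt ν) mu) = mu := by
    rw [Measure.map_map mF (measurable_qt ν)]
    have : (cdf ν) ∘ qt ν =ᵐ[mu] id := by
      filter_upwards [ae_mem_Ioo] with y hy using cdf_qt ν hy
    rw [Measure.map_congr this, Measure.map_id]
  rwa [(mp_qt ν).map_eq] at h1

lemma qt_cdf [NullSingletonClass ν] : ∀ᵐ x ∂ν, qt ν (cdf ν x) = x := by
  have mF : Measurable (cdf ν) := (monotone_cdf ν).measurable
  have hm : MeasurableSet {x | qt ν (cdf ν x) = x} :=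
    measurableSet_eq_fun ((measurable_qt ν).comp mF) measurable_id
  have : ∀ᵐ x ∂(Measure.map (qt ν) mu), qt ν (cdf ν x) = x := by
    rw [ae_map_iff (measurable_qt ν).aemeasurable hm]
    filter_upwards [ae_mem_Ioo] with u hu
    rw [cdf_qt ν hu]
  rwa [(mp_qt ν).map_eq] at this

end Cdf

/-- A standard probability space without atoms and with an uncountable null set. -/
structure Std {Z : Type*} [MeasurableSpace Z] (ζ : Measure Z) : Prop where
  sb : StandardBorelSpace Z
  prob : IsProbabilityMeasure ζ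
  nos : NullSingletonClass ζ
  nul : ∃ M : Set Z, MeasurableSet M ∧ ζ M = 0 ∧ ¬ M.Countable

lemma std_mu : Std mu := ⟨inferInstance, inferInstance, inferInstance,
  ⟨Ioi 1, measurableSet_Ioi, mu_Ioi, not_countable_Ioi⟩⟩

lemma std_prod {Y : Type*} [MeasurableSpace Y] [StandardBorelSpace Y] (ν : Measure Y)
    [IsProbabilityMeasure ν] : Std (ν.prod mu) := by
  refine ⟨inferInstance, inferInstance, inferInstance,
    ⟨univ ×ˢ Ioi 1, MeasurableSet.univ.prod measurableSet_Ioi, by rw [Measure.prod_prod, mu_Ioi, mul_zero], ?_⟩⟩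
  intro hc
  obtain ⟨y⟩ : Nonempty Y := nonempty_of_isProbabilityMeasure ν
  refine not_countable_Ioi ((hc.image Prod.snd).mono ?_)
  intro x hx
  exact ⟨(y, x), ⟨mem_univ _, hx⟩, rfl⟩

theorem exists_iso_cdf {Z : Type*} [MeasurableSpace Z] {ζ : Measure Z} (hζ : Std ζ)
    {j : Z → ℝ} (hj : Measurable j) (hinj : Function.Injective j) :
    ∃ e : Z ≃ᵐ ℝ, MeasurePreserving e ζ mu ∧ (∀ᵐ z ∂ζ, e z = cdf (ζ.map j) (j z)) ∧
      (∀ᵐ y ∂mu, j (e.symm y) = qt (ζ.map j) y) := by
  have := hζ.sb; have := hζ.prob; have := hζ.nos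
  obtain ⟨M, hM, hM0, hMc⟩ := hζ.nul
  have : Nonempty Z := nonempty_of_isProbabilityMeasure ζ
  have hemb : MeasurableEmbedding j := hj.measurableEmbedding hinj
  set ν := ζ.map j with hν
  have : IsProbabilityMeasure ν := Measure.isProbabilityMeasure_map hj.aemeasurable
  have : NullSingletonClass ν := by
    refine ⟨fun x => ?_⟩
    rw [hν, Measure.map_apply hj (measurableSet_singleton x)]
    exact (Set.subsingleton_singleton.preimage hinj).measure_zero ζ
  have hjm : MeasurePreserving j ζ ν := ⟨hj, rfl⟩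
  have hi : MeasurePreserving hemb.invFun ν ζ := by
    refine ⟨hemb.measurable_invFun, ?_⟩
    rw [hν, Measure.map_map hemb.measurable_invFun hj]
    have : hemb.invFun ∘ j = id := funext hemb.leftInverse_invFun
    rw [this, Measure.map_id]
  have hji : ∀ᵐ t ∂ν, j (hemb.invFun t) = t := by
    have hm : MeasurableSet {t | j (hemb.invFun t) = t} :=
      measurableSet_eq_fun (hj.comp hemb.measurable_invFun) measurable_id
    rw [hν, ae_map_iff hj.aemeasurable hm]
    exact Eventually.of_forall fun z => by rw [hemb.leftInverse_invFun z]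
  have hq : ∀ᵐ y ∂mu, j (hemb.invFun (qt ν y)) = qt ν y :=
    (mp_qt ν).quasiMeasurePreserving.ae hji
  obtain ⟨e, he1, he2⟩ := null_modification ζ mu (fun z => cdf ν (j z))
    (fun y => hemb.invFun (qt ν y)) ((mp_cdf ν).comp hjm) (hi.comp (mp_qt ν))
    (by
      filter_upwards [hq, ae_mem_Ioo] with y h1 h2
      rw [h1, cdf_qt ν h2])
    (by
      filter_upwards [hjm.quasiMeasurePreserving.ae (qt_cdf ν)] with z hz
      rw [hz, hemb.leftInverse_invFun z])
    M hM hM0 hMc (Ioi 1) measurableSet_Ioi mu_Ioi not_countable_Ioi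
  refine ⟨e, ((mp_cdf ν).comp hjm).congr e.measurable
    (by filter_upwards [he1] with x hx using hx.symm), he1, ?_⟩
  filter_upwards [he2, hq] with y h1 h2
  rw [h1, h2]

end Pool.Agent.H844Z
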