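import Pool.Agent.H844Z.Top

set_option autoImplicit false
open MeasureTheory Set Filter Topology ProbabilityTheory

namespace Pool.Agent.H844Z

lemma exists_iso_order {Z : Type*} [MeasurableSpace Z] {ζ : Measure Z} (hζ : Std ζ)
    {l : Z → ℕ} (hl : Measurable l) :
    ∃ e : Z ≃ᵐ ℝ, MeasurePreserving e ζ mu ∧ ∀ᵐ z ∂ζ,
      (ζ.map l).real (Iio (l z)) ≤ e z ∧ e z ≤ (ζ.map l).real (Iio (l z + 1)) := by
  have := hζ.sb; have := hζ.prob
  have hZ : ¬ Countable Z := by
    obtain ⟨M, -, -, hMc⟩ := hζ.nul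
    intro hc
    exact hMc (Set.to_countable M)
  have hR : ¬ Countable ℝ := by rw [not_countable_iff]; infer_instance
  let b : Z ≃ᵐ ℝ := PolishSpace.measurableEquivOfNotCountable hZ hR
  let j : Z → ℝ := fun z => (l z : ℝ) + Real.sigmoid (b z)
  have hj : Measurable j :=
    ((measurable_of_countable (fun n : ℕ => (n : ℝ))).comp hl).add
      (Real.sigmoid_strictMono.monotone.measurable.comp b.measurable)
  have hlt : ∀ z z', l z < l z' → j z < j z' := by
    intro z z' h
    have h1 : (l z : ℝ) + 1 ≤ l z' := by exact_mod_cast h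
    have := Real.sigmoid_lt_one (b z)
    have := Real.sigmoid_pos (b z')
    simp only [j]; linarith
  have hinj : Function.Injective j := by
    intro z z' h
    rcases lt_trichotomy (l z) (l z') with h1 | h1 | h1
    · exact absurd h (hlt _ _ h1).ne
    · simp only [j, h1, add_right_inj] at h
      exact b.injective (Real.sigmoid_injective h)
    · exact absurd h (hlt _ _ h1).ne'
  obtain ⟨e, he, he1, -⟩ := exists_iso_cdf hζ hj hinj
  refine ⟨e, he, ?_⟩
  have : IsProbabilityMeasure (ζ.map j) := Measure.isProbabilityMeasure_map hj.aemeasurable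
  filter_upwards [he1] with z hz
  rw [hz, cdf_eq_real, map_measureReal_apply hj measurableSet_Iic,
    map_measureReal_apply hl measurableSet_Iio, map_measureReal_apply hl measurableSet_Iio]
  constructor
  · exact measureReal_mono fun z' hz' => (hlt _ _ hz').le
  · refine measureReal_mono fun z' hz' => ?_
    by_contra hc
    simp only [mem_preimage, mem_Iio, not_lt] at hc
    exact absurd hz' (not_le.2 (hlt _ _ hc))

lemma exists_iso_label_nat {Z : Type*} [MeasurableSpace Z] {ζ : Measure Z} (hζ : Std ζ)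
    {l : Z → ℕ} (hl : Measurable l) {l' : ℝ → ℕ} (hl' : Measurable l')
    (h : ζ.map l = mu.map l') :
    ∃ e : Z ≃ᵐ ℝ, MeasurePreserving e ζ mu ∧ ∀ᵐ z ∂ζ, l' (e z) = l z := by
  obtain ⟨e1, he1, h1⟩ := exists_iso_order hζ hl
  obtain ⟨e2, he2, h2⟩ := exists_iso_order std_mu hl'
  have hm : MeasurePreserving (e1.trans e2.symm) ζ mu := he2.symm.comp he1
  refine ⟨e1.trans e2.symm, hm, ?_⟩
  rw [h] at h1
  set c : ℕ → ℝ := fun n => (mu.map l').real (Iio n) with hc
  have hcm : Monotone c := fun a b hab => measureReal_mono (Iio_subset_Iio hab)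
  have h3 : ∀ᵐ y ∂mu, y ∉ range c := by
    rw [← measure_eq_zero_iff_ae_notMem]
    exact (countable_range c).measure_zero mu
  filter_upwards [h1, hm.quasiMeasurePreserving.ae h2, he1.quasiMeasurePreserving.ae h3]
    with z a1 a2 a3
  have e0 : e2 ((e1.trans e2.symm) z) = e1 z := by simp
  rw [e0] at a2
  set x := (e1.trans e2.symm) z
  rcases lt_trichotomy (l' x) (l z) with h4 | h4 | h4
  · exact absurd ⟨l z, le_antisymm a1.1 (a2.2.trans (hcm h4))⟩ a3
  · exact h4
  · exact absurd ⟨l' x, le_antisymm a2.1 (a1.2.trans (hcm h4))⟩ a3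

lemma exists_iso_label {Z : Type*} [MeasurableSpace Z] {ζ : Measure Z} (hζ : Std ζ)
    {L : Type*} [Countable L] [MeasurableSpace L] [MeasurableSingletonClass L]
    {l : Z → L} (hl : Measurable l) {l' : ℝ → L} (hl' : Measurable l')
    (h : ζ.map l = mu.map l') :
    ∃ e : Z ≃ᵐ ℝ, MeasurePreserving e ζ mu ∧ ∀ᵐ z ∂ζ, l' (e z) = l z := by
  obtain ⟨i, hi⟩ := Countable.exists_injective_nat L
  have him : Measurable i := measurable_of_countable i
  obtain ⟨e, he, h1⟩ := exists_iso_label_nat hζ (him.comp hl) (him.comp hl')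
    (by rw [← Measure.map_map him hl, ← Measure.map_map him hl', h])
  refine ⟨e, he, ?_⟩
  filter_upwards [h1] with z hz using hi hz

/-- A factor map onto the interval is uniformly close to an isomorphism. -/
lemma exists_iso_close {Z : Type*} [MeasurableSpace Z] {ζ : Measure Z} (hζ : Std ζ)
    {p : Z → ℝ} (hp : MeasurePreserving p ζ mu) {ε : ℝ} (hε : 0 < ε) :
    ∃ e : Z ≃ᵐ ℝ, MeasurePreserving e ζ mu ∧ ∀ᵐ z ∂ζ, rho (e z) (p z) ≤ ε := by
  obtain ⟨m, hm⟩ := exists_nat_one_div_lt hε
  obtain ⟨e, he, h⟩ := exists_iso_label_nat hζ ((measurable_cell (m + 1)).comp hp.measurable)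
    (measurable_cell (m + 1))
    (by rw [← Measure.map_map (measurable_cell _) hp.measurable, hp.map_eq])
  refine ⟨e, he, ?_⟩
  filter_upwards [h] with z hz
  have := rho_le_of_cell_eq (Nat.succ_pos m) hz
  push_cast at this
  linarith

/-- Transport of automorphisms along an isomorphism. -/
def conjHom {Z : Type*} [MeasurableSpace Z] {ζ : Measure Z} (e : Z ≃ᵐ ℝ)
    (he : MeasurePreserving e ζ mu) : MP ζ →* G where
  toFun R := ⟨e.toEquiv.permCongr R.1, he.comp ((MP.mp R).comp he.symm),
    he.comp ((MP.mp R⁻¹).comp he.symm)⟩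
  map_one' := by
    apply Subtype.ext; ext x; simp
  map_mul' R S := by
    apply Subtype.ext; ext x; simp

lemma conjHom_apply {Z : Type*} [MeasurableSpace Z] {ζ : Measure Z} (e : Z ≃ᵐ ℝ)
    (he : MeasurePreserving e ζ mu) (R : MP ζ) (z : Z) :
    (conjHom e he R).1 (e z) = e (R.1 z) := by
  show e (R.1 (e.symm (e z))) = _
  rw [e.symm_apply_apply]

/-- The product of an automorphism with the identity. -/
def liftHom {Y : Type*} [MeasurableSpace Y] (ν : Measure Y) [SFinite ν] :
    MP ν →* MP (ν.prod mu) where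
  toFun φ := ⟨Equiv.prodCongr φ.1 (Equiv.refl ℝ), (MP.mp φ).prod (MeasurePreserving.id mu),
    (MP.mp φ⁻¹).prod (MeasurePreserving.id mu)⟩
  map_one' := by
    apply Subtype.ext; ext x <;> simp
  map_mul' R S := by
    apply Subtype.ext; ext x <;> simp

/-- The cell index as an element of `Fin (m + 1)`. -/
noncomputable def cf (m : ℕ) (y : ℝ) : Fin (m + 1) :=
  ⟨min (cell (m + 1) y) m, Nat.lt_succ_of_le (min_le_right _ _)⟩

lemma measurable_cf (m : ℕ) : Measurable (cf m) :=
  (measurable_of_countable (fun k : ℕ => (⟨min k m, Nat.lt_succ_of_le (min_le_right _ _)⟩ :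
    Fin (m + 1)))).comp (measurable_cell (m + 1))

lemma cf_eq_iff {m : ℕ} {y : ℝ} (hy : y ∈ Ioo (0:ℝ) 1) (i : Fin (m + 1)) :
    cf m y = i ↔ y ∈ Ico ((i : ℝ) / (m + 1)) (((i : ℝ) + 1) / (m + 1)) := by
  have hm : (0:ℝ) < m + 1 := by positivity
  have h1 : cell (m + 1) y = ⌊y * (m + 1)⌋₊ := by
    unfold cell; rw [cl_of_mem (Ioo_subset_Icc_self hy)]; push_cast; rfl
  have h0 : 0 ≤ y * (m + 1) := mul_nonneg hy.1.le hm.le
  have h2 : cell (m + 1) y ≤ m := by
    rw [h1, ← Nat.lt_succ_iff, Nat.floor_lt h0]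
    push_cast
    nlinarith [hy.2]
  rw [Fin.ext_iff]
  show min (cell (m + 1) y) m = i ↔ _
  rw [min_eq_left h2, h1, Nat.floor_eq_iff h0, mem_Ico, div_le_iff₀ hm, lt_div_iff₀ hm]

lemma rho_le_of_cf_eq {m : ℕ} {x y : ℝ} (hx : x ∈ Ioo (0:ℝ) 1) (hy : y ∈ Ioo (0:ℝ) 1)
    (h : cf m x = cf m y) : rho x y ≤ 1 / (m + 1) := by
  have h1 := (cf_eq_iff hx _).1 h
  have h2 := (cf_eq_iff hy (cf m y)).1 rfl
  refine (rho_le_abs _ _).trans ?_
  have : ((cf m y : ℝ) + 1) / (m + 1) = (cf m y : ℝ) / (m + 1) + 1 / (m + 1) := by ring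
  rw [this] at h1 h2
  rw [abs_le]
  constructor <;> linarith [h1.1, h1.2, h2.1, h2.2]

lemma mu_cf (m : ℕ) (i : Fin (m + 1)) : mu.real (cf m ⁻¹' {i}) = 1 / (m + 1) := by
  have hm : (0:ℝ) < m + 1 := by positivity
  have h1 : cf m ⁻¹' {i} =ᵐ[mu] Ico ((i : ℝ) / (m + 1)) (((i : ℝ) + 1) / (m + 1)) := by
    filter_upwards [ae_mem_Ioo] with y hy
    exact propext (cf_eq_iff hy i)
  rw [measureReal_congr h1, measureReal_def, Measure.restrict_apply measurableSet_Ico]
  have hi : (i : ℝ) + 1 ≤ m + 1 := by exact_mod_cast i.2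
  have : Ico ((i : ℝ) / (m + 1)) (((i : ℝ) + 1) / (m + 1)) ∩ Icc 0 1 =
      Ico ((i : ℝ) / (m + 1)) (((i : ℝ) + 1) / (m + 1)) := by
    refine inter_eq_left.2 fun y hy => ⟨le_trans (by positivity) hy.1, hy.2.le.trans ?_⟩
    rwa [div_le_one hm]
  rw [this, Real.volume_Ico, ENNReal.toReal_ofReal (by rw [← sub_div, add_sub_cancel_left]; positivity)]
  field_simp; ring

/-- Periodic automorphisms are dense. -/
theorem exists_periodic_close (T : G) {ε : ℝ} (hε : 0 < ε) :
    ∃ T' : G, IsOfFinOrder T' ∧ d1 T' T ≤ ε := by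
  classical
  obtain ⟨m, hm⟩ := exists_nat_one_div_lt hε
  have hm0 : (0:ℝ) < m + 1 := by positivity
  let l' : ℝ → Fin (m + 1) × Fin (m + 1) := fun x => (cf m x, cf m (T.1 x))
  have hl' : Measurable l' := (measurable_cf m).prodMk ((measurable_cf m).comp (MP.meas T))
  let A : Matrix (Fin (m + 1)) (Fin (m + 1)) ℝ := fun i j => (m + 1) * mu.real (l' ⁻¹' {(i, j)})
  have hA : A ∈ doublyStochastic ℝ (Fin (m + 1)) := by
    rw [mem_doublyStochastic_iff_sum]
    refine ⟨fun i j => by simp only [A]; positivity, fun i => ?_, fun j => ?_⟩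
    · simp only [A]
      rw [← Finset.mul_sum]
      have := sum_measureReal_preimage_singleton (μ := mu) ((Finset.univ).image fun j => (i, j))
        (f := l') (fun y _ => hl' (measurableSet_singleton y))
      rw [Finset.sum_image (fun a _ b _ h => by simpa using h)] at this
      rw [this]
      have e : l' ⁻¹' ↑((Finset.univ : Finset (Fin (m + 1))).image fun j => (i, j)) =
          cf m ⁻¹' {i} := by
        ext x; simp [l', eq_comm]
      rw [e, mu_cf]; field_simp
    · simp only [A]
      rw [← Finset.mul_sum]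
      have := sum_measureReal_preimage_singleton (μ := mu) ((Finset.univ).image fun i => (i, j))
        (f := l') (fun y _ => hl' (measurableSet_singleton y))
      rw [Finset.sum_image (fun a _ b _ h => by simpa using h)] at this
      rw [this]
      have e : l' ⁻¹' ↑((Finset.univ : Finset (Fin (m + 1))).image fun i => (i, j)) =
          (T.1 : ℝ → ℝ) ⁻¹' (cf m ⁻¹' {j}) := by
        ext x; simp [l', eq_comm]
      rw [e, (MP.mp T).measureReal_preimage
        (measurable_cf m (measurableSet_singleton j)).nullMeasurableSet, mu_cf]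
      field_simp
  obtain ⟨w, hw0, hw1, hw2⟩ := exists_eq_sum_perm_of_mem_doublyStochastic hA
  let : MeasurableSpace (Equiv.Perm (Fin (m + 1))) := ⊤
  have : DiscreteMeasurableSpace (Equiv.Perm (Fin (m + 1))) := ⟨fun _ => trivial⟩
  let F := Fin (m + 1) × Equiv.Perm (Fin (m + 1))
  let ν : Measure F := ∑ a : F, ENNReal.ofReal (w a.2 / (m + 1)) • Measure.dirac a
  have hν : ∀ s : Set F, ν s = ∑ a : F, s.indicator (fun a => ENNReal.ofReal (w a.2 / (m + 1))) a := by
    intro s
    simp only [ν, Measure.coe_finsetSum, Finset.sum_apply, Measure.smul_apply, smul_eq_mul]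
    refine Finset.sum_congr rfl fun a _ => ?_
    rw [Measure.dirac_apply' _ MeasurableSet.of_discrete]
    by_cases h : a ∈ s <;> simp [h]
  have hν1 : ∀ a : F, ν {a} = ENNReal.ofReal (w a.2 / (m + 1)) := by
    intro a
    rw [hν, Finset.sum_eq_single a (fun b _ hb => by simp [hb]) (by simp)]
    simp
  have : IsProbabilityMeasure ν := by
    refine ⟨?_⟩
    rw [hν]
    simp only [indicator_univ]
    rw [← ENNReal.ofReal_sum_of_nonneg (fun a _ => div_nonneg (hw0 _) hm0.le), Fintype.sum_prod_type]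
    simp only [← Finset.sum_div, hw1]
    simp only [Finset.sum_const, Finset.card_univ, Fintype.card_fin, nsmul_eq_mul]
    push_cast
    rw [mul_one, div_self hm0.ne', ENNReal.ofReal_one]
  let φ0 : Equiv.Perm F :=
    { toFun := fun a => (a.2 a.1, a.2)
      invFun := fun a => (a.2.symm a.1, a.2)
      left_inv := fun a => by simp
      right_inv := fun a => by simp }
  have hmp : ∀ ψ : Equiv.Perm F, (∀ a, (ψ a).2 = a.2) → MeasurePreserving ψ ν ν := by
    intro ψ hψ
    refine ⟨Measurable.of_discrete, Measure.ext_of_singleton fun a => ?_⟩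
    rw [Measure.map_apply Measurable.of_discrete (measurableSet_singleton a)]
    have : ψ ⁻¹' {a} = {ψ.symm a} := by
      ext b; simp [Equiv.eq_symm_apply]
    rw [this, hν1, hν1, ← hψ (ψ.symm a), Equiv.apply_symm_apply]
  let φ : MP ν := ⟨φ0, hmp φ0 fun _ => rfl, hmp φ0⁻¹ fun _ => rfl⟩
  let l : F × ℝ → Fin (m + 1) × Fin (m + 1) := fun z => (z.1.1, z.1.2 z.1.1)
  have hl : Measurable l :=
    (Measurable.of_discrete (f := fun a : F => (a.1, a.2 a.1))).comp measurable_fst
  have hdist : (ν.prod mu).map l = mu.map l' := by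
    refine Measure.ext_of_singleton fun ⟨i, j⟩ => ?_
    rw [Measure.map_apply hl (measurableSet_singleton _),
      Measure.map_apply hl' (measurableSet_singleton _)]
    have e1 : l ⁻¹' {(i, j)} = {a : F | a.1 = i ∧ a.2 a.1 = j} ×ˢ univ := by
      ext z; simp [l]
    rw [e1, Measure.prod_prod, measure_univ, mul_one, hν, Fintype.sum_prod_type,
      Finset.sum_eq_single i (fun b _ hb => by simp [hb]) (by simp)]
    have e2 : mu (l' ⁻¹' {(i, j)}) = ENNReal.ofReal (A i j / (m + 1)) := by
      simp only [A]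
      rw [mul_div_cancel_left₀ _ hm0.ne', ofReal_measureReal]
    rw [e2, ← hw2, Matrix.sum_apply, Finset.sum_div,
      ENNReal.ofReal_sum_of_nonneg (fun σ _ => div_nonneg (by
        rw [Matrix.smul_apply, smul_eq_mul]
        exact mul_nonneg (hw0 σ) (nonneg_of_mem_doublyStochastic permMatrix_mem_doublyStochastic))
        hm0.le)]
    refine Finset.sum_congr rfl fun σ _ => ?_
    by_cases h : σ i = j
    · simp [h, PEquiv.toMatrix_apply]
    · simp [h, PEquiv.toMatrix_apply]
  obtain ⟨e, he, hel⟩ := exists_iso_label (std_prod ν) hl hl' hdist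
  let R := liftHom ν φ
  refine ⟨conjHom e he R, ?_, ?_⟩
  · exact (conjHom e he).isOfFinOrder ((liftHom ν).isOfFinOrder (isOfFinOrder_of_finite φ))
  · unfold d1
    rw [← D_comp he (MP.meas _) (MP.meas T)]
    unfold D
    calc ∫ z, rho ((conjHom e he R).1 (e z)) (T.1 (e z)) ∂(ν.prod mu)
        ≤ ∫ _z, ε ∂(ν.prod mu) := by
          refine integral_mono_ae (integrable_rho ((MP.meas _).comp e.measurable)
            ((MP.meas T).comp e.measurable)) (integrable_const _) ?_
          filter_upwards [hel, (MP.mp R).quasiMeasurePreserving.ae hel,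
            (he.comp (MP.mp R)).quasiMeasurePreserving.ae ae_mem_Ioo,
            ((MP.mp T).comp he).quasiMeasurePreserving.ae ae_mem_Ioo] with z h1 h2 h3 h4
          rw [conjHom_apply]
          refine (rho_le_of_cf_eq (m := m) h3 h4 ?_).trans hm.le
          have a1 := congrArg Prod.snd h1
          have a2 := congrArg Prod.fst h2
          exact a2.trans a1.symm
      _ = ε := by simp

end Pool.Agent.H844Z
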