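import Pool.Agent.H844Z.Label
import Pool.Agent.H844Z.Gadget

set_option autoImplicit false
open MeasureTheory Set Filter Topology
open scoped Classical

namespace Pool.Agent.H844Z

section Inv
variable {Z : Type*} [MeasurableSpace Z] {ζ : Measure Z}

lemma measurable_zpow_apply (R : MP ζ) {Z' : Type*} [MeasurableSpace Z'] {κ : Z' → ℤ}
    (hκ : Measurable κ) {f : Z' → Z} (hf : Measurable f) :
    Measurable fun z => (R ^ κ z).1 (f z) :=
  (measurable_from_prod_countable_right (f := fun p : ℤ × Z => (R ^ p.1).1 p.2)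
    (fun k => MP.meas (R ^ k))).comp (hκ.prodMk hf)

lemma zpow_add_apply (R : MP ζ) (a b : ℤ) (z : Z) :
    (R ^ (a + b)).1 z = (R ^ a).1 ((R ^ b).1 z) := by rw [zpow_add]; rfl

lemma zpow_zero_apply (R : MP ζ) (z : Z) : (R ^ (0:ℤ)).1 z = z := by rw [zpow_zero]; rfl

lemma exists_involution (R : MP ζ) {κ : Z → ℤ} (hκ : Measurable κ)
    (h : ∀ z, κ ((R ^ κ z).1 z) = -κ z) : ∃ S : MP ζ, ∀ z, S.1 z = (R ^ κ z).1 z := by
  have hinv : Function.Involutive fun z => (R ^ κ z).1 z := by
    intro z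
    simp only
    rw [h, ← zpow_add_apply, neg_add_cancel, zpow_zero_apply]
  have hm : Measurable fun z => (R ^ κ z).1 z := measurable_zpow_apply R hκ measurable_id
  have hmp : MeasurePreserving (fun z => (R ^ κ z).1 z) ζ ζ := by
    refine ⟨hm, Measure.ext fun A hA => ?_⟩
    rw [Measure.map_apply hm hA]
    have hB : ∀ k : ℤ, MeasurableSet (κ ⁻¹' {-k} ∩ A) := fun k =>
      (hκ (measurableSet_singleton _)).inter hA
    have e1 : (fun z => (R ^ κ z).1 z) ⁻¹' A =
        ⋃ k : ℤ, ((R ^ k).1 : Z → Z) ⁻¹' (κ ⁻¹' {-k} ∩ A) := by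
      ext z
      simp only [mem_preimage, mem_iUnion, mem_inter_iff, mem_singleton_iff]
      constructor
      · intro hz
        exact ⟨κ z, h z, hz⟩
      · rintro ⟨k, h1, h2⟩
        have h3 := h ((R ^ k).1 z)
        rw [h1, ← zpow_add_apply, neg_add_cancel, zpow_zero_apply, neg_neg] at h3
        rwa [h3]
    have e2 : A = ⋃ k : ℤ, (κ ⁻¹' {-k} ∩ A) := by
      ext z
      simp only [mem_preimage, mem_iUnion, mem_inter_iff, mem_singleton_iff]
      exact ⟨fun hz => ⟨-κ z, (neg_neg _).symm, hz⟩, fun ⟨_, _, h2⟩ => h2⟩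
    rw [e1, measure_iUnion _ (fun k => (MP.meas (R ^ k)) (hB k))]
    · conv_rhs => rw [e2]
      rw [measure_iUnion _ hB]
      · exact tsum_congr fun k => (MP.mp (R ^ k)).measure_preimage (hB k).nullMeasurableSet
      · intro a b hab
        refine Set.disjoint_left.2 fun z h1 h2 => hab ?_
        have := h1.1.symm.trans h2.1
        simpa using this
    · intro a b hab
      refine Set.disjoint_left.2 fun z h1 h2 => hab ?_
      have h3 := h ((R ^ a).1 z)
      have h4 := h ((R ^ b).1 z)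
      have h1' : κ ((R ^ a).1 z) = -a := h1.1
      have h2' : κ ((R ^ b).1 z) = -b := h2.1
      rw [h1', ← zpow_add_apply, neg_add_cancel, zpow_zero_apply, neg_neg] at h3
      rw [h2', ← zpow_add_apply, neg_add_cancel, zpow_zero_apply, neg_neg] at h4
      exact h3.symm.trans h4
  exact ⟨⟨hinv.toPerm, hmp, hmp⟩, fun z => rfl⟩

/-- `S` is an involution that is piecewise a power of `T`, with exponents in `K`. -/
structure Pw (T S : MP ζ) (κ : Z → ℤ) (K : Finset ℤ) : Prop where
  meas : Measurable κ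
  mem : ∀ x, κ x ∈ K
  anti : ∀ x, κ ((T ^ κ x).1 x) = -κ x
  eq : ∀ x, S.1 x = (T ^ κ x).1 x

lemma zpow_eq_of_dvd {T : MP ζ} {h : ℕ} (hT : T ^ h = 1) {a b : ℤ} (hab : (h : ℤ) ∣ a - b) :
    T ^ a = T ^ b := by
  obtain ⟨c, hc⟩ := hab
  have : a = h * c + b := by rw [← hc]; ring
  rw [this, zpow_add, zpow_mul, zpow_natCast, hT, one_zpow, one_mul]

end Inv

/-- The block inequality. -/
def Blk (T : G) (K : Finset ℤ) (L : ℕ) (η : ℝ) (err : ℝ → ℝ) : Prop :=
  ∀ k ∈ K, ∀ᵐ y ∂mu, ∑ m ∈ Finset.range L,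
    rho ((T ^ ((m:ℤ) + k)).1 y) ((T ^ (m:ℤ)).1 y) ≤ η * L + err y

/-- The uniform measure on a finite cyclic group. -/
noncomputable def unif (q : ℕ) : Measure (ZMod q) := ((q : ENNReal)⁻¹) • Measure.count

instance (q : ℕ) [NeZero q] : IsProbabilityMeasure (unif q) := by
  refine ⟨?_⟩
  simp only [unif, Measure.smul_apply, smul_eq_mul, Measure.count_univ, ENat.card_eq_coe_fintype_card,
    ZMod.card, ENat.toENNReal_coe]
  exact ENNReal.inv_mul_cancel (by exact_mod_cast NeZero.ne q) (ENNReal.natCast_ne_top q)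

instance (q : ℕ) [NeZero q] : (unif q).IsAddRightInvariant := by
  unfold unif; infer_instance

lemma unif_real (q : ℕ) [NeZero q] (P : ZMod q → Prop) :
    (unif q).real {s | P s} = ((Finset.univ.filter P).card : ℝ) / q := by
  have : {s | P s} = ↑(Finset.univ.filter P) := by ext s; simp
  rw [this, measureReal_def, unif, Measure.smul_apply, Measure.count_apply_finset, smul_eq_mul,
    ENNReal.toReal_mul, ENNReal.toReal_inv]
  simp [div_eq_inv_mul]

section Model

variable {d : ℕ} (q : Fin d → ℕ) [∀ j, NeZero (q j)]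

/-- The product of the cyclic groups. -/
abbrev YY : Type := ∀ j : Fin d, ZMod (q j)

/-- The uniform measure on the product. -/
noncomputable abbrev nuY : Measure (YY q) := Measure.pi fun j => unif (q j)

/-- The product rotation. -/
noncomputable def rot (T : G) (r : ℤ) : MP ((nuY q).prod mu) :=
  ⟨Equiv.prodCongr (Equiv.addRight ((r : ℤ) : YY q)) (T ^ r).1,
    (measurePreserving_add_right (nuY q) _).prod (MP.mp (T ^ r)),
    (measurePreserving_add_right (nuY q) (-((r : ℤ) : YY q))).prod (MP.mp (T ^ r)⁻¹)⟩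

lemma rot_add (T : G) (a b : ℤ) : rot q T (a + b) = rot q T a * rot q T b := by
  apply Subtype.ext
  ext z
  · show (z.1 + ((a + b : ℤ) : YY q)) _ = (z.1 + (b : YY q) + (a : YY q)) _
    rw [Int.cast_add, add_assoc, add_comm (a : YY q)]
  · show (T ^ (a + b)).1 z.2 = (T ^ a).1 ((T ^ b).1 z.2)
    exact zpow_add_apply _ _ _ _

lemma rot_zpow (T : G) (r : ℤ) : (rot q T 1) ^ r = rot q T r := by
  have h0 : rot q T 0 = 1 := by
    have := rot_add q T 0 0
    rw [add_zero] at this
    exact mul_eq_left.1 this.symm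
  induction r using Int.induction_on with
  | zero => rw [zpow_zero, h0]
  | succ n ih => rw [zpow_add_one, ih, rot_add]
  | pred n ih =>
    rw [zpow_sub_one, ih, mul_inv_eq_iff_eq_mul, ← rot_add]; congr 1; ring

lemma rot_apply (T : G) (r : ℤ) (z : YY q × ℝ) :
    ((rot q T 1) ^ r).1 z = (z.1 + (r : YY q), (T ^ r).1 z.2) := by
  rw [rot_zpow]; rfl

lemma mp_skew (T : G) (ψ : YY q → ℤ) :
    MeasurePreserving (fun z : YY q × ℝ => (T ^ ψ z.1).1 z.2) ((nuY q).prod mu) mu := by
  have h1 : MeasurePreserving (fun z : YY q × ℝ => (id z.1, (T ^ ψ z.1).1 z.2))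
      ((nuY q).prod mu) ((nuY q).prod mu) :=
    MeasurePreserving.skew_product (g := fun s x => (T ^ ψ s).1 x) (MeasurePreserving.id _)
      (measurable_zpow_apply T ((measurable_of_countable ψ).comp measurable_fst) measurable_snd)
      (Eventually.of_forall fun s => (MP.mp (T ^ ψ s)).map_eq)
  exact measurePreserving_snd.comp h1

lemma integral_indicator_fst (A : Set (YY q)) :
    ∫ z : YY q × ℝ, A.indicator (1 : YY q → ℝ) z.1 ∂((nuY q).prod mu) = (nuY q).real A := by
  rw [integral_comp_mp (measurePreserving_fst (μ := nuY q) (ν := mu))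
    (f := A.indicator (1 : YY q → ℝ)) (measurable_of_countable _).aestronglyMeasurable,
    ← integral_indicator_one (MeasurableSet.of_discrete)]

lemma integrable_fst (f : YY q → ℝ) :
    Integrable (fun z : YY q × ℝ => f z.1) ((nuY q).prod mu) :=
  (measurePreserving_fst (μ := nuY q) (ν := mu)).integrable_comp_of_integrable
    (g := f) Integrable.of_finite

theorem model {T S : G} {κ : ℝ → ℤ} {K : Finset ℤ} (hp : Pw T S κ K) {L : ℕ} (hL : 0 < L)
    {η : ℝ} (hη : 0 ≤ η) {err : ℝ → ℝ} (herr : Integrable err mu) (herr0 : ∀ y, 0 ≤ err y)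
    (hb : Blk T K L η err) {h : ℕ} (hT : T ^ h = 1) (hd : 0 < d) {W : Fin d → ℕ} {γ α : ℝ}
    (hγ : 0 ≤ γ) {β : Fin d → ℝ} (g : ∀ j, Gadget h (q j) (W j) γ (β j) α) (c : Fin d → ℤ)
    (hc1 : ∀ j, (h : ℤ) ∣ c j) (hc2 : ∀ j, (c j : ZMod (q j)) = 1)
    (hc3 : ∀ j i, i ≠ j → (c j : ZMod (q i)) = 0) {L' : ℕ} (hL' : ∀ j, W j ≤ L') :
    ∃ (R S' : MP ((nuY q).prod mu)) (κ' : YY q × ℝ → ℤ) (K' : Finset ℤ) (p : YY q × ℝ → ℝ),
      MeasurePreserving p ((nuY q).prod mu) mu ∧ Pw R S' κ' K' ∧
      D ((nuY q).prod mu) (fun z => p (R.1 z)) (fun z => T.1 (p z)) ≤ ∑ j, β j ∧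
      D ((nuY q).prod mu) (fun z => p (S'.1 z)) (fun z => S.1 (p z)) ≤ (1 - α) ^ d ∧
      (∀ r ∈ K', ∀ z, ∑ m ∈ Finset.range L',
        rho (p ((R ^ ((m:ℤ) + r)).1 z)) (p ((R ^ (m:ℤ)).1 z)) ≤ 2 * γ * L') ∧
      ∀ n : ℕ, ∑ m ∈ Finset.range n, D ((nuY q).prod mu)
        (fun z => p ((R ^ (m:ℤ)).1 (S'.1 z))) (fun z => p ((R ^ (m:ℤ)).1 z)) ≤
          (η + ∫ y, err y ∂mu + γ + L * ∑ j, β j) * n + L := by
  set ζ := (nuY q).prod mu with hζ
  let ψ : YY q → ℤ := fun s => ∑ j, (g j).psi (s j)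
  let p : YY q × ℝ → ℝ := fun z => (T ^ ψ z.1).1 z.2
  have hpm : MeasurePreserving p ζ mu := mp_skew q T ψ
  let R : MP ζ := rot q T 1
  have hR : ∀ (r : ℤ) z, (R ^ r).1 z = (z.1 + (r : YY q), (T ^ r).1 z.2) := rot_apply q T
  let pick : Set (Fin d) → Fin d := fun A => if hA : A.Nonempty then hA.some else ⟨0, hd⟩
  have hpick : ∀ A : Set (Fin d), A.Nonempty → pick A ∈ A := fun A hA => by
    simp only [pick, dif_pos hA]; exact hA.some_mem
  let J : YY q → Fin d := fun s => pick {j | (g j).act (s j)}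
  let ex : YY q × ℤ → ℤ := fun a =>
    if (g (J a.1)).act (a.1 (J a.1)) then c (J a.1) * (g (J a.1)).t (a.1 (J a.1)) a.2 else 0
  let κ' : YY q × ℝ → ℤ := fun z => ex (z.1, κ (p z))
  have hκ' : Measurable κ' :=
    (measurable_of_countable ex).comp (measurable_fst.prodMk (hp.meas.comp hpm.measurable))
  -- effect of a shift in one coordinate
  have hupd : ∀ (j : Fin d) (t : ℤ) (s : YY q),
      s + ((c j * t : ℤ) : YY q) = Function.update s j (s j + t) := by
    intro j t s
    funext i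
    by_cases hi : i = j
    · subst hi
      simp only [Pi.add_apply, Pi.intCast_apply, Function.update_self]
      push_cast; rw [hc2, one_mul]
    · simp only [Pi.add_apply, Pi.intCast_apply, Function.update_of_ne hi]
      push_cast; rw [hc3 j i hi, zero_mul, add_zero]
  have hψupd : ∀ (j : Fin d) (a : ZMod (q j)) (s : YY q),
      ψ (Function.update s j a) = ψ s + ((g j).psi a - (g j).psi (s j)) := by
    intro j a s
    simp only [ψ]
    rw [← Finset.add_sum_erase _ _ (Finset.mem_univ j),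
      ← Finset.add_sum_erase _ (fun i => (g i).psi (s i)) (Finset.mem_univ j),
      Function.update_self]
    have : ∑ i ∈ Finset.univ.erase j, (g i).psi (Function.update s j a i) =
        ∑ i ∈ Finset.univ.erase j, (g i).psi (s i) :=
      Finset.sum_congr rfl fun i hi => by rw [Function.update_of_ne (Finset.ne_of_mem_erase hi)]
    rw [this]; ring
  have hTc : ∀ (j : Fin d) (t : ℤ), T ^ (c j * t) = 1 := fun j t => by
    rw [zpow_eq_of_dvd hT (b := 0) (by rw [sub_zero]; exact (hc1 j).mul_right t), zpow_zero]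
  have hpR : ∀ (m : ℤ) z, p ((R ^ m).1 z) = (T ^ (ψ (z.1 + (m : YY q)) + m)).1 z.2 := by
    intro m z
    rw [hR, zpow_add_apply]
  have hshift : ∀ (j : Fin d) (t m : ℤ) z, p ((R ^ m).1 ((R ^ (c j * t)).1 z)) =
      (T ^ ((g j).psi (z.1 j + t + m) - (g j).psi (z.1 j + m))).1 (p ((R ^ m).1 z)) := by
    intro j t m z
    rw [hpR, hpR, hR, hTc, ← zpow_add_apply]
    have : z.1 + ((c j * t : ℤ) : YY q) + (m : YY q) =
        Function.update (z.1 + (m : YY q)) j (z.1 j + t + m) := by
      rw [add_right_comm, hupd]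
      simp only [Pi.add_apply, Pi.intCast_apply]
      rw [add_right_comm]
    simp only
    rw [this, hψupd]
    simp only [Pi.add_apply, Pi.intCast_apply]
    congr 3
    ring
  have hact : ∀ z : YY q × ℝ, (g (J z.1)).act (z.1 (J z.1)) →
      κ' z = c (J z.1) * (g (J z.1)).t (z.1 (J z.1)) (κ (p z)) := fun z hz => if_pos hz
  have hnact : ∀ z : YY q × ℝ, ¬ (g (J z.1)).act (z.1 (J z.1)) → κ' z = 0 :=
    fun z hz => if_neg hz
  have hpS : ∀ z : YY q × ℝ, (g (J z.1)).act (z.1 (J z.1)) →
      p ((R ^ κ' z).1 z) = S.1 (p z) := by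
    intro z hz
    have := hshift (J z.1) ((g (J z.1)).t (z.1 (J z.1)) (κ (p z))) 0 z
    rw [zpow_zero_apply, zpow_zero_apply] at this
    rw [hact z hz, this, hp.eq]
    simp only [Int.cast_zero, add_zero]
    rw [zpow_eq_of_dvd hT ((g (J z.1)).psi_shift _ _ hz)]
  have hanti : ∀ z, κ' ((R ^ κ' z).1 z) = -κ' z := by
    intro z
    by_cases hz : (g (J z.1)).act (z.1 (J z.1))
    · have h1 : ((R ^ κ' z).1 z).1 = Function.update z.1 (J z.1)
          (z.1 (J z.1) + (g (J z.1)).t (z.1 (J z.1)) (κ (p z))) := by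
        rw [hR, hact z hz, hupd]
      have h2 : J ((R ^ κ' z).1 z).1 = J z.1 := by
        simp only [J]
        congr 1
        ext i
        simp only [mem_ofPred_eq]
        rw [h1]
        by_cases hi : i = J z.1
        · subst hi
          rw [Function.update_self]
          exact ⟨fun _ => hz, fun _ => (g _).act_shift _ _ hz⟩
        · rw [Function.update_of_ne hi]
      have h3 : κ (p ((R ^ κ' z).1 z)) = -κ (p z) := by rw [hpS z hz, hp.eq, hp.anti]
      have h4 : ∀ j, j = J z.1 → ((R ^ κ' z).1 z).1 j =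
          z.1 j + (g j).t (z.1 j) (κ (p z)) := by
        rintro j rfl
        rw [h1, Function.update_self]
      have h5 : ∀ j, j = J z.1 → (g j).act (((R ^ κ' z).1 z).1 j) := by
        rintro j rfl
        rw [h4 _ rfl]; exact (g _).act_shift _ _ hz
      have h6 : ∀ j, j = J z.1 → c j * (g j).t (((R ^ κ' z).1 z).1 j) (-κ (p z)) = -κ' z := by
        rintro j rfl
        rw [h4 _ rfl, (g _).t_shift _ _ hz, hact z hz]; ring
      rw [hact _ (h5 _ h2), h3]
      exact h6 _ h2
    · rw [hnact z hz, zpow_zero_apply, hnact z hz, neg_zero]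
  obtain ⟨S', hS'⟩ := exists_involution R hκ' hanti
  -- the set where the step function changes
  let C : Set (YY q) := {s | ψ (s + 1) ≠ ψ s}
  have hC : (nuY q).real C ≤ ∑ j, β j := by
    have h1 : C ⊆ ⋃ j, (fun s : YY q => s j) ⁻¹' {a | (g j).psi (a + 1) ≠ (g j).psi a} := by
      intro s hs
      by_contra hcon
      simp only [mem_iUnion, mem_preimage, mem_ofPred_eq, not_exists, not_not] at hcon
      exact hs (Finset.sum_congr rfl fun j _ => hcon j)
    refine (measureReal_mono h1).trans ((measureReal_iUnion_fintype_le _).trans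
      (Finset.sum_le_sum fun j _ => ?_))
    rw [(measurePreserving_eval (fun j => unif (q j)) j).measureReal_preimage
      MeasurableSet.of_discrete.nullMeasurableSet, unif_real, div_le_iff₀
      (by exact_mod_cast Nat.pos_of_ne_zero (NeZero.ne (q j)))]
    refine le_trans (le_of_eq ?_) (g j).change
    congr
  have hβ : 0 ≤ ∑ j, β j := measureReal_nonneg.trans hC
  refine ⟨R, S', κ', (Finset.univ ×ˢ K).image ex, p, hpm, ⟨hκ', fun z => ?_, hanti, hS'⟩,
    ?_, ?_, ?_, ?_⟩
  · exact Finset.mem_image.2 ⟨(z.1, κ (p z)), Finset.mem_product.2 ⟨Finset.mem_univ _, hp.mem _⟩,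
      rfl⟩
  · refine le_trans ?_ hC
    rw [← integral_indicator_fst]
    refine integral_mono (integrable_rho (hpm.measurable.comp (MP.meas R))
      ((MP.meas T).comp hpm.measurable))
      (integrable_fst q (C.indicator 1)) fun z => ?_
    simp only
    by_cases hz : z.1 ∈ C
    · rw [indicator_of_mem hz]; exact rho_le_one _ _
    · rw [indicator_of_notMem hz]
      have h1 := hpR 1 z
      rw [zpow_one, Int.cast_one] at h1
      have h2 : ψ (z.1 + 1) = ψ z.1 := not_not.1 hz
      rw [h1, h2, add_comm, zpow_add_apply, zpow_one, rho_self]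
  · let N : Set (YY q) := Set.pi univ fun j => {a | ¬ (g j).act a}
    have hN : (nuY q).real N ≤ (1 - α) ^ d := by
      rw [measureReal_def, Measure.pi_pi, ENNReal.toReal_prod]
      refine (Finset.prod_le_prod (fun j _ => ENNReal.toReal_nonneg)
        (g := fun _ => 1 - α) fun j _ => ?_).trans (by simp)
      have hq : (0:ℝ) < q j := by exact_mod_cast Nat.pos_of_ne_zero (NeZero.ne (q j))
      have h1 : (unif (q j)).real {a | ¬ (g j).act a} = 1 - (unif (q j)).real {a | (g j).act a} :=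
        probReal_compl_eq_one_sub MeasurableSet.of_discrete
      have h2 : α ≤ (unif (q j)).real {a | (g j).act a} := by
        rw [unif_real, le_div_iff₀ hq]; exact (g j).active
      show (unif (q j)).real {a | ¬ (g j).act a} ≤ 1 - α
      linarith
    refine le_trans ?_ hN
    rw [← integral_indicator_fst]
    refine integral_mono (integrable_rho (hpm.measurable.comp (MP.meas S'))
      ((MP.meas S).comp hpm.measurable))
      (integrable_fst q (N.indicator 1)) fun z => ?_
    simp only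
    by_cases hz : z.1 ∈ N
    · rw [indicator_of_mem hz]; exact rho_le_one _ _
    · rw [indicator_of_notMem hz]
      have h1 : {j | (g j).act (z.1 j)}.Nonempty := by
        by_contra hcon
        exact hz fun j _ hj => hcon ⟨j, hj⟩
      rw [hS', hpS z (hpick _ h1), rho_self]
  · intro r hr z
    obtain ⟨a, -, rfl⟩ := Finset.mem_image.1 hr
    by_cases ha : (g (J a.1)).act (a.1 (J a.1))
    · have e : ex a = c (J a.1) * (g (J a.1)).t (a.1 (J a.1)) a.2 := if_pos ha
      rw [e]
      set j := J a.1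
      set t := (g j).t (a.1 j) a.2
      have s1 := (g j).support (z.1 j + t) L' (hL' j)
      have s2 := (g j).support (z.1 j) L' (hL' j)
      refine le_trans (Finset.sum_le_sum fun m _ => ?_)
        ((Finset.sum_add_distrib.trans_le (add_le_add s1 s2)).trans (le_of_eq (by ring)))
      rw [zpow_add_apply, hshift]
      simp only [Int.cast_natCast]
      have := rho_le_one
      split_ifs with a1 a2 a3
      · rw [a1, a2, sub_zero, zpow_zero_apply, rho_self]; norm_num
      · exact (this _ _).trans (by norm_num)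
      · exact (this _ _).trans (by norm_num)
      · exact (this _ _).trans (by norm_num)
    · have e : ex a = 0 := if_neg ha
      rw [e]
      simp only [add_zero, rho_self, Finset.sum_const_zero]
      positivity
  · intro n
    let ch : YY q × ℝ → ℝ := fun z => C.indicator (1 : YY q → ℝ) z.1
    have hch0 : ∀ z, 0 ≤ ch z := fun z => indicator_nonneg (fun _ _ => zero_le_one) _
    have hchi : Integrable ch ζ := integrable_fst q (C.indicator 1)
    have hchI : ∫ z, ch z ∂ζ ≤ ∑ j, β j := (integral_indicator_fst q C).trans_le hC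
    -- the bound for one block
    have hblock : ∀ᵐ z ∂ζ, ∀ k ∈ K, ∑ m ∈ Finset.range L,
        rho ((T ^ k).1 (p ((R ^ (m:ℤ)).1 z))) (p ((R ^ (m:ℤ)).1 z)) ≤
          η * L + err (p z) + L * ∑ m ∈ Finset.range L, ch ((R ^ (m:ℤ)).1 z) := by
      have h1 : ∀ᵐ y ∂mu, ∀ k ∈ K, ∑ m ∈ Finset.range L,
          rho ((T ^ ((m:ℤ) + k)).1 y) ((T ^ (m:ℤ)).1 y) ≤ η * L + err y :=
        (Finset.eventually_all K).2 hb
      filter_upwards [hpm.quasiMeasurePreserving.ae h1] with z hz k hk
      by_cases hch : ∀ m < L, ((R ^ (m:ℤ)).1 z).1 ∉ C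
      · have h2 : ∀ m : ℕ, m ≤ L → ψ (z.1 + ((m:ℤ) : YY q)) = ψ z.1 := by
          intro m hm
          induction m with
          | zero => simp
          | succ m ih =>
            have h3 := hch m hm
            rw [hR] at h3
            have h4 : ψ (z.1 + ((m:ℤ) : YY q) + 1) = ψ (z.1 + ((m:ℤ) : YY q)) := not_not.1 h3
            rw [← ih (by omega), ← h4]
            push_cast; rw [add_assoc]
        have h5 : ∑ m ∈ Finset.range L,
            rho ((T ^ k).1 (p ((R ^ (m:ℤ)).1 z))) (p ((R ^ (m:ℤ)).1 z)) =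
            ∑ m ∈ Finset.range L,
              rho ((T ^ ((m:ℤ) + k)).1 (p z)) ((T ^ (m:ℤ)).1 (p z)) := by
          refine Finset.sum_congr rfl fun m hm => ?_
          rw [hpR, h2 m (Finset.mem_range.1 hm).le, add_comm (ψ z.1), zpow_add_apply,
            add_comm (m:ℤ) k, zpow_add_apply]
        rw [h5]
        have h6 : 0 ≤ (L:ℝ) * ∑ m ∈ Finset.range L, ch ((R ^ (m:ℤ)).1 z) :=
          mul_nonneg (Nat.cast_nonneg L) (Finset.sum_nonneg fun _ _ => hch0 _)
        linarith [hz k hk]
      · push Not at hch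
        obtain ⟨m0, hm0, hm1⟩ := hch
        have h2 : (1:ℝ) ≤ ∑ m ∈ Finset.range L, ch ((R ^ (m:ℤ)).1 z) := by
          refine le_trans ?_ (Finset.single_le_sum (f := fun m : ℕ => ch ((R ^ (m:ℤ)).1 z))
            (fun m _ => hch0 _) (Finset.mem_range.2 hm0))
          simp only [ch]; rw [indicator_of_mem hm1]; exact le_rfl
        have h3 : ∑ m ∈ Finset.range L,
            rho ((T ^ k).1 (p ((R ^ (m:ℤ)).1 z))) (p ((R ^ (m:ℤ)).1 z)) ≤ L := by
          refine (Finset.sum_le_sum fun m _ => rho_le_one _ _).trans (by simp)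
        have h4 : (0:ℝ) ≤ L := Nat.cast_nonneg L
        have h5 := herr0 (p z)
        nlinarith [mul_nonneg hη h4]
    have hall : ∀ᵐ z ∂ζ, ∀ i : ℕ, ∀ k ∈ K, ∑ m ∈ Finset.range L,
        rho ((T ^ k).1 (p ((R ^ (m:ℤ)).1 ((R ^ ((i * L : ℕ) : ℤ)).1 z))))
          (p ((R ^ (m:ℤ)).1 ((R ^ ((i * L : ℕ) : ℤ)).1 z))) ≤
          η * L + err (p ((R ^ ((i * L : ℕ) : ℤ)).1 z)) +
            L * ∑ m ∈ Finset.range L, ch ((R ^ (m:ℤ)).1 ((R ^ ((i * L : ℕ) : ℤ)).1 z)) :=
      ae_all_iff.2 fun i => (MP.mp (R ^ ((i * L : ℕ) : ℤ))).quasiMeasurePreserving.ae hblock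
    let bd : ℕ → YY q × ℝ → ℝ := fun i z => η * L + err (p ((R ^ ((i * L : ℕ) : ℤ)).1 z)) +
      L * ∑ m ∈ Finset.range L, ch ((R ^ (m:ℤ)).1 ((R ^ ((i * L : ℕ) : ℤ)).1 z))
    have i1 : ∀ i : ℕ, Integrable (fun z => err (p ((R ^ ((i * L : ℕ) : ℤ)).1 z))) ζ := fun i =>
      (hpm.comp (MP.mp _)).integrable_comp_of_integrable herr
    have i2 : ∀ (i m : ℕ),
        Integrable (fun z => ch ((R ^ (m:ℤ)).1 ((R ^ ((i * L : ℕ) : ℤ)).1 z))) ζ := fun i m =>
      ((MP.mp _).comp (MP.mp _)).integrable_comp_of_integrable hchi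
    have i3 : ∀ i : ℕ, Integrable (fun z => (L:ℝ) * ∑ m ∈ Finset.range L,
        ch ((R ^ (m:ℤ)).1 ((R ^ ((i * L : ℕ) : ℤ)).1 z))) ζ := fun i =>
      (integrable_finsetSum _ fun m _ => i2 i m).const_mul _
    have i4 : ∀ i : ℕ, Integrable (fun z => η * L + err (p ((R ^ ((i * L : ℕ) : ℤ)).1 z))) ζ :=
      fun i => (integrable_const _).add (i1 i)
    have hbdi : ∀ i, Integrable (bd i) ζ := fun i => (i4 i).add (i3 i)
    have hbdI : ∀ i, ∫ z, bd i z ∂ζ ≤ η * L + ∫ y, err y ∂mu + L * (L * ∑ j, β j) := by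
      intro i
      simp only [bd]
      rw [integral_add (i4 i) (i3 i), integral_add (integrable_const _) (i1 i),
        integral_const_mul (L:ℝ), integral_finsetSum _ fun m _ => i2 i m]
      have e1 : ∫ z, err (p ((R ^ ((i * L : ℕ) : ℤ)).1 z)) ∂ζ = ∫ y, err y ∂mu :=
        integral_comp_mp (hpm.comp (MP.mp _)) herr.aestronglyMeasurable
      have e2 : ∑ m ∈ Finset.range L,
          ∫ z, ch ((R ^ (m:ℤ)).1 ((R ^ ((i * L : ℕ) : ℤ)).1 z)) ∂ζ ≤ L * ∑ j, β j := by
        refine (Finset.sum_le_sum (g := fun _ => ∑ j, β j) fun m _ => ?_).trans (by simp)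
        exact (integral_comp_mp ((MP.mp _).comp (MP.mp _)) hchi.aestronglyMeasurable).trans_le hchI
      rw [e1]
      simp only [integral_const, probReal_univ, smul_eq_mul, one_mul]
      gcongr
    have i5 : ∀ m : ℕ, Integrable (fun z => rho (p ((R ^ (m:ℤ)).1 (S'.1 z)))
        (p ((R ^ (m:ℤ)).1 z))) ζ := fun m =>
      integrable_rho (hpm.measurable.comp ((MP.meas _).comp (MP.meas S')))
        (hpm.measurable.comp (MP.meas _))
    have i6 : Integrable (fun z => ∑ i ∈ Finset.range (n / L), bd i z) ζ :=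
      integrable_finsetSum _ fun i _ => hbdi i
    unfold D
    rw [← integral_finsetSum _ fun m _ => i5 m]
    have hmain : ∫ z, ∑ m ∈ Finset.range n, rho (p ((R ^ (m:ℤ)).1 (S'.1 z)))
        (p ((R ^ (m:ℤ)).1 z)) ∂ζ ≤
        ∫ z, (γ * n + L + ∑ i ∈ Finset.range (n / L), bd i z) ∂ζ := by
      refine integral_mono_ae (integrable_finsetSum _ fun m _ => i5 m)
        ((integrable_const _).add i6) ?_
      filter_upwards [hall] with z hz
      have hk := hp.mem (p z)
      set k := κ (p z)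
      have b1 : ∑ m ∈ Finset.range n,
          rho ((T ^ k).1 (p ((R ^ (m:ℤ)).1 z))) (p ((R ^ (m:ℤ)).1 z)) ≤
          L + ∑ i ∈ Finset.range (n / L), bd i z := by
        rw [sum_range_split _ L n, add_comm]
        refine add_le_add ?_ (Finset.sum_le_sum fun i _ => le_trans (le_of_eq ?_) (hz i k hk))
        · refine (Finset.sum_le_sum fun m _ => rho_le_one _ _).trans ?_
          simp only [Finset.sum_const, Finset.card_range, nsmul_eq_mul, mul_one]
          exact_mod_cast (Nat.mod_lt n hL).le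
        · refine Finset.sum_congr rfl fun m _ => ?_
          rw [← zpow_add_apply R, Nat.cast_add, add_comm ((i * L : ℕ) : ℤ)]
      by_cases ha : (g (J z.1)).act (z.1 (J z.1))
      · have b2 := (g (J z.1)).garbage _ k n ha
        refine le_trans (Finset.sum_le_sum fun m _ => ?_)
          ((Finset.sum_add_distrib.trans_le (add_le_add b2 b1)).trans (le_of_eq (by ring)))
        rw [hS', hact z ha, hshift]
        simp only [Int.cast_natCast]
        have r0 := rho_nonneg ((T ^ k).1 (p ((R ^ (m:ℤ)).1 z))) (p ((R ^ (m:ℤ)).1 z))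
        split_ifs with a1
        · rcases a1 with a1 | a1
          · rw [zpow_eq_of_dvd hT a1, zero_add]
          · rw [a1, sub_self, zpow_zero_apply, rho_self, zero_add]; exact r0
        · exact (rho_le_one _ _).trans (by linarith)
      · rw [hS', hnact z ha, zpow_zero_apply]
        simp only [rho_self, Finset.sum_const_zero]
        have b0 : 0 ≤ ∑ m ∈ Finset.range n,
            rho ((T ^ k).1 (p ((R ^ (m:ℤ)).1 z))) (p ((R ^ (m:ℤ)).1 z)) :=
          Finset.sum_nonneg fun _ _ => rho_nonneg _ _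
        have : 0 ≤ γ * n := by positivity
        linarith
    refine hmain.trans ?_
    rw [integral_add (integrable_const _) i6, integral_finsetSum _ fun i _ => hbdi i]
    simp only [integral_const, probReal_univ, smul_eq_mul, one_mul]
    have c1 : ∑ i ∈ Finset.range (n / L), ∫ z, bd i z ∂ζ ≤
        ((n / L : ℕ) : ℝ) * (η * L + ∫ y, err y ∂mu + L * (L * ∑ j, β j)) := by
      refine (Finset.sum_le_sum fun i _ => hbdI i).trans ?_
      rw [Finset.sum_const, Finset.card_range, nsmul_eq_mul]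
    have c2 : ((n / L : ℕ) : ℝ) * L ≤ n := by exact_mod_cast Nat.div_mul_le_self n L
    have c3 : ((n / L : ℕ) : ℝ) ≤ n := by exact_mod_cast Nat.div_le_self n L
    have c4 : 0 ≤ ∫ y, err y ∂mu := integral_nonneg herr0
    have c5 : (0:ℝ) ≤ L * ∑ j, β j := mul_nonneg (Nat.cast_nonneg L) hβ
    have c6 := mul_le_mul_of_nonneg_right c2 hη
    have c7 := mul_le_mul_of_nonneg_right c3 c4
    have c8 := mul_le_mul_of_nonneg_right c2 c5
    nlinarith

end Model

end Pool.Agent.H844Z
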