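import Pool.Agent.H844Z.Iso

set_option autoImplicit false
open MeasureTheory Set Filter Topology

namespace Pool.Agent.H844Z

/-- The measure of the symmetric difference of two preimages. -/
noncomputable def sd (A : Set ℝ) (S T : G) : ℝ :=
  mu.real (symmDiff ((S.1 : ℝ → ℝ) ⁻¹' A) ((T.1 : ℝ → ℝ) ⁻¹' A))

lemma sd_nonneg (A : Set ℝ) (S T : G) : 0 ≤ sd A S T := measureReal_nonneg

lemma sd_self (A : Set ℝ) (S : G) : sd A S S = 0 := by simp [sd]

lemma sd_comm (A : Set ℝ) (S T : G) : sd A S T = sd A T S := by simp only [sd, symmDiff_comm]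

lemma sd_triangle (A : Set ℝ) (S T U : G) : sd A S U ≤ sd A S T + sd A T U := by
  unfold sd
  refine le_trans (measureReal_mono (symmDiff_triangle _ ((T.1 : ℝ → ℝ) ⁻¹' A) _)) ?_
  exact measureReal_union_le _ _

lemma sd_eq_integral {A : Set ℝ} (hA : MeasurableSet A) (S T : G) :
    sd A S T = ∫ x, |A.indicator (fun _ => (1:ℝ)) (S.1 x) - A.indicator (fun _ => (1:ℝ)) (T.1 x)|
      ∂mu := by
  unfold sd
  rw [← integral_indicator_one (((MP.meas S) hA).symmDiff ((MP.meas T) hA))]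
  refine integral_congr_ae (Eventually.of_forall fun x => ?_)
  by_cases h1 : S.1 x ∈ A <;> by_cases h2 : T.1 x ∈ A <;>
    simp [indicator, mem_symmDiff, h1, h2]

lemma sd_le {A : Set ℝ} (hA : MeasurableSet A) {ε : ℝ} (hε : 0 < ε) :
    ∃ C : ℝ, 0 < C ∧ ∀ S T : G, sd A S T ≤ ε + C * d1 S T := by
  obtain ⟨C, hC, h⟩ := comp_estimate (f := A.indicator (fun _ => (1:ℝ)))
    ((integrable_const _).indicator hA) hε
  refine ⟨C, hC, fun S T => ?_⟩
  rw [sd_eq_integral hA]
  exact h ℝ mu S.1 T.1 (MP.mp S) (MP.mp T)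

lemma tendsto_sd {ι : Type*} {l : Filter ι} {u : ι → G} {T : G} (h : Tendsto u l (𝓝 T))
    {A : Set ℝ} (hA : MeasurableSet A) : Tendsto (fun i => sd A (u i) T) l (𝓝 0) := by
  rw [tendsto_iff_d1] at h
  rw [Metric.tendsto_nhds]
  intro ε hε
  obtain ⟨C, hC, h'⟩ := sd_le hA (ε := ε / 3) (by positivity)
  filter_upwards [h.eventually (gt_mem_nhds (show (0:ℝ) < ε / 3 / C by positivity))] with i hi
  rw [Real.dist_eq, sub_zero, abs_of_nonneg (sd_nonneg _ _ _)]
  have h1 := h' (u i) T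
  have h2 : C * d1 (u i) T ≤ C * (ε / 3 / C) := by gcongr
  rw [mul_div_cancel₀ _ hC.ne'] at h2
  linarith

lemma continuous_sd {A : Set ℝ} (hA : MeasurableSet A) (T : G) :
    Continuous fun S : G => sd A S T := by
  rw [continuous_iff_continuousAt]
  intro S
  rw [ContinuousAt, tendsto_iff_dist_tendsto_zero]
  refine squeeze_zero (fun _ => dist_nonneg) (fun S' => ?_) (tendsto_sd tendsto_id hA (T := S))
  have h1 := sd_triangle A S' S T
  have h2 := sd_triangle A S S' T
  rw [sd_comm A S S'] at h2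
  rw [Real.dist_eq, abs_le]
  simp only [id]
  constructor <;> linarith

/-- The index of the cell of mesh `1 / m`. -/
noncomputable def cell (m : ℕ) (y : ℝ) : ℕ := ⌊cl y * m⌋₊

lemma measurable_cell (m : ℕ) : Measurable (cell m) := by
  unfold cell
  exact Nat.measurable_floor.comp (measurable_cl.mul_const _)

lemma cell_le (m : ℕ) (y : ℝ) : cell m y ≤ m := by
  unfold cell
  refine Nat.floor_le_of_le ?_
  have := cl_le_one y
  have h : (0:ℝ) ≤ m := Nat.cast_nonneg m
  nlinarith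

lemma rho_le_of_cell_eq {m : ℕ} (hm : 0 < m) {x y : ℝ} (h : cell m x = cell m y) :
    rho x y ≤ 1 / m := by
  unfold cell at h
  have hm' : (0:ℝ) < m := by exact_mod_cast hm
  have a1 := Nat.floor_le (show 0 ≤ cl x * m from mul_nonneg (cl_nonneg x) hm'.le)
  have a2 := Nat.floor_le (show 0 ≤ cl y * m from mul_nonneg (cl_nonneg y) hm'.le)
  have b1 := Nat.lt_floor_add_one (cl x * m)
  have b2 := Nat.lt_floor_add_one (cl y * m)
  rw [h] at a1 b1
  unfold rho
  rw [le_div_iff₀ hm', ← abs_of_pos hm', ← abs_mul, sub_mul, abs_le]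
  constructor <;> linarith

lemma d1_le_sum_sd {m : ℕ} (hm : 0 < m) (S T : G) :
    d1 S T ≤ 1 / m + ∑ i ∈ Finset.range (m + 1), sd (cell m ⁻¹' {i}) S T := by
  have hA : ∀ i, MeasurableSet (cell m ⁻¹' {i}) := fun i =>
    measurable_cell m (measurableSet_singleton i)
  have hB : ∀ i, MeasurableSet (symmDiff ((S.1 : ℝ → ℝ) ⁻¹' (cell m ⁻¹' {i}))
      ((T.1 : ℝ → ℝ) ⁻¹' (cell m ⁻¹' {i}))) := fun i =>
    ((MP.meas S) (hA i)).symmDiff ((MP.meas T) (hA i))
  have hI : ∀ i, Integrable ((symmDiff ((S.1 : ℝ → ℝ) ⁻¹' (cell m ⁻¹' {i}))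
      ((T.1 : ℝ → ℝ) ⁻¹' (cell m ⁻¹' {i}))).indicator (1 : ℝ → ℝ)) mu := fun i =>
    (integrable_const (1:ℝ)).indicator (hB i)
  unfold sd d1 D
  simp_rw [← integral_indicator_one (hB _)]
  rw [← integral_finsetSum _ fun i _ => hI i]
  have : (1:ℝ) / m = ∫ _x, (1:ℝ) / m ∂mu := by simp
  rw [this, ← integral_add (integrable_const _) (integrable_finsetSum _ fun i _ => hI i)]
  refine integral_mono (integrable_rho (MP.meas S) (MP.meas T))
    ((integrable_const _).add (integrable_finsetSum _ fun i _ => hI i)) fun x => ?_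
  have hnn : ∀ i ∈ Finset.range (m + 1), (0:ℝ) ≤ (symmDiff ((S.1 : ℝ → ℝ) ⁻¹' (cell m ⁻¹' {i}))
      ((T.1 : ℝ → ℝ) ⁻¹' (cell m ⁻¹' {i}))).indicator (1 : ℝ → ℝ) x := fun i _ =>
    indicator_nonneg (fun _ _ => zero_le_one) x
  by_cases h : cell m (S.1 x) = cell m (T.1 x)
  · have := rho_le_of_cell_eq hm h
    have h2 := Finset.sum_nonneg hnn
    simp only
    linarith
  · have h1 := Finset.single_le_sum hnn (a := cell m (S.1 x))
      (Finset.mem_range.2 (Nat.lt_succ_of_le (cell_le _ _)))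
    rw [indicator_of_mem (by simp [mem_symmDiff, Ne.symm h])] at h1
    have h2 := rho_le_one (S.1 x) (T.1 x)
    have h3 : (0:ℝ) ≤ 1 / m := by positivity
    simp only [Pi.one_apply] at h1 ⊢
    linarith

lemma tendsto_of_sd {ι : Type*} {l : Filter ι} {u : ι → G} {T : G}
    (h : ∀ A : Set ℝ, MeasurableSet A → Tendsto (fun i => sd A (u i) T) l (𝓝 0)) :
    Tendsto u l (𝓝 T) := by
  rw [tendsto_iff_d1, Metric.tendsto_nhds]
  intro ε hε
  obtain ⟨m, hm⟩ := exists_nat_one_div_lt (show (0:ℝ) < ε / 2 by positivity)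
  have h1 : Tendsto (fun i => ∑ k ∈ Finset.range (m + 1 + 1), sd (cell (m + 1) ⁻¹' {k}) (u i) T) l
      (𝓝 0) := by
    have := tendsto_finsetSum (Finset.range (m + 1 + 1))
      (fun k _ => h (cell (m + 1) ⁻¹' {k}) (measurable_cell _ (measurableSet_singleton k)))
    simpa using this
  filter_upwards [h1.eventually (gt_mem_nhds (show (0:ℝ) < ε / 2 by positivity))] with i hi
  rw [Real.dist_eq, sub_zero, abs_of_nonneg (d1_nonneg _ _)]
  have := d1_le_sum_sd (m := m + 1) (Nat.succ_pos m) (u i) T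
  push_cast at this
  linarith

/-- The space of the frozen statements. -/
abbrev Aut : Type := {e : ℝ ≃ᵐ ℝ // MeasurePreserving (⇑e) mu mu}

/-- The identification of the two descriptions of the group. -/
noncomputable def autEquiv : Aut ≃ G where
  toFun e := ofEquiv e.1 e.2
  invFun T := ⟨toEquiv T, MP.mp T⟩
  left_inv _ := rfl
  right_inv _ := rfl

lemma autEquiv_apply (e : Aut) (x : ℝ) : (autEquiv e).1 x = e.1 x := rfl
lemma autEquiv_inv_apply (e : Aut) (x : ℝ) : ((autEquiv e)⁻¹).1 x = e.1.symm x := rfl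

lemma top_inter : (⨅ (A : Set ℝ) (_ : MeasurableSet A) (B : Set ℝ) (_ : MeasurableSet B),
      TopologicalSpace.induced (fun T : Aut => (mu ((⇑T.1) ⁻¹' A ∩ B)).toReal)
        (inferInstance : TopologicalSpace ℝ)) =
    TopologicalSpace.induced autEquiv inferInstance := by
  apply le_antisymm
  · rw [← continuous_iff_le_induced]
    set τ : TopologicalSpace Aut := (⨅ (A : Set ℝ) (_ : MeasurableSet A) (B : Set ℝ)
      (_ : MeasurableSet B),
      TopologicalSpace.induced (fun T : Aut => (mu ((⇑T.1) ⁻¹' A ∩ B)).toReal)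
        (inferInstance : TopologicalSpace ℝ)) with hτ
    have hc : ∀ A, MeasurableSet A → ∀ B, MeasurableSet B →
        Continuous fun T : Aut => (mu ((⇑T.1) ⁻¹' A ∩ B)).toReal := by
      intro A hA B hB
      rw [continuous_iff_le_induced]
      exact iInf_le_of_le A (iInf_le_of_le hA (iInf_le_of_le B (iInf_le _ hB)))
    rw [continuous_iff_continuousAt]
    intro T
    refine tendsto_of_sd fun A hA => ?_
    have hTA : MeasurableSet ((⇑T.1) ⁻¹' A) := T.1.measurable hA
    have key : ∀ S : Aut, sd A (autEquiv S) (autEquiv T) =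
        2 * mu.real A - 2 * (mu ((⇑S.1) ⁻¹' A ∩ (⇑T.1) ⁻¹' A)).toReal := by
      intro S
      have hSA : MeasurableSet ((⇑S.1) ⁻¹' A) := S.1.measurable hA
      have e1 : mu.real ((⇑S.1) ⁻¹' A) = mu.real A := S.2.measureReal_preimage hA.nullMeasurableSet
      have e2 : mu.real ((⇑T.1) ⁻¹' A) = mu.real A := T.2.measureReal_preimage hA.nullMeasurableSet
      have e3 := measureReal_inter_add_sdiff (μ := mu) (s := (⇑S.1) ⁻¹' A) hTA
      have e4 := measureReal_inter_add_sdiff (μ := mu) (s := (⇑T.1) ⁻¹' A) hSA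
      have e5 := measureReal_symmDiff_eq (μ := mu) hSA hTA
      rw [inter_comm] at e4
      show mu.real (symmDiff ((⇑S.1) ⁻¹' A) ((⇑T.1) ⁻¹' A)) =
        2 * mu.real A - 2 * mu.real ((⇑S.1) ⁻¹' A ∩ (⇑T.1) ⁻¹' A)
      linarith
    have hcont : Continuous fun S : Aut => sd A (autEquiv S) (autEquiv T) := by
      simp_rw [key]
      exact continuous_const.sub (continuous_const.mul (hc A hA _ hTA))
    have := hcont.tendsto T
    rwa [sd_self] at this
  · refine le_iInf fun A => le_iInf fun hA => le_iInf fun B => le_iInf fun hB => ?_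
    let : TopologicalSpace Aut := TopologicalSpace.induced autEquiv inferInstance
    rw [← continuous_iff_le_induced]
    have hc : Continuous fun S : G => mu.real ((S.1 : ℝ → ℝ) ⁻¹' A ∩ B) := by
      rw [continuous_iff_continuousAt]
      intro T
      rw [ContinuousAt, tendsto_iff_dist_tendsto_zero]
      refine squeeze_zero (fun _ => dist_nonneg) (fun S => ?_) (tendsto_sd tendsto_id hA (T := T))
      rw [Real.dist_eq]
      refine (abs_measureReal_sub_le_measureReal_symmDiff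
        ((((MP.meas S) hA).inter hB).nullMeasurableSet)
        ((((MP.meas T) hA).inter hB).nullMeasurableSet)).trans (measureReal_mono ?_)
      intro x hx
      simp only [mem_symmDiff, mem_inter_iff, mem_preimage, id] at hx ⊢
      tauto
    exact hc.comp (continuous_induced_dom (f := autEquiv))

lemma top_gen : TopologicalSpace.generateFrom
      {U | ∃ T₀ : Aut, ∃ A : Set ℝ, MeasurableSet A ∧ ∃ δ : ℝ, 0 < δ ∧
        U = {S : Aut | mu (symmDiff (((S.1 : ℝ ≃ᵐ ℝ) : ℝ → ℝ) ⁻¹' A)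
          (((T₀.1 : ℝ ≃ᵐ ℝ) : ℝ → ℝ) ⁻¹' A)) < ENNReal.ofReal δ}} =
    TopologicalSpace.induced autEquiv inferInstance := by
  have key : ∀ (T₀ : Aut) (A : Set ℝ) (δ : ℝ),
      {S : Aut | mu (symmDiff (((S.1 : ℝ ≃ᵐ ℝ) : ℝ → ℝ) ⁻¹' A)
          (((T₀.1 : ℝ ≃ᵐ ℝ) : ℝ → ℝ) ⁻¹' A)) < ENNReal.ofReal δ} =
        {S : Aut | sd A (autEquiv S) (autEquiv T₀) < δ} := by
    intro T₀ A δ
    ext S
    simp only [mem_ofPred_eq]
    rw [ENNReal.lt_ofReal_iff_toReal_lt (measure_ne_top _ _)]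
    rfl
  apply le_antisymm
  · rw [← continuous_iff_le_induced]
    set τ : TopologicalSpace Aut := TopologicalSpace.generateFrom
      {U | ∃ T₀ : Aut, ∃ A : Set ℝ, MeasurableSet A ∧ ∃ δ : ℝ, 0 < δ ∧
        U = {S : Aut | mu (symmDiff (((S.1 : ℝ ≃ᵐ ℝ) : ℝ → ℝ) ⁻¹' A)
          (((T₀.1 : ℝ ≃ᵐ ℝ) : ℝ → ℝ) ⁻¹' A)) < ENNReal.ofReal δ}} with hτ
    rw [continuous_iff_continuousAt]
    intro T
    refine tendsto_of_sd fun A hA => ?_
    rw [Metric.tendsto_nhds]
    intro δ hδ
    have ho : IsOpen {S : Aut | sd A (autEquiv S) (autEquiv T) < δ} := by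
      rw [← key]
      exact TopologicalSpace.isOpen_generateFrom_of_mem ⟨T, A, hA, δ, hδ, rfl⟩
    filter_upwards [ho.mem_nhds (show sd A (autEquiv T) (autEquiv T) < δ by rwa [sd_self])]
      with S hS
    rwa [Real.dist_eq, sub_zero, abs_of_nonneg (sd_nonneg _ _ _)]
  · refine le_generateFrom ?_
    rintro U ⟨T₀, A, hA, δ, hδ, rfl⟩
    rw [key]
    let : TopologicalSpace Aut := TopologicalSpace.induced autEquiv inferInstance
    exact isOpen_lt ((continuous_sd hA _).comp (continuous_induced_dom (f := autEquiv))) continuous_const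

end Pool.Agent.H844Z
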